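import Pool.Agent.DDV.Kc
import Pool.Agent.FbT.Nn

/-!
# DDV, part Cr: short and long complexes for the Klein four group, the orthogonality
-/

set_option autoImplicit false

namespace Pool.Agent.DDV

open Pool.Agent.Sig Pool.Agent.DD Pool.Agent.FbT

section Defs

variable {k Z E V : Type} [Field k] [CommGroup Z] [Fintype Z] [CommGroup E] [Fintype E]
  {θ : E →* MulAut Z} [AddCommGroup V] [Module k V] {n : ℕ}

/-- SHORT: `fd σ w` is injective with the equivariant retraction `q`, whose kernel is spanned by the fixed vector `v` of weight `ψ`. -/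
structure Sh (σ : Representation k (Z ⋊[θ] E) V) (χ : Fin n → E →* kˣ) (w : Fin n → V)
    (ψ : E →* kˣ) (q : V →ₗ[k] (Fin n × Z → k)) (v : V) : Prop where
  ev : ∀ a y, σ (.inr y) (w a) = ((χ a y : kˣ) : k) • w a
  qe : Eqv σ (tw θ χ k) q
  qf : ∀ x, q (fd σ w x) = x
  qN : ∀ v, q v = 0 → NZ σ v = 0
  qv : q v = 0
  ne : v ≠ 0
  wt : ∀ y, σ (.inr y) v = ((ψ y : kˣ) : k) • v
  fix : ∀ z : Z, σ (.inl z) v = v
  sp : ∀ u, q u = 0 → ∃ c : k, u = c • v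

/-- The splitting of a short complex. -/
def Sh.S {σ : Representation k (Z ⋊[θ] E) V} {χ : Fin n → E →* kˣ} {w : Fin n → V}
    {ψ : E →* kˣ} {q : V →ₗ[k] (Fin n × Z → k)} {v : V} (h : Sh σ χ w ψ q v) : Spt σ where
  n := n
  χ := χ
  w := w
  ev := h.ev
  q := q
  qe := h.qe
  qf := h.qf
  qN := h.qN

theorem Sh.ts {σ : Representation k (Z ⋊[θ] E) V} {χ : Fin n → E →* kˣ} {w : Fin n → V}
    {ψ : E →* kˣ} {q : V →ₗ[k] (Fin n × Z → k)} {v : V} (h : Sh σ χ w ψ q v) :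
    TS h.S ψ v := ⟨h.qv, h.ne, h.wt, h.fix, h.sp⟩

theorem sh_of_ts {σ : Representation k (Z ⋊[θ] E) V} {S : Spt σ} {ψ : E →* kˣ} {v : V}
    (T : TS S ψ v) : Sh σ S.χ S.w ψ S.q v :=
  ⟨S.ev, S.qe, S.qf, S.qN, T.q, T.ne, T.wt, T.fix, T.sp⟩

/-- LONG: `fd σ w` is onto, and its kernel is spanned by `X₂ g` and `NZ g ≠ 0`, `g` of weight `ψ`. -/
structure Lo (G : G4 k θ) (σ : Representation k (Z ⋊[θ] E) V) (χ : Fin n → E →* kˣ)
    (w : Fin n → V) (ψ : E →* kˣ) (g : Fin n × Z → k) : Prop where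
  ev : ∀ a y, σ (.inr y) (w a) = ((χ a y : kˣ) : k) • w a
  sj : Function.Surjective (fd σ w)
  wt : ∀ y, tw θ χ k (.inr y) g = ((ψ y : kˣ) : k) • g
  ne : NZ (tw θ χ k) g ≠ 0
  k₂ : fd σ w (zo (tw θ χ k) G.c₂ g) = 0
  kN : fd σ w (NZ (tw θ χ k) g) = 0
  ker : ∀ x, fd σ w x = 0 → ∃ a b : k,
    x = a • zo (tw θ χ k) G.c₂ g + b • NZ (tw θ χ k) g

private theorem CA_zo (σ : Representation k (Z ⋊[θ] E) V) (c : Z → k) (v : V) :
    zo σ c v = ∑ z : Z, c z • σ (.inl z) v := by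
  rw [zo, LinearMap.sum_apply]
  rfl

private theorem CA_fd (σ : Representation k (Z ⋊[θ] E) V) {n : ℕ} (w : Fin n → V) (v : V)
    (x : Fin (n + 1) × Z → k) :
    fd σ (Fin.cons v w : Fin (n + 1) → V) x =
      zo σ (fun z => x (0, z)) v + fd σ w (fun p => x (p.1.succ, p.2)) := by
  rw [fd_apply, fd_apply, CA_zo, Fintype.sum_prod_type, Fin.sum_univ_succ, Fintype.sum_prod_type]
  rfl

private theorem CA_pol {G : G4 k θ} {α β γ : Z → k}
    (h : ∀ z : Z, ∀ (V : Type) [AddCommGroup V] [Module k V]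
      (σ : Representation k (Z ⋊[θ] E) V) (v : V), σ (.inl z) v =
        v + α z • zo σ G.c₁ v + β z • zo σ G.c₂ v + γ z • NZ σ v)
    (σ : Representation k (Z ⋊[θ] E) V) (c : Z → k) (v : V) :
    zo σ c v = (∑ z, c z) • v + (∑ z, c z * α z) • zo σ G.c₁ v +
      (∑ z, c z * β z) • zo σ G.c₂ v + (∑ z, c z * γ z) • NZ σ v := by
  rw [CA_zo, Finset.sum_smul, Finset.sum_smul, Finset.sum_smul, Finset.sum_smul,
    ← Finset.sum_add_distrib, ← Finset.sum_add_distrib, ← Finset.sum_add_distrib]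
  refine Finset.sum_congr rfl fun z _ => ?_
  rw [h z V σ v, smul_add, smul_add, smul_add, smul_smul, smul_smul, smul_smul]

private theorem CA_inl {n : ℕ} (χ : Fin (n + 1) → E →* kˣ) [DecidableEq (Fin (n + 1) × Z)] (z : Z) :
    tw θ χ k (.inl z) (Pi.single (0, 1) 1) = Pi.single (0, z) (1 : k) := by
  have : DecidableEq Z := Classical.decEq Z
  funext p
  obtain ⟨a, z'⟩ := p
  rw [tw_apply]
  have h1 : ((χ a (SemidirectProduct.inl (φ := θ) z).right : kˣ) : k) = 1 := by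
    rw [SemidirectProduct.right_inl, map_one, Units.val_one]
  have h2 : θ (SemidirectProduct.inl (φ := θ) z).right⁻¹
      ((SemidirectProduct.inl (φ := θ) z).left⁻¹ * z') = z⁻¹ * z' := by
    rw [SemidirectProduct.right_inl, SemidirectProduct.left_inl, inv_one, map_one]
    rfl
  show ((χ a (SemidirectProduct.inl (φ := θ) z).right : kˣ) : k) •
    (Pi.single (0, 1) (1 : k) : Fin (n + 1) × Z → k) (a, θ (SemidirectProduct.inl (φ := θ) z).right⁻¹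
      ((SemidirectProduct.inl (φ := θ) z).left⁻¹ * z')) = _
  rw [h1, h2, one_smul, Pi.single_apply, Pi.single_apply]
  simp only [Prod.mk.injEq]
  by_cases h : a = 0
  · subst h
    by_cases hz : z' = z
    · subst hz
      simp
    · have : z⁻¹ * z' ≠ 1 := fun e => hz (by rw [inv_mul_eq_one] at e; exact e.symm)
      simp [hz, this]
  · simp [h]

private theorem CA_inr {n : ℕ} (χ : Fin (n + 1) → E →* kˣ) [DecidableEq (Fin (n + 1) × Z)] (y : E) :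
    tw θ χ k (.inr y) (Pi.single (0, 1) 1) =
      ((χ 0 y : kˣ) : k) • (Pi.single (0, 1) (1 : k) : Fin (n + 1) × Z → k) := by
  have : DecidableEq Z := Classical.decEq Z
  funext p
  obtain ⟨a, z'⟩ := p
  rw [tw_apply]
  have h1 : (SemidirectProduct.inr (φ := θ) y).right = y := SemidirectProduct.right_inr _
  have h2 : θ (SemidirectProduct.inr (φ := θ) y).right⁻¹
      ((SemidirectProduct.inr (φ := θ) y).left⁻¹ * z') = θ y⁻¹ z' := by
    rw [SemidirectProduct.right_inr, SemidirectProduct.left_inr, inv_one, one_mul]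
  show ((χ a (SemidirectProduct.inr (φ := θ) y).right : kˣ) : k) •
    (Pi.single (0, 1) (1 : k) : Fin (n + 1) × Z → k) (a, θ (SemidirectProduct.inr (φ := θ) y).right⁻¹
      ((SemidirectProduct.inr (φ := θ) y).left⁻¹ * z')) = _
  rw [h2, h1, Pi.smul_apply, Pi.single_apply, Pi.single_apply]
  simp only [Prod.mk.injEq]
  have h3 : θ y⁻¹ z' = 1 ↔ z' = 1 := (θ y⁻¹).map_eq_one_iff
  by_cases h : a = 0
  · subst h
    simp only [h3]
  · simp [h]


/-- MODULE CA. THE LONG COMPLEX. `w' = (v, w)`. `g = Pi.single (0, 1) 1`. PROOF. `fd σ w' x = ∑_z x(0, z) σ(z) v + fd σ w x'`, `x'(a, z) = x(a.succ, z)` (`Fintype.sum_prod_type`, `Fin.sum_univ_succ`). (sj) `u = pr u + fd (q u)`, `pr u = a v + b X₁ v`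
(`T.sp`), `X₁ v = ∑ c₁(z) σ(z) v`. (wt), (ne): `tw(z) g = Pi.single (0, z) 1`, `tw(y) g = ψ(y) g`; `NZ g` has the value `1` at `(0, z)`. (k₂) `fd` is equivariant (`fd_eqv`), `fd g = v`, `X₂ v = 0` (`zo_eqv`). (kN) `NZ v = 0` (`S.qN`, `NZ_eqv`). (ker) `fd x = 0`;
apply `q` (`q` vanishes on the `σ(z) v`: `S.q_stab`): `x' = 0`. So `x = ∑_z x(0, z) tw(z) g`, `∑_z x(0, z) σ(z) v = 0`. With `α_z, β_z, γ_z` of `G.pol z`: `∑_z x(0, z) (v + α_z X₁ v) = 0`, so by `T.lin` `∑ x(0, z) = 0`, `∑ x(0, z) α_z = 0`;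
`x = (∑ x(0,z)) g + (∑ x(0,z) α_z) X₁ g + (∑ x(0,z) β_z) X₂ g + (∑ x(0,z) γ_z) NZ g` (`G.pol` for `tw`). -/
theorem lo_of_ta {G : G4 k θ} {σ : Representation k (Z ⋊[θ] E) V} {S : Spt σ} {ψ : E →* kˣ}
    {v : V} (T : TA G S ψ v) :
    ∃ g, Lo G σ (Fin.cons ψ S.χ : Fin (S.n + 1) → E →* kˣ)
      (Fin.cons v S.w : Fin (S.n + 1) → V) ψ g := by
  classical
  obtain hpol := G.pol
  choose α β γ hpol using hpol
  have hev : ∀ a y, σ (.inr y) ((Fin.cons v S.w : Fin (S.n + 1) → V) a) =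
      (((Fin.cons ψ S.χ : Fin (S.n + 1) → E →* kˣ) a y : kˣ) : k) •
        (Fin.cons v S.w : Fin (S.n + 1) → V) a := by
    intro a y
    refine Fin.cases ?_ (fun b => ?_) a
    · rw [Fin.cons_zero, Fin.cons_zero]
      exact T.wt y
    · rw [Fin.cons_succ, Fin.cons_succ]
      exact S.ev b y
  have hD := fd_eqv σ hev
  have hg : fd σ (Fin.cons v S.w : Fin (S.n + 1) → V) (Pi.single (0, 1) 1) = v := by
    rw [fd_apply, Fintype.sum_eq_single ((0, 1) : Fin (S.n + 1) × Z)]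
    · rw [Pi.single_eq_same, one_smul]
      show σ (.inl 1) ((Fin.cons v S.w : Fin (S.n + 1) → V) 0) = v
      rw [Fin.cons_zero, map_one, map_one]
      rfl
    · intro p hp
      rw [Pi.single_eq_of_ne hp, zero_smul]
  have hzo : ∀ x : Fin (S.n + 1) × Z → k, (∀ p : Fin S.n × Z, x (p.1.succ, p.2) = 0) →
      x = zo (tw θ (Fin.cons ψ S.χ : Fin (S.n + 1) → E →* kˣ) k) (fun z => x (0, z))
        (Pi.single (0, 1) 1) := by
    intro x hx
    rw [CA_zo]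
    funext p
    obtain ⟨a, z'⟩ := p
    rw [Finset.sum_apply, Finset.sum_eq_single z']
    · rw [CA_inl, Pi.smul_apply]
      refine Fin.cases ?_ (fun b => ?_) a
      · rw [Pi.single_eq_same, smul_eq_mul, mul_one]
      · rw [Pi.single_eq_of_ne (by simp [Fin.succ_ne_zero]), smul_zero]
        exact hx (b, z')
    · intro z _ hz
      rw [CA_inl, Pi.smul_apply, Pi.single_eq_of_ne, smul_zero]
      simp only [ne_eq, Prod.mk.injEq, not_and]
      exact fun _ h => hz h.symm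
    · intro h
      exact absurd (Finset.mem_univ _) h
  refine ⟨Pi.single (0, 1) 1, ⟨hev, ?_, ?_, ?_, ?_, ?_, ?_⟩⟩
  · intro u
    have h1 : u = S.pr u + fd σ S.w (S.q u) := by
      rw [S.pr_apply, sub_add_cancel]
    obtain ⟨a, b, hab⟩ := T.sp (S.pr u) (S.q_pr u)
    have hst : ∀ z : Z, ∀ u ∈ LinearMap.range (fd σ (Fin.cons v S.w : Fin (S.n + 1) → V)),
        σ (.inl z) u ∈ LinearMap.range (fd σ (Fin.cons v S.w : Fin (S.n + 1) → V)) := by
      rintro z _ ⟨x, rfl⟩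
      exact ⟨_, hD _ _⟩
    have hv : v ∈ LinearMap.range (fd σ (Fin.cons v S.w : Fin (S.n + 1) → V)) := ⟨_, hg⟩
    have hf : ∀ y, fd σ S.w y ∈ LinearMap.range (fd σ (Fin.cons v S.w : Fin (S.n + 1) → V)) := by
      intro y
      refine ⟨fun p => Fin.cases (motive := fun _ => k) 0 (fun b => y (b, p.2)) p.1, ?_⟩
      rw [CA_fd]
      have h2 : zo σ (fun z => (fun p : Fin (S.n + 1) × Z =>
          Fin.cases (motive := fun _ => k) 0 (fun b => y (b, p.2)) p.1) (0, z)) v = 0 := by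
        rw [CA_zo]
        refine Finset.sum_eq_zero fun z _ => ?_
        show (Fin.cases (motive := fun _ => k) 0 (fun b => y (b, z)) (0 : Fin (S.n + 1))) • _ = _
        rw [Fin.cases_zero, zero_smul]
      rw [h2, zero_add]
      rfl
    show u ∈ LinearMap.range (fd σ (Fin.cons v S.w : Fin (S.n + 1) → V))
    rw [h1, hab]
    exact Submodule.add_mem _ (Submodule.add_mem _ (Submodule.smul_mem _ _ hv)
      (Submodule.smul_mem _ _ (zo_mem hst _ hv))) (hf _)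
  · intro y
    rw [CA_inr, Fin.cons_zero]
  · intro h0
    have h1 := congrFun h0 ((0, 1) : Fin (S.n + 1) × Z)
    rw [NZ_apply, Finset.sum_apply, Finset.sum_eq_single 1] at h1
    · rw [CA_inl, Pi.single_eq_same] at h1
      exact one_ne_zero h1
    · intro z _ hz
      rw [CA_inl, Pi.single_eq_of_ne]
      simp only [ne_eq, Prod.mk.injEq, not_and]
      exact fun _ h => hz h.symm
    · intro h
      exact absurd (Finset.mem_univ _) h
  · rw [zo_eqv hD, hg, T.x₂]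
  · rw [NZ_eqv hD, hg, S.qN v T.q]
  · intro x hx
    have h1 := hx
    rw [CA_fd] at h1
    have hq : ∀ z : Z, ∀ u ∈ LinearMap.ker S.q, σ (.inl z) u ∈ LinearMap.ker S.q :=
      fun z u hu => LinearMap.mem_ker.2 (S.q_stab _ (LinearMap.mem_ker.1 hu))
    have h2 : S.q (zo σ (fun z => x (0, z)) v) = 0 :=
      LinearMap.mem_ker.1 (zo_mem hq _ (LinearMap.mem_ker.2 T.q))
    have h3 : (fun p : Fin S.n × Z => x (p.1.succ, p.2)) = 0 := by
      have h4 := congrArg S.q h1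
      rw [map_add, h2, zero_add, S.qf, map_zero] at h4
      exact h4
    have h4 := hzo x (fun p => congrFun h3 p)
    rw [h3, map_zero, add_zero, CA_pol hpol, T.x₂, S.qN v T.q, smul_zero, smul_zero, add_zero,
      add_zero] at h1
    obtain ⟨h5, h6⟩ := T.lin h1
    refine ⟨∑ z, x (0, z) * β z, ∑ z, x (0, z) * γ z, h4.trans ((CA_pol hpol _ _ _).trans ?_)⟩
    rw [h5, h6, zero_smul, zero_smul, zero_add, zero_add]

/-- MODULE CB. The averaging operator onto the weight `χ`: a vector `a p + b p'` of weight `χ`, where `p` has weight `χ₁ ≠ χ`, is equal to `b p'`, and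
it is zero if `p'` has a weight `≠ χ` as well. PROOF. `A u = |E|⁻¹ ∑_y χ(y)⁻¹ σ(inr y) u` is linear, `A u` has weight `χ`, `A u = u` if `u` has weight `χ`, and `A u = 0` if `u` has a weight `χ' ≠ χ` (`A u` is
a multiple of `u`; `wt_zero`). Here `p'` has weight `χ₂`: if `χ₂ = χ` then `A(a p + b p') = b p'`; if not it is `0`, and then `x = 0`; take `c = b` or `c = 0`. -/
theorem wt_two (hE : (Fintype.card E : k) ≠ 0) {σ : Representation k (Z ⋊[θ] E) V}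
    {χ χ₁ χ₂ : E →* kˣ} {p p' : V} {a b : k}
    (h₁ : ∀ y, σ (.inr y) p = ((χ₁ y : kˣ) : k) • p)
    (h₂ : ∀ y, σ (.inr y) p' = ((χ₂ y : kˣ) : k) • p') (hne : χ ≠ χ₁)
    (h : ∀ y, σ (.inr y) (a • p + b • p') = ((χ y : kˣ) : k) • (a • p + b • p')) :
    ∃ c : k, a • p + b • p' = c • p' := by
  have h3 : ∃ y, χ y ≠ χ₁ y := by
    by_contra hc
    exact hne (MonoidHom.ext fun y => not_not.1 fun h' => hc ⟨y, h'⟩)
  obtain ⟨y, hy⟩ := h3
  have h4 := h y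
  rw [map_add, map_smul, map_smul, h₁, h₂] at h4
  have hd : ((χ₁ y : kˣ) : k) - ((χ y : kˣ) : k) ≠ 0 := fun e =>
    hy (Units.ext (sub_eq_zero.1 e).symm)
  have h5 : (((χ₁ y : kˣ) : k) - ((χ y : kˣ) : k)) • (a • p) =
      (((χ y : kˣ) : k) - ((χ₂ y : kˣ) : k)) • (b • p') := by
    rw [sub_smul, sub_smul, sub_eq_sub_iff_add_eq_add, smul_comm ((χ₁ y : kˣ) : k) a p,
      smul_comm ((χ₂ y : kˣ) : k) b p', h4, smul_add, add_comm]
  have h6 : a • p = ((((χ₁ y : kˣ) : k) - ((χ y : kˣ) : k))⁻¹ *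
      ((((χ y : kˣ) : k) - ((χ₂ y : kˣ) : k)) * b)) • p' := by
    rw [mul_smul, mul_smul, ← h5, smul_smul, inv_mul_cancel₀ hd, one_smul]
  exact ⟨_, by rw [h6, ← add_smul]⟩

/-- MODULE CB. PROOF. `NZ = X₁ X₂ = X₂ X₁` (`G.x₁₂`, `G.x₂₁`), `X₁² = X₂² = 0`. -/
theorem zo_NZ (G : G4 k θ) (σ : Representation k (Z ⋊[θ] E) V) (v : V) :
    zo σ G.c₁ (NZ σ v) = 0 ∧ zo σ G.c₂ (NZ σ v) = 0 ∧ NZ σ (NZ σ v) = 0 := by
  have h1 : ∀ u, zo σ G.c₁ (NZ σ u) = 0 := fun u => by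
    rw [← G.x₁₂ V σ u, G.sq₁ V σ]
  have h2 : ∀ u, zo σ G.c₂ (NZ σ u) = 0 := fun u => by
    rw [← G.x₂₁ V σ u, G.sq₂ V σ]
  exact ⟨h1 v, h2 v, by rw [← G.x₁₂ V σ (NZ σ v), h2, map_zero]⟩

end Defs

section Pair

variable {k Z E V V' N N' : Type} [Field k] [CommGroup Z] [Fintype Z] [CommGroup E] [Fintype E]
  {θ : E →* MulAut Z} [AddCommGroup V] [Module k V] [AddCommGroup V'] [Module k V']
  [AddCommGroup N] [Module k N] [AddCommGroup N'] [Module k N']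
  {σ : Representation k (Z ⋊[θ] E) V} {σ' : Representation k (Z ⋊[θ] E) V'}
  {ν : Representation k (Z ⋊[θ] E) N} {ν' : Representation k (Z ⋊[θ] E) N'} {n n' : ℕ}
  {χ : Fin n → E →* kˣ} {w : Fin n → V} {ψ : E →* kˣ} {q : V →ₗ[k] (Fin n × Z → k)} {v : V}
  {χ' : Fin n' → E →* kˣ} {w' : Fin n' → V'} {ψ' : E →* kˣ} {q' : V' →ₗ[k] (Fin n' × Z → k)}
  {v' : V'}

/-- MODULE CC. SHORT TO SHORT. PROOF. `s = q' β`; `α x = q' fd'(α x) = q' β (fd x)`. `pr' β = β - fd' q' β` (`pr' = h'.S.pr`) is an equivariant map with values in `ker q'`, a trace (`comp_trc`, `pr_eqv`); it kills the range of `fd`: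
`pr' β fd x = pr' fd' α x = 0` (`pr_fd`), and the fixed vector `v` (`Spt.kill_fix`). Every `u ∈ V` is `pr u + fd (q u)`, `pr u = c v` (`h.sp`). -/
theorem ss_mid (h : Sh σ χ w ψ q v) (h' : Sh σ' χ' w' ψ' q' v')
    {α : (Fin n × Z → k) →ₗ[k] (Fin n' × Z → k)} {β : V →ₗ[k] V'}
    (hβ : ∃ φ : V →ₗ[k] V', Trc σ σ' φ = β)
    (hc : ∀ x, fd σ' w' (α x) = β (fd σ w x)) :
    ∃ s : V →ₗ[k] (Fin n' × Z → k), Eqv σ (tw θ χ' k) s ∧ (∀ x, α x = s (fd σ w x)) ∧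
      ∀ u, β u = fd σ' w' (s u) := by
  obtain ⟨φ, hφ⟩ := hβ
  have hβe : Eqv σ σ' β := by
    rw [← hφ]
    exact trc_eqv σ σ' φ
  have h0 : ∀ u, h'.S.pr (β u) = 0 := by
    intro u
    have h1 : u = h.S.pr u + fd σ w (q u) := (sub_add_cancel _ _).symm
    obtain ⟨c, hc1⟩ := h.sp (h.S.pr u) (h.S.q_pr u)
    have h2 : h'.S.pr (β v) = 0 := by
      refine Spt.kill_fix (σ := σ) h'.S (f := h'.S.pr ∘ₗ β) ⟨h'.S.pr ∘ₗ φ, ?_⟩ (fun u => ?_)
        h.fix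
      · rw [← comp_trc h'.S.pr_eqv, hφ]
      · exact h'.S.q_pr _
    have h3 : h'.S.pr (β (fd σ w (q u))) = 0 := by
      rw [← hc]
      exact h'.S.pr_fd _
    rw [h1, map_add, map_add, h3, hc1, map_smul, map_smul, h2, smul_zero, add_zero]
  refine ⟨q' ∘ₗ β, fun g u => ?_, fun x => ?_, fun u => ?_⟩
  · rw [LinearMap.comp_apply, LinearMap.comp_apply, hβe, h'.qe]
  · rw [LinearMap.comp_apply, ← hc, h'.qf]
  · exact sub_eq_zero.1 (h0 u)

/-- MODULE CC. SOMETHING SURJECTIVE TO SHORT. PROOF. `s = q' β`; `pr' β D x = pr' fd' (α x) = 0` and `D` is onto, so `pr' β = 0`. -/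
theorem ls_mid {D : N →ₗ[k] V} (hs : Function.Surjective D) (h' : Sh σ' χ' w' ψ' q' v')
    {α : N →ₗ[k] (Fin n' × Z → k)} {β : V →ₗ[k] V'} (hβ : Eqv σ σ' β)
    (hc : ∀ x, fd σ' w' (α x) = β (D x)) :
    ∃ s : V →ₗ[k] (Fin n' × Z → k), Eqv σ (tw θ χ' k) s ∧ (∀ x, α x = s (D x)) ∧
      ∀ u, β u = fd σ' w' (s u) := by
  have h0 : ∀ u, h'.S.pr (β u) = 0 := by
    intro u
    obtain ⟨x, rfl⟩ := hs u
    rw [← hc]
    exact h'.S.pr_fd _
  refine ⟨q' ∘ₗ β, fun g u => ?_, fun x => ?_, fun u => ?_⟩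
  · rw [LinearMap.comp_apply, LinearMap.comp_apply, hβ, h'.qe]
  · rw [LinearMap.comp_apply, ← hc, h'.qf]
  · exact sub_eq_zero.1 (h0 u)

/-- MODULE CC. SHORT TO SOMETHING SURJECTIVE. PROOF. `trc_lift`: `β = D' β'`, `β'` equivariant. `s = β' + (α - β' fd) q`: `s fd = β' fd + (α - β' fd) = α` (`h.qf`), `D' s = β + (D' α - β fd) q = β`. -/
theorem sl_mid (h : Sh σ χ w ψ q v) {D' : N' →ₗ[k] V'} (hD' : Eqv ν' σ' D')
    (hs : Function.Surjective D') {α : (Fin n × Z → k) →ₗ[k] N'} {β : V →ₗ[k] V'}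
    (hα : Eqv (tw θ χ k) ν' α) (hβ : ∃ φ : V →ₗ[k] V', Trc σ σ' φ = β)
    (hc : ∀ x, D' (α x) = β (fd σ w x)) :
    ∃ s : V →ₗ[k] N', Eqv σ ν' s ∧ (∀ x, α x = s (fd σ w x)) ∧ ∀ u, β u = D' (s u) := by
  obtain ⟨φ, hφ⟩ := hβ
  obtain ⟨β', hβ', hβ''⟩ := trc_lift (σ' := σ) hD' hs φ
  rw [hφ] at hβ''
  have hfd := fd_eqv σ h.ev
  refine ⟨β' + (α - β' ∘ₗ fd σ w) ∘ₗ q, fun g u => ?_, fun x => ?_, fun u => ?_⟩
  · simp only [LinearMap.add_apply, LinearMap.sub_apply, LinearMap.comp_apply]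
    rw [hβ', h.qe, hα, hfd, hβ', map_add, map_sub]
  · simp only [LinearMap.add_apply, LinearMap.sub_apply, LinearMap.comp_apply]
    rw [h.qf, add_sub_cancel]
  · simp only [LinearMap.add_apply, LinearMap.sub_apply, LinearMap.comp_apply]
    rw [map_add, map_sub, hβ'', hc, hβ'', sub_self, add_zero]

/-- MODULE CD. LONG TO LONG. PROOF. `trc_lift`: `β = fd' β'`, `β'` equivariant. `α' = α - β' fd` is equivariant (`fd_eqv`) with `fd' α' = 0`. `α' g = a X₂' g' + b NZ g'` (`h'.ker`), it has the weight `ψ`, `X₂' g'` has the weight `ψ' om'⁻¹ ≠ ψ` (`G'.wt₂`, `h'.wt`), `NZ g'` has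
the weight `ψ'` (`NZ_comm`). `wt_two`: `α' g = c NZ g'`. So `α' (X₂ g) = X₂ (c NZ g') = 0` (`zo_NZ G`, `zo_eqv`), `α' (NZ g) = c NZ (NZ g') = 0` (`NZ_eqv`), so `α'` kills the kernel of `fd σ w` (`h.ker`), and `desc_surj` (FbT/Fx.lean) gives `t : V → N'` equivariant with
`t (fd x) = α' x`. `s = β' + t`; `fd' t (fd x) = fd' α' x = 0`, and `fd σ w` is onto. -/
theorem ll_mid (hE : (Fintype.card E : k) ≠ 0) {G G' : G4 k θ} {g : Fin n × Z → k}
    {g' : Fin n' × Z → k} (h : Lo G σ χ w ψ g) (h' : Lo G' σ' χ' w' ψ' g')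
    (hne : ψ ≠ ψ' * G'.om⁻¹) {α : (Fin n × Z → k) →ₗ[k] (Fin n' × Z → k)} {β : V →ₗ[k] V'}
    (hα : Eqv (tw θ χ k) (tw θ χ' k) α) (hβ : ∃ φ : V →ₗ[k] V', Trc σ σ' φ = β)
    (hc : ∀ x, fd σ' w' (α x) = β (fd σ w x)) :
    ∃ s : V →ₗ[k] (Fin n' × Z → k), Eqv σ (tw θ χ' k) s ∧ (∀ x, α x = s (fd σ w x)) ∧
      ∀ u, β u = fd σ' w' (s u) := by
  obtain ⟨φ, hφ⟩ := hβ
  have hfd := fd_eqv σ h.ev
  have hfd' := fd_eqv σ' h'.ev
  obtain ⟨β', hβ', hβ''⟩ := trc_lift (σ' := σ) hfd' h'.sj φ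
  rw [hφ] at hβ''
  have hα' : Eqv (tw θ χ k) (tw θ χ' k) (α - β' ∘ₗ fd σ w) := fun g u => by
    rw [LinearMap.sub_apply, LinearMap.sub_apply, LinearMap.comp_apply, LinearMap.comp_apply,
      hα, hfd, hβ', map_sub]
  have h0 : ∀ x, fd σ' w' ((α - β' ∘ₗ fd σ w) x) = 0 := fun x => by
    rw [LinearMap.sub_apply, LinearMap.comp_apply, map_sub, hc, hβ'', sub_self]
  obtain ⟨a, b, hab⟩ := h'.ker _ (h0 g)
  have hw1 : ∀ y, tw θ χ' k (.inr y) ((α - β' ∘ₗ fd σ w) g) =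
      ((ψ y : kˣ) : k) • (α - β' ∘ₗ fd σ w) g := fun y => by
    rw [← hα', h.wt, map_smul]
  have hw2 : ∀ y, tw θ χ' k (.inr y) (NZ (tw θ χ' k) g') =
      ((ψ' y : kˣ) : k) • NZ (tw θ χ' k) g' := fun y => by
    rw [← NZ_comm, h'.wt, map_smul]
  rw [hab] at hw1
  obtain ⟨c, hc1⟩ := wt_two hE (fun y => G'.wt₂ h'.wt y) hw2 hne hw1
  rw [← hab] at hc1
  have hk : ∀ x, fd σ w x = 0 → (α - β' ∘ₗ fd σ w) x = 0 := by
    intro x hx
    obtain ⟨a', b', hx'⟩ := h.ker x hx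
    rw [hx', map_add, map_smul, map_smul, zo_eqv hα', NZ_eqv hα', hc1, map_smul, map_smul,
      (zo_NZ G (tw θ χ' k) g').2.1, (zo_NZ G (tw θ χ' k) g').2.2, smul_zero, smul_zero, smul_zero,
      add_zero]
  obtain ⟨t, ht, ht'⟩ := factor_surj hfd h.sj hα' hk
  refine ⟨β' + t, fun g u => ?_, fun x => ?_, fun u => ?_⟩
  · rw [LinearMap.add_apply, LinearMap.add_apply, hβ', ht, map_add]
  · rw [LinearMap.add_apply, ht', LinearMap.sub_apply, LinearMap.comp_apply, add_sub_cancel]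
  · obtain ⟨x, rfl⟩ := h.sj u
    rw [LinearMap.add_apply, map_add, ht', h0, hβ'', add_zero]

/-- MODULE CE. SHORT TO LONG, DEGREE `-1`. PROOF. `x = u v` is in the kernel of `fd'`: `x = a X₂' g' + b NZ g'`, and it is fixed, so `X₁' x = 0` (`G'.fix_iff` for `tw`): `0 = a X₁' X₂' g' + b X₁' NZ g' = a NZ g'`
(`zo_NZ`), `a = 0` (`h'.ne`). So `x = b NZ g'` has the weights `ψ` and `ψ'`, `x = 0` (`wt_zero`). Every element of `V` is `c v + fd y`, and `u fd = 0`. -/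
theorem sl_om {G' : G4 k θ} {g' : Fin n' × Z → k} (h : Sh σ χ w ψ q v)
    (h' : Lo G' σ' χ' w' ψ' g') (hne : ψ ≠ ψ') {u : V →ₗ[k] (Fin n' × Z → k)}
    (hu : Eqv σ (tw θ χ' k) u) (h1 : ∀ x, u (fd σ w x) = 0) (h2 : ∀ x, fd σ' w' (u x) = 0) :
    u = 0 := by
  obtain ⟨a, b, hab⟩ := h'.ker _ (h2 v)
  have hfix : ∀ z : Z, tw θ χ' k (.inl z) (u v) = u v := fun z => by
    rw [← hu, h.fix]
  have h3 := (G'.fix_iff.1 hfix).1
  rw [hab, map_add, map_smul, map_smul, (zo_NZ G' (tw θ χ' k) g').1, smul_zero, add_zero,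
    G'.x₁₂] at h3
  have ha : a = 0 := by
    rcases smul_eq_zero.1 h3 with h4 | h4
    · exact h4
    · exact absurd h4 h'.ne
  rw [ha, zero_smul, zero_add] at hab
  have hw1 : ∀ y, tw θ χ' k (.inr y) (u v) = ((ψ y : kˣ) : k) • u v := fun y => by
    rw [← hu, h.wt, map_smul]
  have hw2 : ∀ y, tw θ χ' k (.inr y) (u v) = ((ψ' y : kˣ) : k) • u v := fun y => by
    rw [hab, map_smul, ← NZ_comm, h'.wt, map_smul, smul_comm]
  have h4 : u v = 0 := wt_zero hw1 hw2 hne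
  refine LinearMap.ext fun x => ?_
  have h5 : x = h.S.pr x + fd σ w (q x) := (sub_add_cancel _ _).symm
  obtain ⟨c, hc⟩ := h.sp (h.S.pr x) (h.S.q_pr x)
  rw [h5, map_add, h1, hc, map_smul, h4, smul_zero, add_zero, LinearMap.zero_apply]

/-- MODULE CE. PROOF. `Trc φ = id` on `N = tw` (`prj_tw`); `Trc (fd φ s) = fd Trc(φ) s = fd s = id` (`comp_trc`, `trc_comp`, `fd_eqv`). -/
theorem fd_not_split (hE : (Fintype.card E : k) ≠ 0)
    (hev : ∀ a y, σ (.inr y) (w a) = ((χ a y : kˣ) : k) • w a) (hnt : ¬ Prj σ)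
    {s : V →ₗ[k] (Fin n × Z → k)} (hs : Eqv σ (tw θ χ k) s) :
    fd σ w ∘ₗ s ≠ LinearMap.id := by
  intro hid
  obtain ⟨φ₀, hφ₀⟩ := prj_tw (θ := θ) hE.isUnit χ k
  have hfd := fd_eqv σ hev
  refine hnt ⟨fd σ w ∘ₗ (φ₀ ∘ₗ s), ?_⟩
  rw [← comp_trc hfd, ← trc_comp hs, hφ₀, LinearMap.id_comp, hid]

end Pair

section Orth

variable {k Z E H : Type} [Field k] [CommGroup Z] [Fintype Z] [CommGroup E] [Fintype E]
  {θ : E →* MulAut Z} [Ring H] [Algebra k H]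

private theorem CF_sub {V : Type} [AddCommGroup V] [Module k V] {G : Type} [Group G]
    {σ : Representation k G V} {β : V →ₗ[k] V} (h : Eqv σ σ β) (c : k) :
    Eqv σ σ (β - c • LinearMap.id) := fun g v => by
  rw [LinearMap.sub_apply, LinearMap.sub_apply, LinearMap.smul_apply, LinearMap.smul_apply,
    LinearMap.id_apply, LinearMap.id_apply, h g v, map_sub, map_smul]


/-- MODULE CF. THE CRITERION. `P i`: the complex `i` is long. PROOF. `nu D K.ρ i (w i)` is `fd (rp K.ρ (Vm D i)) (w i)` and `sr D K.ρ i` is `rp K.ρ (Vm D i)` (`rfl`, or `ext` and `Vm.smul_def`; see the proof of `exists_orth` in FbT/Nn.lean). `fd_eqv`, `cardE_ne K`.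
(om) `i'` short: `fd` is injective; `i'` long and `i` long: `fd σ_i` is onto; `i` short and `i'` long: `sl_om`. (oa) `β` is a trace by `vm_off`; `ss_mid`, `ls_mid`, `sl_mid`, `ll_mid`. (ob) `β = c + Trc φ` by `vm_diag`; apply `ss_mid` or `ll_mid` (for `i` and `i`) to
`α - c`, `β - c`. (oc) `fd_not_split`, `vm_not_prj`. -/
theorem orth_of [FiniteDimensional k H] (K : KD k θ H) (D : WD k H) (Gf : D.I → G4 k θ)
    (m : D.I → ℕ) (χ : ∀ i, Fin (m i) → E →* kˣ) (w : ∀ i, Fin (m i) → Vm D i)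
    (ψ : D.I → E →* kˣ) (P : D.I → Prop)
    (hs : ∀ i, ¬ P i → ∃ q v, Sh (rp (R := k) K.ρ (Vm D i)) (χ i) (w i) (ψ i) q v)
    (hl : ∀ i, P i → ∃ g, Lo (Gf i) (rp (R := k) K.ρ (Vm D i)) (χ i) (w i) (ψ i) g)
    (hsl : ∀ i i', ¬ P i → P i' → ψ i ≠ ψ i')
    (hll : ∀ i i', P i → P i' → ψ i ≠ ψ i' * (Gf i').om⁻¹) : Nonempty (Orth D K.ρ) := by
  have hE := cardE_ne K
  have hev : ∀ i a y, rp (R := k) K.ρ (Vm D i) (.inr y) (w i a) =
      ((χ i a y : kˣ) : k) • w i a := by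
    intro i
    by_cases hi : P i
    · obtain ⟨g, hg⟩ := hl i hi
      exact hg.ev
    · obtain ⟨q, v, hq⟩ := hs i hi
      exact hq.ev
  have hD : ∀ i, Eqv (tw θ (χ i) k) (rp K.ρ (Vm D i)) (fd (rp K.ρ (Vm D i)) (w i)) :=
    fun i => fd_eqv _ (hev i)
  have hmid : ∀ i i', True →
      ∀ (α : (Fin (m i) × Z → k) →ₗ[k] (Fin (m i') × Z → k)) (β : Vm D i →ₗ[k] Vm D i'),
      Eqv (tw θ (χ i) k) (tw θ (χ i') k) α →
      (∃ φ, Trc (rp K.ρ (Vm D i)) (rp K.ρ (Vm D i')) φ = β) →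
      (∀ x, fd (rp K.ρ (Vm D i')) (w i') (α x) = β (fd (rp K.ρ (Vm D i)) (w i) x)) →
      ∃ s : Vm D i →ₗ[k] (Fin (m i') × Z → k), Eqv (rp K.ρ (Vm D i)) (tw θ (χ i') k) s ∧
        (∀ x, α x = s (fd (rp K.ρ (Vm D i)) (w i) x)) ∧
        ∀ u, β u = fd (rp K.ρ (Vm D i')) (w i') (s u) := by
    intro i i' _ α β hα hβ hc
    have hβe : Eqv (rp K.ρ (Vm D i)) (rp K.ρ (Vm D i')) β := by
      obtain ⟨φ, hφ⟩ := hβ
      rw [← hφ]
      exact trc_eqv _ _ _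
    by_cases hi : P i
    · obtain ⟨g, hg⟩ := hl i hi
      by_cases hi' : P i'
      · obtain ⟨g', hg'⟩ := hl i' hi'
        exact ll_mid hE hg hg' (hll i i' hi hi') hα hβ hc
      · obtain ⟨q', v', hq'⟩ := hs i' hi'
        exact ls_mid hg.sj hq' hβe hc
    · obtain ⟨q, v, hq⟩ := hs i hi
      by_cases hi' : P i'
      · obtain ⟨g', hg'⟩ := hl i' hi'
        exact sl_mid hq (hD i') hg'.sj hα hβ hc
      · obtain ⟨q', v', hq'⟩ := hs i' hi'
        exact ss_mid hq hq' hβ hc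
  refine ⟨{ J := fun i => Fin (m i)
            χ := χ
            w := w
            ev := fun i a y => hev i a y
            om := ?_
            oa := ?_
            ob := ?_
            oc := ?_ }⟩
  · intro i i' u hu h1 h2
    let u' : Vm D i →ₗ[k] (Fin (m i') × Z → k) := u
    have h1' : ∀ x, u' (fd (rp K.ρ (Vm D i)) (w i) x) = 0 := fun x => LinearMap.congr_fun h1 x
    have h2' : ∀ v : Vm D i, fd (rp K.ρ (Vm D i')) (w i') (u' v) = 0 :=
      fun v => LinearMap.congr_fun h2 v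
    have hu' : Eqv (rp (R := k) K.ρ (Vm D i)) (tw θ (χ i') k) u' := hu
    have hz : u' = 0 := by
      by_cases hi' : P i'
      · by_cases hi : P i
        · obtain ⟨g, hg⟩ := hl i hi
          refine LinearMap.ext fun v => ?_
          obtain ⟨x, rfl⟩ := hg.sj v
          exact h1' x
        · obtain ⟨q, v, hq⟩ := hs i hi
          obtain ⟨g', hg'⟩ := hl i' hi'
          exact sl_om hq hg' (hsl i i' hi hi') hu' h1' h2'
      · obtain ⟨q', v', hq'⟩ := hs i' hi'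
        refine LinearMap.ext fun v => ?_
        rw [← hq'.qf (u' v), h2', map_zero, LinearMap.zero_apply]
    exact hz
  · intro i i' hne α β hα hβ hcomm
    obtain ⟨u, hu, h1, h2⟩ := hmid i i' trivial α β hα (vm_off K D hne hβ)
      (fun x => LinearMap.congr_fun hcomm x)
    exact ⟨u, hu, LinearMap.ext h1, LinearMap.ext h2⟩
  · intro i α β hα hβ hcomm
    obtain ⟨c, φ, hφ⟩ := vm_diag K D (i := i) (f := β) hβ
    let β' : Vm D i →ₗ[k] Vm D i := β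
    have hφ' : ∀ v : Vm D i, β' v = c • v +
        Trc (rp (R := k) K.ρ (Vm D i)) (rp K.ρ (Vm D i)) φ v :=
      fun v => LinearMap.congr_fun hφ v
    have hcm : ∀ x, fd (rp K.ρ (Vm D i)) (w i) (α x) = β' (fd (rp K.ρ (Vm D i)) (w i) x) :=
      fun x => LinearMap.congr_fun hcomm x
    obtain ⟨u, hu, h1, h2⟩ := hmid i i trivial (α - c • LinearMap.id)
      (Trc (rp (R := k) K.ρ (Vm D i)) (rp K.ρ (Vm D i)) φ) (CF_sub hα c) ⟨φ, rfl⟩
      (fun x => by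
        rw [LinearMap.sub_apply, LinearMap.smul_apply, LinearMap.id_apply, map_sub, map_smul,
          hcm x, hφ', add_sub_cancel_left])
    refine ⟨c, u, hu, LinearMap.ext fun x => ?_, LinearMap.ext fun v => ?_⟩
    · have h := h1 x
      rw [LinearMap.sub_apply, LinearMap.smul_apply, LinearMap.id_apply] at h
      exact (sub_eq_iff_eq_add'.mp h)
    · exact (hφ' v).trans (congrArg (fun t : Vm D i => c • (show Vm D i from v) + t) (h2 v))
  · intro i σ hσ hid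
    exact fd_not_split (σ := rp (R := k) K.ρ (Vm D i)) (w := w i) hE (hev i)
      (vm_not_prj K D i) (s := σ) hσ hid

/-- MODULE CG. BLOCK N FOR THE KLEIN FOUR GROUP, if the core of one simple module has dimension one. PROOF. `S_i : Spt σ_i` (`exists_spt`, `K.hp`.. with `p = 2`: use `Nat.prime_two`, `hch`, `4 = 2 ^ 2`), `Hst σ_i` by `vm_diag`, `¬ Prj σ_i` by `vm_not_prj`, all equivariant maps between different `V_i` are traces by `vm_off`;
`cardE_ne K`. `TS S_(i₀) ψ₀ v₀` (`exists_ts`). For `i ≠ i₀` there is no vector of weight `ψ₀` in the core of `V_i` (`TS.no_wt`), so `cl3` applies. For every `i` there are `m, χ, w, ψ, G'` with EITHER `∃ q v, Sh σ_i χ w ψ q v` (`sh_of_ts`) OR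
`(∃ g, Lo G' σ_i χ w ψ g) ∧ (∃ (S : Spt σ_i) (v), S.q v = 0 ∧ v ≠ 0 ∧ v has weight ψ) ∧ ψ * G'.om⁻¹ = ψ₀ ∧ ψ ≠ ψ₀` (`lo_of_ta`, `TA.ne`, `G.ne`; for `TA G.swap S (ψ₀ * G.om⁻¹)`: `G' = G.swap`, `G.swap.om = G.om⁻¹`). Choose them, `P i` = the second
alternative. `hsl`: if `ψ_i = ψ_i'` then `TS.no_wt` for `V_i` short (`Sh.ts`) and `V_i'` (`i ≠ i'`) gives `v = 0`, a contradiction. `hll`: `ψ_i ≠ ψ₀ = ψ_i' om_i'⁻¹`. `orth_of`. -/
theorem orth_v4 [IsAlgClosed k] [FiniteDimensional k H] (G : G4 k θ) (hch : CharP k 2)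
    (hZ : Fintype.card Z = 4) (K : KD k θ H) (D : WD k H) (i₀ : D.I)
    (h1 : Module.finrank k (Vm D i₀) =
      4 * Module.finrank k (LinearMap.range (NZ (rp (R := k) K.ρ (Vm D i₀)))) + 1) :
    Nonempty (Orth D K.ρ) := by
  have hE := cardE_ne K
  have hcard : Fintype.card Z = 2 ^ 2 := hZ
  have hS : ∀ i, Nonempty (Spt (rp (R := k) K.ρ (Vm D i))) := fun i =>
    exists_spt Nat.prime_two hch hcard hE _
  have hst : ∀ i, Hst (rp (R := k) K.ρ (Vm D i)) := fun i f hf => vm_diag K D hf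
  obtain ⟨S₀⟩ := hS i₀
  obtain ⟨ψ₀, v₀, T₀⟩ := exists_ts Nat.prime_two hch hcard hE S₀ (by
    rw [h1, hZ, mul_comm])
  obtain ⟨y₀, hy₀⟩ := G.ne
  have hn1 : ψ₀ * G.om ≠ ψ₀ := by
    intro h
    have h2 := DFunLike.congr_fun h y₀
    rw [MonoidHom.mul_apply] at h2
    exact hy₀ (mul_eq_left.1 h2)
  have hn2 : ψ₀ * G.om⁻¹ ≠ ψ₀ := by
    intro h
    have h2 := DFunLike.congr_fun h y₀
    rw [MonoidHom.mul_apply, MonoidHom.inv_apply] at h2
    exact hy₀ (inv_eq_one.1 (mul_eq_left.1 h2))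
  have hall : ∀ i, ∃ (m : ℕ) (χ : Fin m → E →* kˣ) (w : Fin m → Vm D i) (ψ : E →* kˣ)
      (G' : G4 k θ), (∃ q v, Sh (rp (R := k) K.ρ (Vm D i)) χ w ψ q v) ∨
        ((∃ g, Lo G' (rp (R := k) K.ρ (Vm D i)) χ w ψ g) ∧
          (∃ (S : Spt (rp (R := k) K.ρ (Vm D i))) (v : Vm D i), S.q v = 0 ∧ v ≠ 0 ∧
            ∀ y, rp (R := k) K.ρ (Vm D i) (.inr y) v = ((ψ y : kˣ) : k) • v) ∧
          ψ * G'.om⁻¹ = ψ₀ ∧ ψ ≠ ψ₀) := by
    intro i
    by_cases hi : i = i₀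
    · subst hi
      exact ⟨_, _, _, ψ₀, G, Or.inl ⟨_, _, sh_of_ts T₀⟩⟩
    · obtain ⟨S⟩ := hS i
      have h0 : ∀ u, S.q u = 0 → (∀ y, rp (R := k) K.ρ (Vm D i) (.inr y) u =
          ((ψ₀ y : kˣ) : k) • u) → u = 0 := fun u hu hut =>
        TS.no_wt G hE T₀ S (fun f hf => vm_off K D (Ne.symm hi) hf)
          (fun f hf => vm_off K D hi hf) hu hut
      rcases cl3 G Nat.prime_two hch hcard hE (hst i) S (vm_not_prj K D i) h0 with
        ⟨v, T⟩ | ⟨v, T⟩ | ⟨v, T⟩ | ⟨v, T⟩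
      · exact ⟨_, _, _, _, G, Or.inl ⟨_, _, sh_of_ts T⟩⟩
      · exact ⟨_, _, _, _, G, Or.inl ⟨_, _, sh_of_ts T⟩⟩
      · refine ⟨_, _, _, _, G, Or.inr ⟨lo_of_ta T, ⟨S, v, T.q, T.ne, T.wt⟩, ?_, hn1⟩⟩
        ext y
        simp
      · refine ⟨_, _, _, _, G.swap, Or.inr ⟨lo_of_ta T, ⟨S, v, T.q, T.ne, T.wt⟩, ?_, hn2⟩⟩
        have h3 : G.swap.om = G.om⁻¹ := rfl
        rw [h3]
        ext y
        simp
  choose m χ w ψ Gf hP using hall
  refine orth_of K D Gf m χ w ψ (fun i =>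
    (∃ g, Lo (Gf i) (rp (R := k) K.ρ (Vm D i)) (χ i) (w i) (ψ i) g) ∧
          (∃ (S : Spt (rp (R := k) K.ρ (Vm D i))) (v : Vm D i), S.q v = 0 ∧ v ≠ 0 ∧
            ∀ y, rp (R := k) K.ρ (Vm D i) (.inr y) v = ((ψ i y : kˣ) : k) • v) ∧
          ψ i * (Gf i).om⁻¹ = ψ₀ ∧ ψ i ≠ ψ₀) (fun i hi => (hP i).resolve_right hi)
    (fun i hi => hi.1) (fun i i' hi hi' => ?_) (fun i i' hi hi' => ?_)
  · intro heq
    have hne : i ≠ i' := fun h => hi (h ▸ hi')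
    obtain ⟨q, v, hq⟩ := (hP i).resolve_right hi
    obtain ⟨-, ⟨S', v', hv', hv0, hvt⟩, -, -⟩ := hi'
    refine hv0 (TS.no_wt G hE hq.ts S' (fun f hf => vm_off K D hne hf)
      (fun f hf => vm_off K D (Ne.symm hne) hf) hv' ?_)
    rw [heq]
    exact hvt
  · rw [hi'.2.2.1]
    exact hi.2.2.2

end Orth

end Pool.Agent.DDV
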