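import Pool.Agent.DDV.Sp
import Pool.Agent.FbT.Bs

/-!
# DDV, part Od: a simple module of odd dimension

The left ideal `H N`, `N = ∑ ρ(z)`: it is `k[E]` (with `Z` acting trivially) plus a relatively projective module over `Z ⋊ E`.
-/

set_option autoImplicit false

namespace Pool.Agent.DDV

open Pool.Agent.Sig Pool.Agent.DD Pool.Agent.FbT

section Even

variable {k H : Type} [Field k] [Ring H] [Algebra k H]

/-- MODULE DA. PROOF. Strong induction on `finrank M`. If `M` is not trivial, `exists_vm_quot` gives `π : M → Vm D i` onto; `finrank M = finrank (ker π) + finrank (Vm D i)` (over `k`: `π.restrictScalars k`, or the submodule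
`LinearMap.ker π` of the `H`-module `M`, which is again such a module), `finrank (ker π) < finrank M`. -/
theorem even_of_all [FiniteDimensional k H] (D : WD k H)
    (h : ∀ i, Even (Module.finrank k (Vm D i))) (M : Type) [AddCommGroup M] [Module k M]
    [Module H M] [IsScalarTower k H M] [FiniteDimensional k M] : Even (Module.finrank k M) := by
  have key : ∀ (n : ℕ) (M : Type) [AddCommGroup M] [Module k M] [Module H M]
      [IsScalarTower k H M] [FiniteDimensional k M], Module.finrank k M = n → Even n := by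
    intro n
    induction n using Nat.strong_induction_on with
    | _ n ih =>
      intro M _ _ _ _ _ hM
      rcases subsingleton_or_nontrivial M with hs | hn
      · rw [← hM, Module.finrank_zero_of_subsingleton]
        exact Even.zero
      · obtain ⟨i, π, hπ⟩ := exists_vm_quot D (M := M)
        have h1 := LinearMap.finrank_range_add_finrank_ker (π.restrictScalars k)
        have h2 : LinearMap.range (π.restrictScalars k) = ⊤ :=
          LinearMap.range_eq_top.2 hπ
        rw [h2, finrank_top] at h1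
        let e : LinearMap.ker (π.restrictScalars k) ≃ₗ[k] LinearMap.ker π :=
          { toFun := fun x => ⟨x.1, x.2⟩
            invFun := fun x => ⟨x.1, x.2⟩
            map_add' := fun x y => rfl
            map_smul' := fun c x => rfl
            left_inv := fun x => rfl
            right_inv := fun x => rfl }
        rw [e.finrank_eq] at h1
        have h3 : Module.finrank k (Vm D i) = D.n i := Module.finrank_fin_fun k
        have h4 := D.pos i
        have : FiniteDimensional k (LinearMap.ker π) := Module.Finite.equiv e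
        have h5 : Even (Module.finrank k (LinearMap.ker π)) :=
          ih _ (by omega) (LinearMap.ker π) rfl
        rw [← hM, ← h1]
        exact (h i).add h5
  exact key _ M rfl

end Even

section Id

variable {k Z E H : Type} [Field k] [CommGroup Z] [Fintype Z] [CommGroup E] [Fintype E]
  {θ : E →* MulAut Z} [Ring H] [Algebra k H] (S : StEq k Z E θ H)

/-- The element `N = ∑ ρ(z)`. -/
noncomputable def Nel : H := ∑ z : Z, S.ρ (.inl z)

/-- The left ideal `H N`. -/
noncomputable def M0 : Submodule H H := LinearMap.range (LinearMap.toSpanSingleton H H (Nel S))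

theorem mem_M0 {x : H} : x ∈ M0 S ↔ ∃ a, a * Nel S = x := Iff.rfl

/-- MODULE DB. -/
theorem Nel_left (z : Z) : S.ρ (.inl z) * Nel S = Nel S := by
  rw [Nel, Finset.mul_sum]
  refine (Finset.sum_congr rfl fun z' _ => ?_).trans
    (Equiv.sum_comp (Equiv.mulLeft z) fun z' => S.ρ (.inl z'))
  rw [← map_mul, ← map_mul, Equiv.coe_mulLeft]

/-- MODULE DB. -/
theorem Nel_right (z : Z) : Nel S * S.ρ (.inl z) = Nel S := by
  rw [Nel, Finset.sum_mul]
  refine (Finset.sum_congr rfl fun z' _ => ?_).trans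
    (Equiv.sum_comp (Equiv.mulRight z) fun z' => S.ρ (.inl z'))
  rw [← map_mul, ← map_mul, Equiv.coe_mulRight]

/-- MODULE DB. PROOF. `g (inl z) g⁻¹ = inl (θ_(g.right) z)` (`Z` is commutative); reindex. -/
theorem Nel_comm (g : Z ⋊[θ] E) : S.ρ g * Nel S = Nel S * S.ρ g := by
  rw [Nel, Finset.mul_sum, Finset.sum_mul]
  refine (Finset.sum_congr rfl fun z' _ => ?_).trans
    (Equiv.sum_comp (θ g.right).toEquiv fun z' => S.ρ (.inl z') * S.ρ g)
  rw [← map_mul, ← map_mul]
  congr 1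
  ext
  · show g.left * θ g.right z' = θ g.right z' * (θ 1) g.left
    rw [map_one, MulAut.one_apply, mul_comm]
  · show g.right * 1 = 1 * g.right
    rw [mul_one, one_mul]

/-- MODULE DB. -/
theorem M0_right {x : H} (hx : x ∈ M0 S) (z : Z) : x * S.ρ (.inl z) = x := by
  obtain ⟨a, rfl⟩ := (mem_M0 S).1 hx
  rw [mul_assoc, Nel_right]

private theorem DB_io (a : H) : MonoidAlgebra.lift k _ _ S.ρ (S.π (a * Nel S)) =
    MonoidAlgebra.lift k _ _ S.ρ (S.π a) * Nel S := by
  rw [Nel, Finset.mul_sum, map_sum, map_sum, Finset.mul_sum]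
  refine Finset.sum_congr rfl fun z _ => ?_
  rw [S.right, map_mul, MonoidAlgebra.lift_of]

/-- MODULE DB. PROOF. `x = a N`, `π (a N) = ∑_z π a * of z` (`S.right`), so `io (π x) = io (π a) N`. -/
theorem io_M0 {x : H} (hx : x ∈ M0 S) : MonoidAlgebra.lift k _ _ S.ρ (S.π x) ∈ M0 S := by
  obtain ⟨a, rfl⟩ := (mem_M0 S).1 hx
  rw [DB_io]
  exact (mem_M0 S).2 ⟨_, rfl⟩

/-- The projection of `H N` onto `io(k[Z ⋊ E]) N`. -/
noncomputable def pi0 : M0 S →ₗ[k] M0 S where
  toFun x := ⟨MonoidAlgebra.lift k _ _ S.ρ (S.π x.1), io_M0 S x.2⟩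
  map_add' x y := Subtype.ext (by
    show MonoidAlgebra.lift k _ _ S.ρ (S.π (x.1 + y.1)) = MonoidAlgebra.lift k _ _ S.ρ (S.π x.1) +
      MonoidAlgebra.lift k _ _ S.ρ (S.π y.1)
    rw [map_add, map_add])
  map_smul' c x := Subtype.ext (by
    show MonoidAlgebra.lift k _ _ S.ρ (S.π (c • x.1)) = c • MonoidAlgebra.lift k _ _ S.ρ (S.π x.1)
    rw [map_smul, map_smul])

theorem pi0_coe (x : M0 S) : (pi0 S x : H) = MonoidAlgebra.lift k _ _ S.ρ (S.π x.1) := rfl

/-- MODULE DC. PROOF. `S.left`. -/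
theorem pi0_eqv : Eqv (rp (R := k) S.ρ (M0 S)) (rp S.ρ (M0 S)) (pi0 S) := by
  intro g v
  apply Subtype.ext
  show MonoidAlgebra.lift k _ _ S.ρ (S.π (S.ρ g * v.1)) =
    S.ρ g * MonoidAlgebra.lift k _ _ S.ρ (S.π v.1)
  rw [S.left, map_mul, MonoidAlgebra.lift_of]

/-- MODULE DC. PROOF. `S.retr`. -/
theorem pi0_pi0 (x : M0 S) : pi0 S (pi0 S x) = pi0 S x := by
  apply Subtype.ext
  rw [pi0_coe, pi0_coe, S.retr]

private theorem DC_comm (x : cAlg k θ) : Nel S * MonoidAlgebra.lift k _ _ S.ρ x =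
    MonoidAlgebra.lift k _ _ S.ρ x * Nel S := by
  induction x using MonoidAlgebra.induction_on with
  | of g => rw [MonoidAlgebra.lift_of, Nel_comm]
  | add x y hx hy => rw [map_add, mul_add, add_mul, hx, hy]
  | smul r x hx => rw [map_smul, mul_smul_comm, smul_mul_assoc, hx]

private theorem DC_NN : Nel S * Nel S = (Fintype.card Z : k) • Nel S := by
  have h1 : ∀ z : Z, S.ρ (.inl z) * Nel S = Nel S := Nel_left S
  show (∑ z : Z, S.ρ (.inl z)) * Nel S = _
  rw [Finset.sum_mul, Finset.sum_congr rfl fun z _ => h1 z, Finset.sum_const, Finset.card_univ,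
    Nat.cast_smul_eq_nsmul]

/-- MODULE DC. PROOF. `x = a N`: `io (π x) = io (π a) N = ∑_g (π a).coeff g • ρ(g) N`, and `N ρ(g) N = ρ(g) N N = |Z| ρ(g) N = 0` (`Nel_comm`, `Nel_left`). -/
theorem pi0_NZ (hZ : (Fintype.card Z : k) = 0) (x : M0 S) :
    NZ (rp (R := k) S.ρ (M0 S)) (pi0 S x) = 0 := by
  apply Subtype.ext
  obtain ⟨a, ha⟩ := (mem_M0 S).1 x.2
  have h1 : ((NZ (rp (R := k) S.ρ (M0 S)) (pi0 S x) : M0 S) : H) =
      Nel S * (pi0 S x : H) := by
    rw [NZ_apply, Nel, Finset.sum_mul, AddSubmonoidClass.coe_finsetSum]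
    rfl
  rw [h1, pi0_coe, ← ha, DB_io, ← mul_assoc, DC_comm, mul_assoc, DC_NN, hZ, zero_smul, mul_zero]
  rfl

/-- MODULE DD. PROOF. The vectors `e_y = ρ(inr y) N ∈ H N`, `y ∈ E`, are a basis of the range: `io (π (a N)) = io (π a) N` is a combination of the `ρ(g) N = ρ(inl z) ρ(inr y) N = ρ(inl z) N ρ(inr y) = ρ(inr y) N`
(`g = inl z * inr y`, `Nel_comm`, `Nel_left`), `pi0 e_y = e_y` (`S.left`, `S.retr` for `N = io (∑ of z)`); linearly independent: `π (∑ c_y ρ(inr y) N) = ∑ c_y of(inr y) ∑_z of(inl z)` (`S.retr`) has the coefficient `c_y` at `inr y` (`inr y' * inl z = inl (θ_y' z) * inr y'`). -/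
theorem pi0_rank : Module.finrank k (LinearMap.range (pi0 S)) = Fintype.card E := by
  classical
  obtain ⟨Φ, hΦ⟩ : ∃ Φ : (E → k) →ₗ[k] H, ∀ c, Φ c =
      (∑ y, c y • S.ρ (.inr y)) * Nel S := by
    refine ⟨(LinearMap.mulRight k (Nel S)) ∘ₗ
      (∑ y : E, (LinearMap.toSpanSingleton k H (S.ρ (.inr y))) ∘ₗ LinearMap.proj y),
      fun c => ?_⟩
    rw [LinearMap.comp_apply, LinearMap.mulRight_apply, LinearMap.sum_apply]
    rfl
  have hN : S.π (Nel S) = ∑ z : Z, MonoidAlgebra.of k (Z ⋊[θ] E) (.inl z) := by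
    have h1 : Nel S = MonoidAlgebra.lift k _ _ S.ρ
        (∑ z : Z, MonoidAlgebra.of k (Z ⋊[θ] E) (.inl z)) := by
      rw [map_sum, Nel]
      exact Finset.sum_congr rfl fun z _ => (MonoidAlgebra.lift_of _ _).symm
    rw [h1, S.retr]
  have hπΦ : ∀ c, S.π (Φ c) = ∑ y, ∑ z : Z,
      MonoidAlgebra.single (SemidirectProduct.inr y * SemidirectProduct.inl z : Z ⋊[θ] E) (c y) := by
    intro c
    rw [hΦ, Finset.sum_mul, map_sum]
    refine Finset.sum_congr rfl fun y _ => ?_
    rw [smul_mul_assoc, map_smul, S.left, hN, Finset.mul_sum, Finset.smul_sum]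
    refine Finset.sum_congr rfl fun z _ => ?_
    rw [← map_mul, MonoidAlgebra.of_apply, MonoidAlgebra.smul_single, smul_eq_mul, mul_one]
  have hinj : Function.Injective Φ := by
    rw [← LinearMap.ker_eq_bot, LinearMap.ker_eq_bot']
    intro c hc
    funext y₀
    have h1 := hπΦ c
    rw [hc, map_zero] at h1
    have h2 := congrArg (fun x => x.coeff (SemidirectProduct.inr y₀ : Z ⋊[θ] E)) h1
    simp only [MonoidAlgebra.coeff_sum, MonoidAlgebra.coeff_zero, Finsupp.coe_zero, Pi.zero_apply,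
      Finsupp.coe_finsetSum, Finset.sum_apply, MonoidAlgebra.coeff_single] at h2
    rw [Finset.sum_eq_single y₀, Finset.sum_eq_single 1] at h2
    · rw [map_one, mul_one, Finsupp.single_eq_same] at h2
      exact h2.symm
    · intro z _ hz
      rw [Finsupp.single_eq_of_ne]
      intro h
      apply hz
      have h3 := congrArg SemidirectProduct.left h
      simpa using h3.symm
    · intro h; exact absurd (Finset.mem_univ _) h
    · intro y _ hy
      refine Finset.sum_eq_zero fun z _ => ?_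
      rw [Finsupp.single_eq_of_ne]
      intro h
      apply hy
      have h3 := congrArg SemidirectProduct.right h
      simpa using h3.symm
    · intro h; exact absurd (Finset.mem_univ _) h
  have hio : ∀ x : cAlg k θ, ∃ c, Φ c = MonoidAlgebra.lift k _ _ S.ρ x * Nel S := by
    intro x
    induction x using MonoidAlgebra.induction_on with
    | of g =>
      refine ⟨Pi.single g.right 1, ?_⟩
      rw [hΦ, MonoidAlgebra.lift_of, Finset.sum_eq_single g.right]
      · rw [Pi.single_eq_same, one_smul]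
        conv_rhs => rw [← SemidirectProduct.inl_left_mul_inr_right g, map_mul, mul_assoc,
          Nel_comm, ← mul_assoc, Nel_left]
        rw [Nel_comm]
      · intro y _ hy
        rw [Pi.single_eq_of_ne hy, zero_smul]
      · intro h; exact absurd (Finset.mem_univ _) h
    | add x y hx hy =>
      obtain ⟨c, hc⟩ := hx
      obtain ⟨d, hd⟩ := hy
      exact ⟨c + d, by rw [map_add, hc, hd, map_add, add_mul]⟩
    | smul r x hx =>
      obtain ⟨c, hc⟩ := hx
      exact ⟨r • c, by rw [map_smul, hc, map_smul, smul_mul_assoc]⟩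
  let sub : M0 S →ₗ[k] H := (M0 S).subtype.restrictScalars k
  have hsub : Function.Injective sub := Subtype.val_injective
  have hr : (LinearMap.range (pi0 S)).map sub = LinearMap.range Φ := by
    apply le_antisymm
    · rintro _ ⟨_, ⟨x, rfl⟩, rfl⟩
      obtain ⟨a, ha⟩ := (mem_M0 S).1 x.2
      obtain ⟨c, hc⟩ := hio (S.π a)
      refine ⟨c, ?_⟩
      show _ = (pi0 S x : H)
      rw [hc, pi0_coe, ← ha, DB_io]
    · rintro _ ⟨c, rfl⟩
      have hm : Φ c ∈ M0 S := (mem_M0 S).2 ⟨_, (hΦ c).symm⟩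
      refine ⟨pi0 S ⟨Φ c, hm⟩, ⟨_, rfl⟩, ?_⟩
      show (pi0 S ⟨Φ c, hm⟩ : H) = Φ c
      rw [pi0_coe]
      show MonoidAlgebra.lift k _ _ S.ρ (S.π (Φ c)) = Φ c
      rw [hΦ, DB_io]
      congr 1
      rw [map_sum, map_sum]
      refine Finset.sum_congr rfl fun y _ => ?_
      rw [map_smul, map_smul]
      congr 1
      have h1 := S.retr (MonoidAlgebra.of k _ (.inr y))
      rw [MonoidAlgebra.lift_of] at h1
      rw [h1, MonoidAlgebra.lift_of]
  have h1 : Module.finrank k (LinearMap.range (pi0 S)) =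
      Module.finrank k ((LinearMap.range (pi0 S)).map sub) :=
    (LinearEquiv.finrank_eq (Submodule.equivMapOfInjective sub hsub _))
  rw [h1, hr, LinearMap.finrank_range_of_inj hinj, Module.finrank_fintype_fun_eq_card]

/-- MODULE DE. PROOF. `φ x = |E|⁻¹ • (h(x) N)` (`h(x) N ∈ H N`). For `x ∈ H N`: `x ρ(w) = x` (`M0_right`), so `S.proj` reads `x - io (π x) = ∑_u ρ(u) h(ρ(u⁻¹) x) ∑_w ρ(w⁻¹) = ∑_u ρ(u) (h(ρ(u⁻¹) x) N)`. The trace over `Z ⋊ E`, `g = inr y * inl u`
(reindex by `E × Z`): `∑_y ρ(y) |E|⁻¹ (1 - pi0) (ρ(y⁻¹) x) = (1 - pi0) x` (`pi0_eqv`). -/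
theorem pi0_trc (hE : (Fintype.card E : k) ≠ 0) : ∃ φ : M0 S →ₗ[k] M0 S,
    Trc (rp (R := k) S.ρ (M0 S)) (rp S.ρ (M0 S)) φ = LinearMap.id - pi0 S := by
  have hm : ∀ x : M0 S, (Fintype.card E : k)⁻¹ • (S.h x.1 * Nel S) ∈ M0 S := fun x =>
    (mem_M0 S).2 ⟨(Fintype.card E : k)⁻¹ • S.h x.1, by rw [smul_mul_assoc]⟩
  let φ : M0 S →ₗ[k] M0 S :=
    { toFun := fun x => ⟨(Fintype.card E : k)⁻¹ • (S.h x.1 * Nel S), hm x⟩
      map_add' := fun x y => Subtype.ext (by
        show (Fintype.card E : k)⁻¹ • (S.h (x.1 + y.1) * Nel S) =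
          (Fintype.card E : k)⁻¹ • (S.h x.1 * Nel S) + (Fintype.card E : k)⁻¹ • (S.h y.1 * Nel S)
        rw [map_add, add_mul, smul_add])
      map_smul' := fun c x => Subtype.ext (by
        show (Fintype.card E : k)⁻¹ • (S.h (c • x.1) * Nel S) =
          c • ((Fintype.card E : k)⁻¹ • (S.h x.1 * Nel S))
        rw [map_smul, smul_mul_assoc, smul_comm]) }
  have hφ : ∀ x : M0 S, (φ x : H) = (Fintype.card E : k)⁻¹ • (S.h x.1 * Nel S) := fun x => rfl
  have hrp : ∀ g (x : M0 S), ((rp (R := k) S.ρ (M0 S) g x : M0 S) : H) = S.ρ g * x.1 :=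
    fun g x => rfl
  have hin : ∀ x : M0 S, ∑ u : Z, S.ρ (.inl u) * (S.h (S.ρ (.inl u⁻¹) * x.1) * Nel S) =
      x.1 - (pi0 S x : H) := by
    intro x
    rw [pi0_coe, S.proj]
    refine Finset.sum_congr rfl fun u _ => ?_
    have h1 : Nel S = ∑ w : Z, S.ρ (.inl w⁻¹) :=
      (Equiv.sum_comp (Equiv.inv Z) fun w => S.ρ (.inl w)).symm
    rw [h1, Finset.mul_sum, Finset.mul_sum]
    refine Finset.sum_congr rfl fun w _ => ?_
    rw [mul_assoc (S.ρ (.inl u⁻¹)) x.1, M0_right S x.2, mul_assoc (S.ρ (.inl u))]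
  refine ⟨φ, LinearMap.ext fun x => Subtype.ext ?_⟩
  have h1 : ((Trc (rp (R := k) S.ρ (M0 S)) (rp S.ρ (M0 S)) φ x : M0 S) : H) =
      ∑ g : Z ⋊[θ] E, S.ρ g * ((Fintype.card E : k)⁻¹ • (S.h (S.ρ g⁻¹ * x.1) * Nel S)) := by
    rw [Trc, LinearMap.sum_apply, AddSubmonoidClass.coe_finsetSum]
    rfl
  have h2 : ∑ g : Z ⋊[θ] E, S.ρ g * ((Fintype.card E : k)⁻¹ • (S.h (S.ρ g⁻¹ * x.1) * Nel S)) =
      ∑ p : E × Z, S.ρ (.inr p.1 * .inl p.2) * ((Fintype.card E : k)⁻¹ •
        (S.h (S.ρ (.inr p.1 * .inl p.2)⁻¹ * x.1) * Nel S)) := by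
    refine (Function.Bijective.sum_comp (e := fun p : E × Z =>
      (SemidirectProduct.inr p.1 * SemidirectProduct.inl p.2 : Z ⋊[θ] E)) ⟨?_, ?_⟩ _).symm
    · rintro ⟨y, z⟩ ⟨y', z'⟩ h
      have h3 := congrArg SemidirectProduct.right h
      have h4 := congrArg SemidirectProduct.left h
      simp at h3 h4
      subst h3
      simpa using h4
    · intro g
      refine ⟨(g.right, (θ g.right).symm g.left), ?_⟩
      ext <;> simp
  have h3 : ∀ y : E, ∑ z : Z, S.ρ (.inr y * .inl z) * ((Fintype.card E : k)⁻¹ •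
        (S.h (S.ρ (.inr y * .inl z)⁻¹ * x.1) * Nel S)) =
      (Fintype.card E : k)⁻¹ • (x.1 - (pi0 S x : H)) := by
    intro y
    have h4 := hin (rp (R := k) S.ρ (M0 S) (.inr y⁻¹) x)
    have h5 : ∑ z : Z, S.ρ (.inr y * .inl z) * ((Fintype.card E : k)⁻¹ •
        (S.h (S.ρ (.inr y * .inl z)⁻¹ * x.1) * Nel S)) = (Fintype.card E : k)⁻¹ •
        (S.ρ (.inr y) * ∑ u : Z, S.ρ (.inl u) *
          (S.h (S.ρ (.inl u⁻¹) * (rp (R := k) S.ρ (M0 S) (.inr y⁻¹) x).1) * Nel S)) := by
      rw [Finset.mul_sum, Finset.smul_sum]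
      refine Finset.sum_congr rfl fun z _ => ?_
      rw [hrp, mul_smul_comm, mul_inv_rev, map_mul S.ρ, map_mul S.ρ, ← map_inv, ← map_inv,
        mul_assoc (S.ρ (.inr y)), mul_assoc (S.ρ (.inl z⁻¹))]
    rw [h5, h4, pi0_eqv, hrp, mul_sub, ← mul_assoc, ← map_mul, ← map_mul, mul_inv_cancel, map_one,
      map_one, one_mul, hrp, ← mul_assoc, ← map_mul, ← map_mul, mul_inv_cancel, map_one, map_one,
      one_mul]
  rw [h1, h2, Fintype.sum_prod_type, Finset.sum_congr rfl fun y _ => h3 y, Finset.sum_const,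
    Finset.card_univ, ← Nat.cast_smul_eq_nsmul k, smul_smul, mul_inv_cancel₀ hE, one_smul]
  rfl

end Id

section Odd

variable {k Z E H : Type} [Field k] [CommGroup Z] [Fintype Z] [CommGroup E] [Fintype E]
  {θ : E →* MulAut Z} [Ring H] [Algebra k H]

/-- MODULE DF. A SIMPLE MODULE OF ODD DIMENSION. PROOF. Otherwise `even_of_all` for `M = M0 K.toStEq`. With `S` from `exists_spt` for `σ = rp K.ρ (M0 K.toStEq)` (`Nat.prime_two`, `4 = 2 ^ 2`, `|E| = 3 ≠ 0` in `k`): `finrank M = 4 S.n + finrank (ker S.q)`,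
`finrank (ker S.q) = finrank (range pi0) = 3` (`Spt.finrank_ker`, `pi0_eqv`, `pi0_pi0`, `pi0_NZ`, `pi0_trc`, `pi0_rank`). -/
theorem exists_odd [IsAlgClosed k] [FiniteDimensional k H] (K : KD k θ H) (hch : CharP k 2)
    (hZ : Fintype.card Z = 4) (hE : Fintype.card E = 3) (D : WD k H) :
    ∃ i : D.I, Odd (Module.finrank k (Vm D i)) := by
  by_contra hcon
  push Not at hcon
  have hall : ∀ i, Even (Module.finrank k (Vm D i)) := fun i => Nat.not_odd_iff_even.1 (hcon i)
  have h4 : Fintype.card Z = 2 ^ 2 := hZ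
  have hE3 : (Fintype.card E : k) ≠ 0 := by
    rw [hE]
    intro h
    have h5 := (CharP.cast_eq_zero_iff k 2 3).1 h
    omega
  have hZ0 : (Fintype.card Z : k) = 0 := by
    rw [hZ]
    exact (CharP.cast_eq_zero_iff k 2 4).2 (by norm_num)
  have : FiniteDimensional k (M0 K.toStEq) :=
    Module.Finite.of_injective ((M0 K.toStEq).subtype.restrictScalars k) Subtype.val_injective
  have h6 := even_of_all D hall (M0 K.toStEq)
  obtain ⟨S⟩ := exists_spt Nat.prime_two hch h4 hE3 (rp (R := k) K.ρ (M0 K.toStEq))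
  have h7 := S.finrank_eq
  have h8 := S.finrank_ker Nat.prime_two hch h4 hE3 (pi0_eqv K.toStEq) (pi0_pi0 K.toStEq)
    (pi0_NZ K.toStEq hZ0) (pi0_trc K.toStEq hE3)
  rw [h8, pi0_rank, hE, hZ] at h7
  rw [h7] at h6
  obtain ⟨r, hr⟩ := h6
  omega

end Odd

end Pool.Agent.DDV
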