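import Pool.Agent.DDV.Cr
import Pool.Agent.DDV.Od
import Pool.Agent.FbT.Tt
import Pool.Agent.DD.SB
import Pool.Agent.DD.Tb

/-!
# DDV, part Fn: the hypothesis `PkgHyp` for the Klein four group with `E` of order three
-/

set_option autoImplicit false

namespace Pool.Agent.DDV

open Pool.Agent.Sig Pool.Agent.DD Pool.Agent.FbT

open scoped Matrix

/-- The dual of a matrix representation. -/
def dualM {R G : Type} [CommRing R] [Group G] {m : ℕ} (r : G →* Matrix (Fin m) (Fin m) R) :
    G →* Matrix (Fin m) (Fin m) R where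
  toFun g := (r g⁻¹)ᵀ
  map_one' := by rw [inv_one, map_one, Matrix.transpose_one]
  map_mul' g h := by rw [mul_inv_rev, map_mul, Matrix.transpose_mul]

theorem dualM_apply {R G : Type} [CommRing R] [Group G] {m : ℕ}
    (r : G →* Matrix (Fin m) (Fin m) R) (g : G) : dualM r g = (r g⁻¹)ᵀ := rfl

section

variable {k : Type} [Field k] {Z E : Type} [CommGroup Z] [Fintype Z] [CommGroup E] [Fintype E]
  {θ : E →* MulAut Z} {R A H : Type} [CommRing R] [Ring A] [Algebra R A] [Ring H] [Algebra k H]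

theorem exists_tt' [IsAlgClosed k] [FiniteDimensional k H] (Q : Pkg k θ R A H) (D : WD k H)
    (O : Orth D Q.K.ρ) : Nonempty (TT (MonoidAlgebra R (Z ⋊[θ] E)) A) := by
  obtain ⟨Φ₀, h1, h2⟩ := exists_k Q.K D O
  obtain ⟨L⟩ := exists_lfam Φ₀
  exact tt_of_ex0 Q L.Φ (lift_ex L h1 h2)

/-- MODULE MA. The fibre of a package is finite dimensional: the images of generators of the `R`-module `A` generate `H` (`Q.rds`, `Q.rdl`). -/
theorem pkg_fd (Q : Pkg k θ R A H) : FiniteDimensional k H := by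
  classical
  obtain ⟨S, hS⟩ := Module.finite_def.1 Q.fin
  refine Module.finite_def.2 ⟨S.image Q.rd, ?_⟩
  rw [eq_top_iff]
  rintro x -
  obtain ⟨a, rfl⟩ := Q.rds x
  have ha : a ∈ Submodule.span R (S : Set A) := by
    rw [hS]
    exact Submodule.mem_top
  induction ha using Submodule.span_induction with
  | mem x hx =>
    refine Submodule.subset_span ?_
    rw [Finset.coe_image]
    exact ⟨x, hx, rfl⟩
  | zero =>
    rw [map_zero]
    exact zero_mem _
  | add x y _ _ h1 h2 =>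
    rw [map_add]
    exact add_mem h1 h2
  | smul r x _ h =>
    rw [Q.rdl]
    exact Submodule.smul_mem _ _ h

/-- MODULE MA. ONE TWIST. PROOF. `exists_twP`: `Q'`; `MLft Q'.rd` by `mlft_mat`; `exists_twV` (`Q'.K.ρ = twr T.r Q.K.ρ`): `D'`, `i'`, `e`; `finrank (Fin m → V) = m finrank V`; `finrank_NZ_equiv`. -/
theorem step (Q : Pkg k θ R A H) (hl : MLft Q.rd) {m : ℕ} (T : TwK k θ m)
    (r : (Z ⋊[θ] E) →* Matrix (Fin m) (Fin m) R) (hr : ∀ g, (r g).map Q.res = T.r g)
    (D : WD k H) (i : D.I) :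
    ∃ (Q' : Pkg k θ R (Matrix (Fin m) (Fin m) A) (Matrix (Fin m) (Fin m) H))
      (D' : WD k (Matrix (Fin m) (Fin m) H)) (i' : D'.I), MLft Q'.rd ∧
      Module.finrank k (Vm D' i') = m * Module.finrank k (Vm D i) ∧
      Module.finrank k (LinearMap.range (NZ (rp (R := k) Q'.K.ρ (Vm D' i')))) =
        Module.finrank k (LinearMap.range (NZ (twR T.r (rp (R := k) Q.K.ρ (Vm D i))))) := by
  obtain ⟨Q', h1, h2, h3⟩ := exists_twP Q hl T r hr
  obtain ⟨D', i', e, he⟩ := exists_twV Q.K T Q'.K h1 D i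
  refine ⟨Q', D', i', ?_, ?_, ?_⟩
  · rw [h2]
    exact mlft_mat hl m
  · rw [e.finrank_eq, Module.finrank_pi_fintype, Finset.sum_const, Finset.card_univ,
      Fintype.card_fin, smul_eq_mul]
  · exact finrank_NZ_equiv e he

/-- MODULE MB. PROOF. `S` from `exists_spt` (`p = 2`), `S.ker_ne` (`vm_not_prj`), `S.finrank_eq`, `S.finrank_NZ`; the finrank of `ker q ≠ ⊥` is positive. -/
theorem four_lt [IsAlgClosed k] [FiniteDimensional k H] (K : KD k θ H) (hch : CharP k 2)
    (hZ : Fintype.card Z = 4) (D : WD k H) (i : D.I) :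
    4 * Module.finrank k (LinearMap.range (NZ (rp (R := k) K.ρ (Vm D i)))) <
      Module.finrank k (Vm D i) := by
  obtain ⟨S⟩ := exists_spt (n := 2) Nat.prime_two hch (by rw [hZ]; norm_num) (cardE_ne K)
    (rp (R := k) K.ρ (Vm D i))
  have h1 := S.ker_ne (cardE_ne K) (vm_not_prj K D i)
  have h2 := S.finrank_eq
  have h3 := S.finrank_NZ
  have h4 : 0 < Module.finrank k (LinearMap.ker S.q) := by
    have : Nontrivial (LinearMap.ker S.q) := Submodule.nontrivial_iff_ne_bot.2 h1
    exact Module.finrank_pos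
  rw [h3, h2, hZ]
  omega

/-- MODULE MB. THE RECURSION. PROOF. Strong induction on `d`. `n = finrank (Vm D i)`, `N = finrank (range NZ)`, `4 N < n` (`four_lt`, `pkg_fd`). If `n = 4 N + 1`: `orth_v4`, `exists_tt'`, `TT.dbEquiv` (DD/Tb.lean). If not: `key_dec` for `σ = rp Q.K.ρ (Vm D i)` (`Hst σ` is `vm_diag`; `cardE_ne`).
`e : Fin 3 ≃ {z : Z // z ≠ 1}` (cardinality; `DecidableEq Z` classical). Second alternative (`2 n + 4 N < 4 dR`): `T` from `exists_omT`, `r = om R θ e` (`om_map`), `step`, `rank_om`: `n' = 3 n`, `N' = dR`, so `n' ≤ 4 N' + d'` with `d' = 3 n - 4 dR < d`. First alternative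
(`4 dF + 4 N < 2 n`): `T'` from `exists_dual T`, `r = dualM (om R θ e)`, `rank_omd`: `N' + dF = n`, `n' = 3 n`, `d' = 3 n - 4 N' < d`. `n'` is odd. The induction hypothesis for `Q'` gives `DbEquiv (Matrix .. A) R[Z ⋊ E]`; `DbEquiv.matrix A : DbEquiv A (Matrix ι ι A)` and
`DbEquiv.trans` (UBlocks/Derived.lean). -/
theorem main_rec [IsAlgClosed k] (G : G4 k θ) (hch : CharP k 2) (hZ : Fintype.card Z = 4)
    (R : Type) [CommRing R] (d : ℕ) : ∀ (A H : Type) [Ring A] [Algebra R A] [Ring H]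
    [Algebra k H] (Q : Pkg k θ R A H), MLft Q.rd → ∀ (D : WD k H) (i : D.I),
    Odd (Module.finrank k (Vm D i)) → Module.finrank k (Vm D i) ≤
      4 * Module.finrank k (LinearMap.range (NZ (rp (R := k) Q.K.ρ (Vm D i)))) + d →
    Pool.Agent.UBlocks.DbEquiv A (MonoidAlgebra R (Z ⋊[θ] E)) := by
  induction d using Nat.strong_induction_on with
  | _ d ih =>
  intro A H _ _ _ _ Q hl D i hodd hle
  classical
  have fH : FiniteDimensional k H := pkg_fd Q
  have h4 := four_lt Q.K hch hZ D i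
  by_cases h1 : Module.finrank k (Vm D i) =
      4 * Module.finrank k (LinearMap.range (NZ (rp (R := k) Q.K.ρ (Vm D i)))) + 1
  · obtain ⟨O⟩ := orth_v4 G hch hZ Q.K D i h1
    obtain ⟨T⟩ := exists_tt' Q D O
    exact T.dbEquiv
  · have hE := cardE_ne Q.K
    have hst : Hst (rp (R := k) Q.K.ρ (Vm D i)) := fun f hf => vm_diag Q.K D hf
    have hc3 : Fintype.card {z : Z // z ≠ 1} = 3 := by
      rw [Fintype.card_subtype_compl, hZ, Fintype.card_unique]
    have e : Fin 3 ≃ {z : Z // z ≠ 1} := (Fintype.equivFinOfCardEq hc3).symm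
    have hcard : (Fintype.card Z : k) = 0 := by
      rw [hZ, CharP.cast_eq_zero_iff k 2]
      decide
    obtain ⟨T, hT⟩ := exists_omT (θ := θ) e hcard
    rcases key_dec G hch hZ hE hst hodd h1 with h | h
    · obtain ⟨T', hT'⟩ := exists_dual T
      have hr : ∀ g, (dualM (om R θ e) g).map Q.res = T'.r g := by
        intro g
        rw [hT', hT, dualM_apply, Matrix.transpose_map, om_map]
      obtain ⟨Q', D', i', hl', hn', hN'⟩ := step Q hl T' (dualM (om R θ e)) hr D i
      have hr' := rank_omd (by norm_num) e (rp (R := k) Q.K.ρ (Vm D i)) (r := T'.r)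
        (fun g => by rw [hT', hT])
      rw [← hN'] at hr'
      have hodd' : Odd (Module.finrank k (Vm D' i')) := by
        rw [hn']
        exact Odd.mul (by decide) hodd
      have := ih (Module.finrank k (Vm D' i') -
        4 * Module.finrank k (LinearMap.range (NZ (rp (R := k) Q'.K.ρ (Vm D' i')))))
        (by rw [hn']; omega) _ _ Q' hl' D' i' hodd' (by omega)
      exact (Pool.Agent.UBlocks.DbEquiv.matrix (ι := Fin 3) A).trans this
    · have hr : ∀ g, (om R θ e g).map Q.res = T.r g := by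
        intro g
        rw [hT, om_map]
      obtain ⟨Q', D', i', hl', hn', hN'⟩ := step Q hl T (om R θ e) hr D i
      have hr' := rank_om (by norm_num) e (rp (R := k) Q.K.ρ (Vm D i)) (r := T.r) hT
      rw [← hN'] at hr'
      have hodd' : Odd (Module.finrank k (Vm D' i')) := by
        rw [hn']
        exact Odd.mul (by decide) hodd
      have := ih (Module.finrank k (Vm D' i') -
        4 * Module.finrank k (LinearMap.range (NZ (rp (R := k) Q'.K.ρ (Vm D' i')))))
        (by rw [hn']; omega) _ _ Q' hl' D' i' hodd' (by omega)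
      exact (Pool.Agent.UBlocks.DbEquiv.matrix (ι := Fin 3) A).trans this

end

/-- MODULE MC. THE KLEIN FOUR GROUP. PROOF. `4 = Q.K.p ^ (Q.K.r + 1)`, so `Q.K.p = 2` and `CharP k 2`. `exists_g4` (`Q.K.free`), `pkg_fd`, `exists_wd`, `exists_odd`, `main_rec` with `d = finrank (Vm D i)`; `MLift` and `MLft` are the same statement. -/
theorem pkgHyp_v4 {k : Type} [Field k] [IsAlgClosed k] {Z E : Type} [CommGroup Z] [Fintype Z]
    [CommGroup E] [Fintype E] {θ : E →* MulAut Z} (hZ : Fintype.card Z = 4)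
    (hE : Fintype.card E = 3) : PkgHyp k θ := by
  intro R 𝓐 H _ _ _ _ _ Q hl
  have h2 : Q.K.p = 2 := by
    have h0 := Q.K.card
    rw [hZ] at h0
    have h1 : Q.K.p ∣ 2 ^ 2 := by
      have h3 : Q.K.p ∣ Q.K.p ^ (Q.K.r + 1) := dvd_pow_self _ (Nat.succ_ne_zero _)
      rw [← h0] at h3
      exact h3
    exact (Nat.prime_dvd_prime_iff_eq Q.K.hp Nat.prime_two).1 (Q.K.hp.dvd_of_dvd_pow h1)
  have hch : CharP k 2 := h2 ▸ Q.K.ch
  obtain ⟨G⟩ := exists_g4 hch hZ hE Q.K.free
  have fH := pkg_fd Q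
  obtain ⟨D⟩ := exists_wd (k := k) (C := H)
  obtain ⟨i, hi⟩ := exists_odd Q.K hch hZ hE D
  exact main_rec G hch hZ R (Module.finrank k (Vm D i)) 𝓐 H Q hl D i hi (Nat.le_add_left _ _)

end Pool.Agent.DDV
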