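import Pool.Agent.DDV.Kf

/-!
# DDV, part Kc: the classification of the cores `ker q`

Everywhere `σ` is a representation of `Z ⋊ E` on `V` with a splitting `S : Spt σ` (file Sp), `G : G4 k θ` (file Kf),
`X₁ = zo σ G.c₁`, `X₂ = zo σ G.c₂`.
-/

set_option autoImplicit false

namespace Pool.Agent.DDV

open Pool.Agent.Sig Pool.Agent.DD Pool.Agent.FbT

section Defs

variable {k Z E V : Type} [Field k] [CommGroup Z] [Fintype Z] [CommGroup E] [Fintype E]
  {θ : E →* MulAut Z} [AddCommGroup V] [Module k V] {σ : Representation k (Z ⋊[θ] E) V}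

/-- The core is spanned by a fixed vector of weight `ψ`. -/
structure TS (S : Spt σ) (ψ : E →* kˣ) (v : V) : Prop where
  q : S.q v = 0
  ne : v ≠ 0
  wt : ∀ y, σ (.inr y) v = ((ψ y : kˣ) : k) • v
  fix : ∀ z : Z, σ (.inl z) v = v
  sp : ∀ u, S.q u = 0 → ∃ c : k, u = c • v

/-- The core is spanned by `v` and `X₁ v ≠ 0`; `X₂ v = 0`, `v` is of weight `ψ`. -/
structure TA (G : G4 k θ) (S : Spt σ) (ψ : E →* kˣ) (v : V) : Prop where
  q : S.q v = 0
  wt : ∀ y, σ (.inr y) v = ((ψ y : kˣ) : k) • v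
  x₂ : zo σ G.c₂ v = 0
  x₁ : zo σ G.c₁ v ≠ 0
  sp : ∀ u, S.q u = 0 → ∃ a b : k, u = a • v + b • zo σ G.c₁ v

/-- MODULE KA. THE CORE OF DIMENSION ONE. PROOF. `finrank (ker q) = 1` (`S.finrank_eq`, `S.finrank_NZ`). `exists_fix` for `U = ker q` (stable: `S.q_stab`) gives a
fixed `v ≠ 0` in `ker q`, which spans `ker q`; so for every `y` the vector `σ(inr y) v ∈ ker q` is a multiple of `v`, and the character `ψ`: by `weight_outside` (`τ = σ ∘ inr`,
`U = ker q`, `K = ⊥`) there is a weight vector `w ≠ 0` in `ker q`, `w = c v` with `c ≠ 0`; take `v := w` (it is fixed as well). -/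
theorem exists_ts [IsAlgClosed k] {p r : ℕ} (hp : p.Prime) (hch : CharP k p)
    (hcard : Fintype.card Z = p ^ r) (hE : (Fintype.card E : k) ≠ 0) [FiniteDimensional k V]
    (S : Spt σ) (h1 : Module.finrank k V =
      Module.finrank k (LinearMap.range (NZ σ)) * Fintype.card Z + 1) :
    ∃ (ψ : E →* kˣ) (v : V), TS S ψ v := by
  have hd : Module.finrank k (LinearMap.ker S.q) = 1 := by
    have h2 := S.finrank_eq
    rw [S.finrank_NZ] at h1
    omega
  have hU0 : LinearMap.ker S.q ≠ ⊥ := by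
    intro h
    rw [h, finrank_bot] at hd
    omega
  obtain ⟨v, hv, hv0, hfix⟩ := exists_fix hp hch hcard σ (U := LinearMap.ker S.q)
    (fun z v hv => LinearMap.mem_ker.2 (S.q_stab _ (LinearMap.mem_ker.1 hv))) hU0
  obtain ⟨w, hw, hw0, χ, hχ⟩ := weight_outside hE
    (MonoidHom.comp σ (SemidirectProduct.inr : E →* Z ⋊[θ] E)) (U := LinearMap.ker S.q) (K := ⊥)
    (fun y v hv => LinearMap.mem_ker.2 (S.q_stab _ (LinearMap.mem_ker.1 hv)))
    (fun h => hU0 (le_bot_iff.1 h))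
  have hw1 : w ≠ 0 := fun h => hw0 (by rw [h]; exact Submodule.zero_mem _)
  have hsp : ∀ (a : V), a ≠ 0 → S.q a = 0 → ∀ u, S.q u = 0 → ∃ c : k, u = c • a := by
    intro a ha hqa u hu
    have h3 := (finrank_eq_one_iff_of_nonzero' (⟨a, LinearMap.mem_ker.2 hqa⟩ : LinearMap.ker S.q)
      (fun h => ha (congrArg Subtype.val h))).1 hd ⟨u, LinearMap.mem_ker.2 hu⟩
    obtain ⟨c, hc⟩ := h3
    exact ⟨c, (congrArg Subtype.val hc).symm⟩
  have hqw : S.q w = 0 := LinearMap.mem_ker.1 hw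
  refine ⟨χ, w, hqw, hw1, hχ, ?_, hsp w hw1 hqw⟩
  obtain ⟨c, hc⟩ := hsp v hv0 (LinearMap.mem_ker.1 hv) w hqw
  intro z
  rw [hc, map_smul, hfix]

/-- MODULE KB. THE COORDINATE. PROOF. `S.pr u ∈ ker q` is a multiple `c u • v`, `c` is linear as `v ≠ 0` (or: a linear `f` with `f v = 1`, `c = f ∘ S.pr`). The second statement from `S.pr_eqv`,
`σ g v = ψ(g.right) v` (`g = inl g.left * inr g.right`), `v ≠ 0`. The third: `S.pr_of_q`. The fourth: `S.pr_fd`. -/
theorem TS.coord {S : Spt σ} {ψ : E →* kˣ} {v : V} (T : TS S ψ v) :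
    ∃ c : V →ₗ[k] k, (∀ u, S.pr u = c u • v) ∧
      (∀ g u, c (σ g u) = ((ψ g.right : kˣ) : k) * c u) ∧ c v = 1 ∧ ∀ x, c (fd σ S.w x) = 0 := by
  have hinj : LinearMap.ker (LinearMap.toSpanSingleton k V v) = ⊥ :=
    LinearMap.ker_toSpanSingleton k T.ne
  obtain ⟨g, hg⟩ := LinearMap.exists_leftInverse_of_injective _ hinj
  have hgv : g v = 1 := by
    have h := LinearMap.congr_fun hg 1
    rwa [LinearMap.comp_apply, LinearMap.toSpanSingleton_apply, one_smul, LinearMap.id_apply] at h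
  have h1 : ∀ u, S.pr u = (g ∘ₗ S.pr) u • v := by
    intro u
    obtain ⟨a, ha⟩ := T.sp _ (S.q_pr u)
    rw [LinearMap.comp_apply, ha, map_smul, hgv, smul_eq_mul, mul_one]
  refine ⟨g ∘ₗ S.pr, h1, ?_, ?_, ?_⟩
  · intro x u
    have h2 : σ x v = ((ψ x.right : kˣ) : k) • v := by
      conv_lhs => rw [← SemidirectProduct.inl_left_mul_inr_right x, map_mul, Module.End.mul_apply,
        T.wt, map_smul, T.fix]
    rw [LinearMap.comp_apply, S.pr_eqv, h1 u, map_smul, h2, smul_smul, map_smul, hgv, smul_eq_mul,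
      mul_one, mul_comm]
  · rw [LinearMap.comp_apply, S.pr_of_q T.q, hgv]
  · intro x
    rw [LinearMap.comp_apply, S.pr_fd, map_zero]

/-- MODULE KB. `v` and `X₁ v` are linearly independent. PROOF. Apply `X₁` (`G.sq₁`): `x X₁ v = 0`, so `x = 0`, then `y = 0`. -/
theorem TA.lin {G : G4 k θ} {S : Spt σ} {ψ : E →* kˣ} {v : V} (T : TA G S ψ v) {x y : k}
    (h : x • v + y • zo σ G.c₁ v = 0) : x = 0 ∧ y = 0 := by
  have h1 := congrArg (zo σ G.c₁) h
  rw [map_add, map_smul, map_smul, G.sq₁, smul_zero, add_zero, map_zero] at h1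
  have hx : x = 0 := (smul_eq_zero.1 h1).resolve_right T.x₁
  refine ⟨hx, ?_⟩
  rw [hx, zero_smul, zero_add] at h
  exact (smul_eq_zero.1 h).resolve_right T.x₁

/-- MODULE KB. -/
theorem TA.ne {G : G4 k θ} {S : Spt σ} {ψ : E →* kˣ} {v : V} (T : TA G S ψ v) : v ≠ 0 := by
  intro h
  apply T.x₁
  rw [h, map_zero]

end Defs

section Two

variable {k Z E V V₀ : Type} [Field k] [CommGroup Z] [Fintype Z] [CommGroup E] [Fintype E]
  {θ : E →* MulAut Z} [AddCommGroup V] [Module k V] [AddCommGroup V₀] [Module k V₀]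
  {σ : Representation k (Z ⋊[θ] E) V} {σ₀ : Representation k (Z ⋊[θ] E) V₀}

omit [Fintype Z] [Fintype E] in
private theorem KC_stab {U : Submodule k V} (hU : ∀ g, ∀ v ∈ U, σ g v ∈ U) (y : E) {v : V}
    (hv : v ∈ RZ σ U) : σ (.inr y) v ∈ RZ σ U := by
  have h : RZ σ U ≤ (RZ σ U).comap (σ (.inr y)) := by
    refine Submodule.span_le.2 ?_
    rintro x ⟨z, u, hu, rfl⟩
    have h1 : (SemidirectProduct.inr y : Z ⋊[θ] E) * SemidirectProduct.inl z =
        SemidirectProduct.inl (θ y z) * SemidirectProduct.inr y := by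
      ext <;> simp
    show σ (.inr y) (σ (.inl z) u - u) ∈ RZ σ U
    rw [map_sub, ← Module.End.mul_apply, ← map_mul, h1, map_mul, Module.End.mul_apply]
    exact Submodule.subset_span ⟨θ y z, σ (.inr y) u, hU _ _ hu, rfl⟩
  exact h hv

/-- MODULE KC. THE EXCLUSION. The maps between `V₀` (core spanned by a fixed vector `v₀` of weight `ψ`) and `V` are traces; then the core of `V` contains no vector of weight `ψ`.
PROOF. Suppose `w ≠ 0`. First case, `w` is fixed by `Z`. `f(u) = c(u) w` (`T.coord`) is equivariant, so it is a trace by `h1`, with values in `ker q`, and `f v₀ = w` must be `0` by `Spt.kill_fix`.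
Second case, `w` is not fixed. `K = RZ σ (ker q) ⊔ range (fd σ S.w)`. `w ∉ K`: `w = r + fd x`, apply `q`: `q r = 0` (`Spt.RZ_le`), so `x = 0`, `w = r ∈ FZ σ` (`Spt.RZ_le G S`), a contradiction.
`K` is `E`-stable (`RZ σ (ker q)`: `σ(y)(z u - u) = θ_y(z) (y u) - y u`; the range: `fd_eqv` with `S.ev`). `exists_func`: `f w = 1`, `f K = 0`, `f` of weight `ψ`. `F(u) = f(u) v₀` is equivariant: `f(z u) = f(u)`
as `z u - u = (z (pr u) - pr u) + (z fd(q u) - fd(q u)) ∈ K`, and `v₀` is fixed. So `F` is a trace by `h2`, with values in `ker q₀`, on which `Z` acts trivially (`T.sp`, `T.fix`); `Spt.kill_NZ`: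
`F w = v₀` must be `0` as `NZ w = 0` (`S.qN`), a contradiction. -/
theorem TS.no_wt (G : G4 k θ) (hE : (Fintype.card E : k) ≠ 0) {S₀ : Spt σ₀} {ψ : E →* kˣ}
    {v₀ : V₀} (T : TS S₀ ψ v₀) (S : Spt σ)
    (h1 : ∀ f : V₀ →ₗ[k] V, Eqv σ₀ σ f → ∃ φ : V₀ →ₗ[k] V, Trc σ₀ σ φ = f)
    (h2 : ∀ f : V →ₗ[k] V₀, Eqv σ σ₀ f → ∃ φ : V →ₗ[k] V₀, Trc σ σ₀ φ = f) {w : V}
    (hw : S.q w = 0) (hwt : ∀ y, σ (.inr y) w = ((ψ y : kˣ) : k) • w) : w = 0 := by
  by_contra hw0
  by_cases hfix : ∀ z : Z, σ (.inl z) w = w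
  · obtain ⟨c, hc1, hc2, hc3, hc4⟩ := T.coord
    have hσw : ∀ g : Z ⋊[θ] E, σ g w = ((ψ g.right : kˣ) : k) • w := by
      intro g
      conv_lhs => rw [← SemidirectProduct.inl_left_mul_inr_right g, map_mul, Module.End.mul_apply,
        hwt, map_smul, hfix]
    have hf : Eqv σ₀ σ (c.smulRight w) := by
      intro g u
      rw [LinearMap.smulRight_apply, LinearMap.smulRight_apply, hc2, map_smul, hσw, smul_smul,
        mul_comm]
    have h3 := S.kill_fix (h1 _ hf) (fun v => by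
      rw [LinearMap.smulRight_apply, map_smul, hw, smul_zero]) (v := v₀) T.fix
    rw [LinearMap.smulRight_apply, hc3, one_smul] at h3
    exact hw0 h3
  · have hwK : w ∉ RZ σ (LinearMap.ker S.q) ⊔ LinearMap.range (fd σ S.w) := by
      intro h
      obtain ⟨r, hr, s, ⟨x, rfl⟩, hrs⟩ := Submodule.mem_sup.1 h
      have hr2 := Spt.RZ_le G S hr
      have hqr : S.q r = 0 := hr2.2
      have hx : x = 0 := by
        have h4 := congrArg S.q hrs
        rwa [map_add, hqr, S.qf, zero_add, hw] at h4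
      rw [hx, map_zero, add_zero] at hrs
      exact hfix (fun z => by rw [← hrs]; exact hr2.1 z)
    have hKE : ∀ (y : E), ∀ v ∈ RZ σ (LinearMap.ker S.q) ⊔ LinearMap.range (fd σ S.w),
        σ (.inr y) v ∈ RZ σ (LinearMap.ker S.q) ⊔ LinearMap.range (fd σ S.w) := by
      intro y v hv
      obtain ⟨r, hr, s, ⟨x, rfl⟩, rfl⟩ := Submodule.mem_sup.1 hv
      rw [map_add]
      exact Submodule.add_mem_sup (KC_stab (fun g v hv => LinearMap.mem_ker.2
        (S.q_stab g (LinearMap.mem_ker.1 hv))) y hr) ⟨tw θ S.χ k (.inr y) x,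
          fd_eqv σ S.ev (.inr y) x⟩
    obtain ⟨f, hf1, hf2, hf3⟩ := exists_func hE σ hKE hwK hwt
    have hfz : ∀ (z : Z) (u : V), f (σ (.inl z) u) = f u := by
      intro z u
      have h4 : σ (.inl z) u - u = (σ (.inl z) (S.pr u) - S.pr u) +
          fd σ S.w (tw θ S.χ k (.inl z) (S.q u) - S.q u) := by
        rw [map_sub, fd_eqv σ S.ev (.inl z) (S.q u), S.pr_apply, map_sub]
        abel
      have h5 : f (σ (.inl z) u - u) = 0 := by
        rw [h4]
        exact hf2 _ (Submodule.add_mem_sup (Submodule.subset_span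
          ⟨z, S.pr u, LinearMap.mem_ker.2 (S.q_pr u), rfl⟩) ⟨_, rfl⟩)
      rw [map_sub] at h5
      exact sub_eq_zero.1 h5
    have hF : Eqv σ σ₀ (f.smulRight v₀) := by
      intro g u
      rw [LinearMap.smulRight_apply, LinearMap.smulRight_apply, map_smul,
        ← SemidirectProduct.inl_left_mul_inr_right g, map_mul, Module.End.mul_apply, hfz, hf3,
        map_mul, Module.End.mul_apply, T.wt, map_smul, T.fix, smul_smul, mul_comm]
    have h6 := S₀.kill_NZ (fun z u hu => by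
      obtain ⟨c, hc⟩ := T.sp u hu
      rw [hc, map_smul, T.fix]) (h2 _ hF) (fun v => by
      rw [LinearMap.smulRight_apply, map_smul, T.q, smul_zero]) (v := w) (S.qN w hw)
    rw [LinearMap.smulRight_apply, hf1, one_smul] at h6
    exact T.ne h6

end Two

section Three

variable {k Z E V : Type} [Field k] [CommGroup Z] [Fintype Z] [CommGroup E] [Fintype E]
  {θ : E →* MulAut Z} [AddCommGroup V] [Module k V] {σ : Representation k (Z ⋊[θ] E) V}

/-- MODULE KD. THE CASE `X₁ v ≠ 0`, where `v ∈ ker q` has the weight `ψ om` and there is no vector of weight `ψ` in `ker q`. PROOF. `X₂ v ∈ ker q` (`zo_mem`, `S.q_stab`) has the weight `ψ om om⁻¹ = ψ` (`G.wt₂`), so `X₂ v = 0`.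
`NZ v = 0` (`S.qN`). Put `χ = ψ om om`, `v' = X₁ v` (weight `χ`, `G.wt₁`). `exists_func` with `K = ⊥`: `f v' = 1`, `f` of weight `χ`. (i) `f (X₂ u) = 0` for `u ∈ ker q`: `u ↦ f (X₂ u)` has on `ker q` the weight
`χ om` (`X₂ σ(y) = om(y) σ(y) X₂` by `G.tw₂`), and `χ om = ψ om om om = ψ` (`G.cub`), so `func_zero` applies (`U = ker q`). (ii) `f v = 0`: `f (σ(y) v) = χ(y) f v = (ψ om)(y) f v` and `om(y) ≠ 1` for some `y` (`G.ne`). Let
`π u = f (X₁ (pr u)) v + f (pr u) v'`. `π (X₁ u) = f(X₁ pr u) v' = X₁ (π u)` (`G.sq₁`, `pr` commutes with `X₁` by `zo_eqv`, `S.pr_eqv`), `π (X₂ u) = f(NZ (pr u)) v + f(X₂ (pr u)) v' = 0 = X₂ (π u)`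
(`NZ (pr u) = 0`, `X₂ v = 0`, `X₂ v' = NZ v = 0`), `π (σ(y) u) = σ(y) (π u)` (`X₁ σ(y) = om(y)⁻¹ σ(y) X₁`); so `π` is equivariant (`G.eqv_of`). `π v = v`, `π v' = v'`, so `π` is idempotent, not zero, with values in `ker q`.
`idem_all`: `u = π u` for `u ∈ ker q`. -/
theorem cl3_long (G : G4 k θ) {p n : ℕ} (hp : p.Prime) (hch : CharP k p)
    (hcard : Fintype.card Z = p ^ n) (hE : (Fintype.card E : k) ≠ 0) (hst : Hst σ) (S : Spt σ)
    {ψ : E →* kˣ}
    (h0 : ∀ w, S.q w = 0 → (∀ y, σ (.inr y) w = ((ψ y : kˣ) : k) • w) → w = 0) {v : V}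
    (hv : S.q v = 0) (hwt : ∀ y, σ (.inr y) v = (((ψ * G.om) y : kˣ) : k) • v)
    (h1 : zo σ G.c₁ v ≠ 0) : TA G S (ψ * G.om) v := by
  have hstU : ∀ z : Z, ∀ v ∈ LinearMap.ker S.q, σ (.inl z) v ∈ LinearMap.ker S.q :=
    fun z v hv => LinearMap.mem_ker.2 (S.q_stab _ (LinearMap.mem_ker.1 hv))
  have hcub : ∀ y, G.om y * G.om y * G.om y = 1 := by
    intro y
    have h := DFunLike.congr_fun G.cub y
    rw [MonoidHom.mul_apply, MonoidHom.inv_apply] at h
    rw [h, inv_mul_cancel]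
  have hq2 : S.q (zo σ G.c₂ v) = 0 := LinearMap.mem_ker.1 (zo_mem hstU _ (LinearMap.mem_ker.2 hv))
  have hx2 : zo σ G.c₂ v = 0 := by
    refine h0 _ hq2 fun y => ?_
    rw [G.wt₂ hwt, MonoidHom.mul_apply, MonoidHom.mul_apply, MonoidHom.inv_apply,
      mul_inv_cancel_right]
  have hN : NZ σ v = 0 := S.qN v hv
  have hq1 : S.q (zo σ G.c₁ v) = 0 := LinearMap.mem_ker.1 (zo_mem hstU _ (LinearMap.mem_ker.2 hv))
  obtain ⟨f, hf1, -, hf3⟩ := exists_func hE σ (K := ⊥) (fun y v hv => by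
    rw [Submodule.mem_bot] at hv ⊢
    rw [hv, map_zero]) (w := zo σ G.c₁ v) (fun h => h1 ((Submodule.mem_bot k).1 h))
    (G.wt₁ hwt)
  have hfX2 : ∀ u, S.q u = 0 → f (zo σ G.c₂ u) = 0 := by
    intro u hu
    have h2 := func_zero (σ := σ) hE (U := LinearMap.ker S.q) (fun y v hv =>
      LinearMap.mem_ker.2 (S.q_stab _ (LinearMap.mem_ker.1 hv))) (χ := ψ)
      (fun v hv hv' => h0 v (LinearMap.mem_ker.1 hv) hv') (f := f ∘ₗ zo σ G.c₂) (by
        intro y v _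
        have h3 : zo σ G.c₂ (σ (.inr y) v) = ((G.om y : kˣ) : k) • σ (.inr y) (zo σ G.c₂ v) := by
          rw [G.tw₂, smul_smul, MonoidHom.inv_apply, ← Units.val_mul, mul_inv_cancel,
            Units.val_one, one_smul]
        rw [LinearMap.comp_apply, h3, map_smul, hf3, smul_eq_mul, ← mul_assoc, ← Units.val_mul,
          LinearMap.comp_apply]
        congr 2
        rw [MonoidHom.mul_apply, MonoidHom.mul_apply]
        calc G.om y * (ψ y * G.om y * G.om y) = ψ y * (G.om y * G.om y * G.om y) := by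
              rw [mul_left_comm, ← mul_assoc]
              simp only [mul_assoc]
          _ = ψ y := by rw [hcub, mul_one]) (LinearMap.mem_ker.2 hu)
    exact h2
  have hfv : f v = 0 := by
    by_contra hne
    obtain ⟨y, hy⟩ := G.ne
    apply hy
    have h2 := hf3 y v
    rw [hwt, map_smul, smul_eq_mul] at h2
    have h3 := mul_right_cancel₀ hne h2
    have h4 : (ψ * G.om) y = (ψ * G.om * G.om) y := Units.ext h3
    rw [MonoidHom.mul_apply (ψ * G.om) G.om] at h4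
    exact (mul_eq_left.1 h4.symm)
  have hpX1 : ∀ u, S.pr (zo σ G.c₁ u) = zo σ G.c₁ (S.pr u) := fun u => zo_eqv S.pr_eqv _ _
  have hpX2 : ∀ u, S.pr (zo σ G.c₂ u) = zo σ G.c₂ (S.pr u) := fun u => zo_eqv S.pr_eqv _ _
  obtain ⟨π, hπ⟩ : ∃ π : V →ₗ[k] V, ∀ u, π u =
      f (zo σ G.c₁ (S.pr u)) • v + f (S.pr u) • zo σ G.c₁ v :=
    ⟨(f ∘ₗ zo σ G.c₁ ∘ₗ S.pr).smulRight v + (f ∘ₗ S.pr).smulRight (zo σ G.c₁ v), fun u => rfl⟩
  have hπv : π v = v := by
    rw [hπ, S.pr_of_q hv, hf1, hfv, one_smul, zero_smul, add_zero]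
  have hπv' : π (zo σ G.c₁ v) = zo σ G.c₁ v := by
    rw [hπ, S.pr_of_q hq1, hf1, G.sq₁, map_zero, one_smul, zero_smul, zero_add]
  have hπe : Eqv σ σ π := by
    refine G.eqv_of ?_ ?_ ?_
    · intro u
      rw [hπ, hπ, hpX1, G.sq₁, map_zero, zero_smul, zero_add, map_add, map_smul, map_smul, G.sq₁,
        smul_zero, add_zero]
    · intro u
      rw [hπ, hπ, hpX2, G.x₁₂, S.qN _ (S.q_pr u), map_zero, zero_smul, zero_add,
        hfX2 _ (S.q_pr u), zero_smul, map_add, map_smul, map_smul, hx2, smul_zero, zero_add,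
        G.x₂₁, hN, smul_zero]
    · intro y u
      have h3 : zo σ G.c₁ (σ (.inr y) (S.pr u)) =
          (((G.om y)⁻¹ : kˣ) : k) • σ (.inr y) (zo σ G.c₁ (S.pr u)) := by
        rw [G.tw₁, smul_smul, ← Units.val_mul, inv_mul_cancel, Units.val_one, one_smul]
      rw [hπ, hπ, S.pr_eqv, h3, map_smul, hf3, hf3, map_add, map_smul, map_smul, hwt, G.wt₁ hwt,
        smul_eq_mul, ← mul_assoc, ← Units.val_mul, MonoidHom.mul_apply (ψ * G.om) G.om,
        inv_mul_eq_div, mul_div_cancel_right, smul_smul, smul_smul, mul_comm _ (f _),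
        mul_comm _ (f _)]
  have hv0 : v ≠ 0 := fun h => h1 (by rw [h, map_zero])
  refine ⟨hv, hwt, hx2, h1, fun u hu => ⟨f (zo σ G.c₁ (S.pr u)), f (S.pr u), ?_⟩⟩
  have h5 := idem_all hp hch hcard hst S hπe (fun u => by
    rw [hπ u, map_add, map_smul, map_smul, hπv, hπv']) (fun h => hv0 (by
    rw [← hπv, h, LinearMap.zero_apply])) (fun u => by
    rw [hπ u, map_add, map_smul, map_smul, hv, hq1, smul_zero, smul_zero, add_zero]) u hu
  rw [← hπ u, h5]

/-- MODULE KE. THE CASE OF A TRIVIAL ACTION. PROOF. `w ∈ ker q`, `w ≠ 0`, of weight `χ` (given). `exists_func` with `K = ⊥`: `f w = 1`, `f` of weight `χ`. `π u = f (pr u) w` is equivariant (`pr (z u) = z (pr u) = pr u` as the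
elements of `ker q` are fixed), idempotent, not zero, with values in `ker q`; `idem_all`. -/
theorem cl3_triv {p n : ℕ} (hp : p.Prime) (hch : CharP k p)
    (hcard : Fintype.card Z = p ^ n) (hE : (Fintype.card E : k) ≠ 0) (hst : Hst σ) (S : Spt σ)
    (hfix : ∀ u, S.q u = 0 → ∀ z : Z, σ (.inl z) u = u) {χ : E →* kˣ} {w : V}
    (hw : S.q w = 0) (hw0 : w ≠ 0) (hwt : ∀ y, σ (.inr y) w = ((χ y : kˣ) : k) • w) :
    TS S χ w := by
  obtain ⟨f, hf1, -, hf3⟩ := exists_func hE σ (K := ⊥) (fun y v hv => by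
    rw [Submodule.mem_bot] at hv ⊢
    rw [hv, map_zero]) (w := w) (fun h => hw0 ((Submodule.mem_bot k).1 h)) hwt
  obtain ⟨π, hπ⟩ : ∃ π : V →ₗ[k] V, ∀ u, π u = f (S.pr u) • w :=
    ⟨(f ∘ₗ S.pr).smulRight w, fun u => rfl⟩
  have hπw : π w = w := by
    rw [hπ, S.pr_of_q hw, hf1, one_smul]
  have hπe : Eqv σ σ π := by
    intro g u
    have h2 : ∀ u', S.q u' = 0 → σ g u' = σ (.inr g.right) u' := by
      intro u' hu'
      conv_lhs => rw [← SemidirectProduct.inl_left_mul_inr_right g, map_mul, Module.End.mul_apply,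
        hfix _ (S.q_stab _ hu')]
    rw [hπ, hπ, S.pr_eqv, h2 _ (S.q_pr u), hf3, map_smul, h2 w hw, hwt, smul_smul, mul_comm]
  refine ⟨hw, hw0, hwt, hfix w hw, fun u hu => ⟨f (S.pr u), ?_⟩⟩
  have h5 := idem_all hp hch hcard hst S hπe (fun u => by
    rw [hπ u, map_smul, hπw]) (fun h => hw0 (by
    rw [← hπw, h, LinearMap.zero_apply])) (fun u => by
    rw [hπ u, map_smul, hw, smul_zero]) u hu
  rw [← hπ u, h5]

/-- MODULE KF. THE CLASSIFICATION. PROOF. `ker q ≠ ⊥` (`S.ker_ne`). Every character is `ψ`, `ψ om` or `ψ om⁻¹` (`G.chr` for `ψ⁻¹ χ`). If some `v ∈ ker q` of weight `ψ om` has `X₁ v ≠ 0`: `cl3_long G`. If some `v ∈ ker q` of weight `ψ om⁻¹` has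
`X₂ v ≠ 0`: `cl3_long G.swap` (`G.swap.om = om⁻¹`, `G.swap.c₁ = c₂` by `rfl`). Otherwise `X₁` and `X₂` vanish on `ker q`: if not, `weight_outside` (`τ = σ ∘ inr`, `U = ker q`, `K = ker X₁ ⊓ ker X₂`) gives a weight vector `w ∈ ker q` with
`X₁ w ≠ 0` or `X₂ w ≠ 0`, its weight is not `ψ` (`h0`, `w ≠ 0`); if it is `ψ om` then `X₁ w = 0` and `X₂ w` has weight `ψ`, so it is `0`, a contradiction; if it is `ψ om⁻¹`: in the same way. So the elements of `ker q` are fixed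
(`G.fix_iff`), `weight_outside` with `K = ⊥` gives `w ≠ 0` in `ker q` of weight `χ ≠ ψ`, and `cl3_triv`. -/
theorem cl3 [IsAlgClosed k] (G : G4 k θ) {p n : ℕ} (hp : p.Prime) (hch : CharP k p)
    (hcard : Fintype.card Z = p ^ n) (hE : (Fintype.card E : k) ≠ 0) [FiniteDimensional k V]
    (hst : Hst σ) (S : Spt σ) (hnt : ¬ Prj σ) {ψ : E →* kˣ}
    (h0 : ∀ w, S.q w = 0 → (∀ y, σ (.inr y) w = ((ψ y : kˣ) : k) • w) → w = 0) :
    (∃ v, TS S (ψ * G.om) v) ∨ (∃ v, TS S (ψ * G.om⁻¹) v) ∨ (∃ v, TA G S (ψ * G.om) v) ∨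
      ∃ v, TA G.swap S (ψ * G.om⁻¹) v := by
  have hker : LinearMap.ker S.q ≠ ⊥ := S.ker_ne hE hnt
  have hstU : ∀ z : Z, ∀ v ∈ LinearMap.ker S.q, σ (.inl z) v ∈ LinearMap.ker S.q :=
    fun z v hv => LinearMap.mem_ker.2 (S.q_stab _ (LinearMap.mem_ker.1 hv))
  have hstE : ∀ y : E, ∀ v ∈ LinearMap.ker S.q,
      (MonoidHom.comp σ (SemidirectProduct.inr : E →* Z ⋊[θ] E)) y v ∈ LinearMap.ker S.q :=
    fun y v hv => LinearMap.mem_ker.2 (S.q_stab _ (LinearMap.mem_ker.1 hv))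
  have hchr : ∀ χ : E →* kˣ, χ = ψ ∨ χ = ψ * G.om ∨ χ = ψ * G.om⁻¹ := by
    intro χ
    have h2 : ψ * (ψ⁻¹ * χ) = χ := by
      ext y
      rw [MonoidHom.mul_apply, MonoidHom.mul_apply, MonoidHom.inv_apply, mul_inv_cancel_left]
    rcases G.chr (ψ⁻¹ * χ) with h | h | h
    · left
      rw [← h2, h]
      ext y
      rw [MonoidHom.mul_apply, MonoidHom.one_apply, mul_one]
    · right; left
      rw [← h2, h]
    · right; right
      rw [← h2, h]
  by_cases hA : ∃ v, S.q v = 0 ∧ (∀ y, σ (.inr y) v = (((ψ * G.om) y : kˣ) : k) • v) ∧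
      zo σ G.c₁ v ≠ 0
  · obtain ⟨v, hv, hwt, h1⟩ := hA
    exact Or.inr (Or.inr (Or.inl ⟨v, cl3_long G hp hch hcard hE hst S h0 hv hwt h1⟩))
  by_cases hB : ∃ v, S.q v = 0 ∧ (∀ y, σ (.inr y) v = (((ψ * G.om⁻¹) y : kˣ) : k) • v) ∧
      zo σ G.c₂ v ≠ 0
  · obtain ⟨v, hv, hwt, h1⟩ := hB
    exact Or.inr (Or.inr (Or.inr ⟨v, cl3_long G.swap hp hch hcard hE hst S h0 hv hwt h1⟩))
  push Not at hA hB
  have hfix : ∀ u, S.q u = 0 → ∀ z : Z, σ (.inl z) u = u := by
    have hle : LinearMap.ker S.q ≤ LinearMap.ker (zo σ G.c₁) ⊓ LinearMap.ker (zo σ G.c₂) := by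
      by_contra hle
      obtain ⟨w, hw, hwK, χ, hχ⟩ := weight_outside hE
        (MonoidHom.comp σ (SemidirectProduct.inr : E →* Z ⋊[θ] E)) hstE hle
      have hqw : S.q w = 0 := LinearMap.mem_ker.1 hw
      have hwt : ∀ y, σ (.inr y) w = ((χ y : kˣ) : k) • w := hχ
      have hq1 : S.q (zo σ G.c₁ w) = 0 := LinearMap.mem_ker.1 (zo_mem hstU _ hw)
      have hq2 : S.q (zo σ G.c₂ w) = 0 := LinearMap.mem_ker.1 (zo_mem hstU _ hw)
      apply hwK
      rcases hchr χ with rfl | rfl | rfl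
      · rw [h0 w hqw hwt]
        exact Submodule.zero_mem _
      · refine ⟨LinearMap.mem_ker.2 (hA w hqw hwt), LinearMap.mem_ker.2 ?_⟩
        refine h0 _ hq2 fun y => ?_
        rw [G.wt₂ hwt, MonoidHom.mul_apply, MonoidHom.mul_apply, MonoidHom.inv_apply,
          mul_inv_cancel_right]
      · refine ⟨LinearMap.mem_ker.2 ?_, LinearMap.mem_ker.2 (hB w hqw hwt)⟩
        refine h0 _ hq1 fun y => ?_
        rw [G.wt₁ hwt, MonoidHom.mul_apply, MonoidHom.mul_apply, MonoidHom.inv_apply,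
          inv_mul_cancel_right]
    intro u hu
    have h2 := hle (LinearMap.mem_ker.2 hu)
    exact G.fix_iff.2 ⟨LinearMap.mem_ker.1 h2.1, LinearMap.mem_ker.1 h2.2⟩
  obtain ⟨w, hw, hwK, χ, hχ⟩ := weight_outside hE
    (MonoidHom.comp σ (SemidirectProduct.inr : E →* Z ⋊[θ] E)) (K := ⊥) hstE
    (fun h => hker (le_bot_iff.1 h))
  have hqw : S.q w = 0 := LinearMap.mem_ker.1 hw
  have hw0 : w ≠ 0 := fun h => hwK (by rw [h]; exact Submodule.zero_mem _)
  have hwt : ∀ y, σ (.inr y) w = ((χ y : kˣ) : k) • w := hχ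
  have hT := cl3_triv hp hch hcard hE hst S hfix hqw hw0 hwt
  rcases hchr χ with rfl | rfl | rfl
  · exact absurd (h0 w hqw hwt) hw0
  · exact Or.inl ⟨w, hT⟩
  · exact Or.inr (Or.inl ⟨w, hT⟩)

end Three

end Pool.Agent.DDV
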