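import Pool.Agent.DDV.Sp

/-!
# DDV, part Kf: the Klein four group with an automorphism of order three

`x₁ = a + ω² b + ω c`, `x₂ = a + ω b + ω² c` in `k[Z]`, `Z = {1, a, b, c}`, `ω² + ω + 1 = 0`: `x₁² = x₂² = 0`, `x₁ x₂ = 1 + a + b + c`,
`y x₁ y⁻¹ = ω x₁`, `y x₂ y⁻¹ = ω² x₂`.
-/

set_option autoImplicit false

namespace Pool.Agent.DDV

open Pool.Agent.Sig Pool.Agent.DD Pool.Agent.FbT

/-- The operators `X₁ = zo σ c₁`, `X₂ = zo σ c₂`. -/
structure G4 (k : Type) [Field k] {Z E : Type} [CommGroup Z] [Fintype Z] [CommGroup E] [Fintype E]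
    (θ : E →* MulAut Z) where
  om : E →* kˣ
  c₁ : Z → k
  c₂ : Z → k
  tw₁ : ∀ (V : Type) [AddCommGroup V] [Module k V] (σ : Representation k (Z ⋊[θ] E) V) (y : E)
    (v : V), σ (.inr y) (zo σ c₁ v) = ((om y : kˣ) : k) • zo σ c₁ (σ (.inr y) v)
  tw₂ : ∀ (V : Type) [AddCommGroup V] [Module k V] (σ : Representation k (Z ⋊[θ] E) V) (y : E)
    (v : V), σ (.inr y) (zo σ c₂ v) = ((om⁻¹ y : kˣ) : k) • zo σ c₂ (σ (.inr y) v)
  sq₁ : ∀ (V : Type) [AddCommGroup V] [Module k V] (σ : Representation k (Z ⋊[θ] E) V) (v : V),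
    zo σ c₁ (zo σ c₁ v) = 0
  sq₂ : ∀ (V : Type) [AddCommGroup V] [Module k V] (σ : Representation k (Z ⋊[θ] E) V) (v : V),
    zo σ c₂ (zo σ c₂ v) = 0
  x₁₂ : ∀ (V : Type) [AddCommGroup V] [Module k V] (σ : Representation k (Z ⋊[θ] E) V) (v : V),
    zo σ c₁ (zo σ c₂ v) = NZ σ v
  x₂₁ : ∀ (V : Type) [AddCommGroup V] [Module k V] (σ : Representation k (Z ⋊[θ] E) V) (v : V),
    zo σ c₂ (zo σ c₁ v) = NZ σ v
  pol : ∀ z : Z, ∃ α β γ : k, ∀ (V : Type) [AddCommGroup V] [Module k V]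
    (σ : Representation k (Z ⋊[θ] E) V) (v : V), σ (.inl z) v =
      v + α • zo σ c₁ v + β • zo σ c₂ v + γ • NZ σ v
  ne : ∃ y, om y ≠ 1
  cub : om * om = om⁻¹
  chr : ∀ χ : E →* kˣ, χ = 1 ∨ χ = om ∨ χ = om⁻¹

theorem chr_inv_inv {k : Type} [Field k] {E : Type} [CommGroup E] (χ : E →* kˣ) :
    χ⁻¹⁻¹ = χ := by
  ext y
  rw [MonoidHom.inv_apply, MonoidHom.inv_apply, inv_inv]

theorem chr_inv_mul {k : Type} [Field k] {E : Type} [CommGroup E] (χ ψ : E →* kˣ) :
    χ⁻¹ * ψ⁻¹ = (χ * ψ)⁻¹ := by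
  ext y
  rw [MonoidHom.mul_apply, MonoidHom.inv_apply, MonoidHom.inv_apply, MonoidHom.inv_apply,
    MonoidHom.mul_apply, mul_inv]

/-- The roles of `x₁` and `x₂` exchanged. -/
def G4.swap {k : Type} [Field k] {Z E : Type} [CommGroup Z] [Fintype Z] [CommGroup E] [Fintype E]
    {θ : E →* MulAut Z} (G : G4 k θ) : G4 k θ where
  om := G.om⁻¹
  c₁ := G.c₂
  c₂ := G.c₁
  tw₁ := G.tw₂
  tw₂ := fun V _ _ σ y v => by
    rw [chr_inv_inv]
    exact G.tw₁ V σ y v
  sq₁ := G.sq₂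
  sq₂ := G.sq₁
  x₁₂ := G.x₂₁
  x₂₁ := G.x₁₂
  pol := fun z => by
    obtain ⟨α, β, γ, h⟩ := G.pol z
    refine ⟨β, α, γ, fun V _ _ σ v => ?_⟩
    rw [h V σ v]
    abel
  ne := by
    obtain ⟨y, hy⟩ := G.ne
    exact ⟨y, fun h => hy (inv_eq_one.1 h)⟩
  cub := by
    rw [chr_inv_mul, G.cub]
  chr := fun χ => by
    rcases G.chr χ with h | h | h
    · exact Or.inl h
    · exact Or.inr (Or.inr (by rw [h, chr_inv_inv]))
    · exact Or.inr (Or.inl h)

section Ex

variable {k Z E : Type} [Field k] [CommGroup Z] [Fintype Z] [CommGroup E] [Fintype E]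
  {θ : E →* MulAut Z}

/-- MODULE FA. THE GROUP. `Z = {1, a, b, c}`, `E = {1, y, y²}`. PROOF. Let `y ≠ 1`, `a ≠ 1`, `b = θ_y a`, `c = θ_y b`. `y` generates `E` (order three), `y³ = 1`,
so `θ_y c = a`. `b ≠ a`, `c ≠ b`, `c ≠ a` by freeness (`θ_y`, `θ_(y²)` have no fixed point `≠ 1`), so `Z = {1, a, b, c}`. `ab ≠ a, b`; if `ab = 1` then
(apply `θ_y`) `bc = 1`, `a = c`, a contradiction; so `ab = c`; in the same way `bc = a`, `ca = b`; `a² = a b c⁻¹ b⁻¹ a ..`: `c² = (ab) c = a (bc) = a²` and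
`a² = a (bc) = (ab) c = c²`, `a b c = c²`, `abc = a²`; `a² = 1`: otherwise `a²` is one of `a, b, c`; `a² = a` gives `a = 1`; `a² = b = θ_y a`, then
`c = θ_y b = b²`, `c² = a²` gives `c² = b`, `a = θ_y c = c² = b`, a contradiction; `a² = c` gives `c = ab`, so `a = b`. -/
theorem exists_abc (hZ : Fintype.card Z = 4) (hE : Fintype.card E = 3)
    (free : ∀ y : E, y ≠ 1 → ∀ z : Z, θ y z = z → z = 1) :
    ∃ (a b c : Z) (y : E), a ≠ 1 ∧ b ≠ 1 ∧ c ≠ 1 ∧ a ≠ b ∧ b ≠ c ∧ a ≠ c ∧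
      (∀ z : Z, z = 1 ∨ z = a ∨ z = b ∨ z = c) ∧ a * a = 1 ∧ b * b = 1 ∧ c * c = 1 ∧ a * b = c ∧
      b * c = a ∧ c * a = b ∧ θ y a = b ∧ θ y b = c ∧ θ y c = a ∧ y ≠ 1 ∧ y ^ 3 = 1 ∧
      ∀ y' : E, y' = 1 ∨ y' = y ∨ y' = y ^ 2 := by
  classical
  have hE' : (Fintype.card E).Prime := by rw [hE]; exact Nat.prime_three
  obtain ⟨y, hy1⟩ : ∃ y : E, y ≠ 1 := by
    by_contra hcon
    push Not at hcon
    have h1 : Fintype.card E ≤ 1 := Fintype.card_le_one_iff.2 fun a b => by rw [hcon a, hcon b]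
    omega
  have hy3 : y ^ 3 = 1 := by rw [← hE]; exact pow_card_eq_one
  have hy2 : y ^ 2 ≠ 1 := fun h => hy1 (by
    have h1 : y ^ 3 = y ^ 2 * y := pow_succ y 2
    rw [hy3, h, one_mul] at h1
    exact h1.symm)
  have hyy : y ^ 2 ≠ y := fun h => hy1 (by
    rw [pow_two] at h
    exact mul_eq_left.1 h)
  have hEu : ∀ y' : E, y' = 1 ∨ y' = y ∨ y' = y ^ 2 := by
    have h1 : ({1, y, y ^ 2} : Finset E) = Finset.univ := by
      apply Finset.eq_univ_of_card
      rw [hE, Finset.card_eq_three]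
      exact ⟨1, y, y ^ 2, hy1.symm, hy2.symm, hyy.symm, rfl⟩
    intro y'
    have h2 := Finset.mem_univ y'
    rw [← h1, Finset.mem_insert, Finset.mem_insert, Finset.mem_singleton] at h2
    exact h2
  obtain ⟨a, ha⟩ : ∃ a : Z, a ≠ 1 := by
    by_contra hcon
    push Not at hcon
    have h1 : Fintype.card Z ≤ 1 := Fintype.card_le_one_iff.2 fun a b => by rw [hcon a, hcon b]
    omega
  have hinj : ∀ z : Z, θ y z = 1 → z = 1 := fun z h => by
    rw [← map_one (θ y)] at h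
    exact (θ y).injective h
  set b := θ y a with hb0
  set c := θ y b with hc0
  have hb : b ≠ 1 := fun h => ha (hinj a h)
  have hc : c ≠ 1 := fun h => hb (hinj b h)
  have hab : a ≠ b := fun h => ha (free y hy1 a h.symm)
  have hbc : b ≠ c := fun h => hb (free y hy1 b h.symm)
  have hac : a ≠ c := fun h => ha (free (y ^ 2) hy2 a (by
    rw [pow_two, map_mul, MulAut.mul_apply, ← hb0, ← hc0, ← h]))
  have hca : θ y c = a := by
    rw [hc0, hb0, ← MulAut.mul_apply, ← MulAut.mul_apply, ← map_mul, ← map_mul]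
    have h1 : y * y * y = 1 := by rw [← pow_two, ← pow_succ, hy3]
    rw [h1, map_one, MulAut.one_apply]
  have hZu : ∀ z : Z, z = 1 ∨ z = a ∨ z = b ∨ z = c := by
    have h1 : ({1, a, b, c} : Finset Z) = Finset.univ := by
      apply Finset.eq_univ_of_card
      rw [hZ, Finset.card_insert_of_notMem, Finset.card_insert_of_notMem,
        Finset.card_insert_of_notMem, Finset.card_singleton]
      · rw [Finset.mem_singleton]; exact hbc
      · rw [Finset.mem_insert, Finset.mem_singleton]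
        rintro (h | h)
        · exact hab h
        · exact hac h
      · rw [Finset.mem_insert, Finset.mem_insert, Finset.mem_singleton]
        rintro (h | h | h)
        · exact ha h.symm
        · exact hb h.symm
        · exact hc h.symm
    intro z
    have h2 := Finset.mem_univ z
    rw [← h1, Finset.mem_insert, Finset.mem_insert, Finset.mem_insert,
      Finset.mem_singleton] at h2
    exact h2
  have h1 : a * b = c := by
    rcases hZu (a * b) with h | h | h | h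
    · exfalso
      have h2 : b * c = 1 := by
        have h3 := congrArg (θ y) h
        rw [map_mul, map_one] at h3
        exact h3
      apply hac
      rw [← h, mul_comm a b] at h2
      exact (mul_left_cancel h2).symm
    · exact absurd (mul_eq_left.1 h) hb
    · exact absurd (mul_eq_right.1 h) ha
    · exact h
  have h2 : b * c = a := by
    have h3 := congrArg (θ y) h1
    rw [map_mul, hca] at h3
    exact h3
  have h3 : c * a = b := by
    have h4 := congrArg (θ y) h2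
    rw [map_mul, hca] at h4
    exact h4
  have h4 : a * a = 1 := by
    have h5 : a * a * b = b := by rw [mul_assoc, h1, mul_comm, h3]
    exact mul_eq_right.1 h5
  have h5 : b * b = 1 := by
    have h6 : b * b * c = c := by rw [mul_assoc, h2, mul_comm, h1]
    exact mul_eq_right.1 h6
  have h6 : c * c = 1 := by
    have h7 : c * c * a = a := by rw [mul_assoc, h3, mul_comm, h2]
    exact mul_eq_right.1 h7
  exact ⟨a, b, c, y, ha, hb, hc, hab, hbc, hac, hZu, h4, h5, h6, h1, h2, h3, rfl, rfl, hca, hy1,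
    hy3, hEu⟩

omit [Fintype E] in
private theorem FB_zo {V : Type} [AddCommGroup V] [Module k V] (σ : Representation k (Z ⋊[θ] E) V)
    (c : Z → k) (v : V) : zo σ c v = ∑ z : Z, c z • σ (.inl z) v := by
  rw [zo, LinearMap.sum_apply]
  rfl

omit [Field k] [CommGroup Z] [CommGroup E] [Fintype E] in
private theorem FB_sum [DecidableEq Z] {V : Type} [AddCommMonoid V] {o a b c : Z} (ha : a ≠ o)
    (hb : b ≠ o) (hc : c ≠ o) (hab : a ≠ b) (hbc : b ≠ c) (hac : a ≠ c)
    (hZu : ∀ z : Z, z = o ∨ z = a ∨ z = b ∨ z = c) (F : Z → V) :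
    ∑ z : Z, F z = F o + F a + F b + F c := by
  have h1 : (Finset.univ : Finset Z) = {o, a, b, c} := by
    ext z
    rw [Finset.mem_insert, Finset.mem_insert, Finset.mem_insert, Finset.mem_singleton]
    exact ⟨fun _ => hZu z, fun _ => Finset.mem_univ z⟩
  rw [h1, Finset.sum_insert, Finset.sum_insert, Finset.sum_insert, Finset.sum_singleton,
    add_assoc, add_assoc]
  · rw [Finset.mem_singleton]; exact hbc
  · rw [Finset.mem_insert, Finset.mem_singleton]
    rintro (h | h)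
    · exact hab h
    · exact hac h
  · rw [Finset.mem_insert, Finset.mem_insert, Finset.mem_singleton]
    rintro (h | h | h)
    · exact ha h.symm
    · exact hb h.symm
    · exact hc h.symm

omit [Fintype Z] [Fintype E] in
private theorem FB_sw {V : Type} [AddCommGroup V] [Module k V] (σ : Representation k (Z ⋊[θ] E) V)
    (y : E) (z : Z) (v : V) : σ (.inr y) (σ (.inl z) v) = σ (.inl (θ y z)) (σ (.inr y) v) := by
  rw [← Module.End.mul_apply, ← Module.End.mul_apply, ← map_mul, ← map_mul,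
    SemidirectProduct.inl_aut, map_inv, inv_mul_cancel_right]

omit [Fintype Z] [Fintype E] in
private theorem FB_mm {V : Type} [AddCommGroup V] [Module k V] (σ : Representation k (Z ⋊[θ] E) V)
    (z z' : Z) (v : V) : σ (.inl z) (σ (.inl z') v) = σ (.inl (z * z')) v := by
  rw [map_mul, map_mul, Module.End.mul_apply]

/-- The data of `Z`. -/
private structure FBd (θ : E →* MulAut Z) (ω : k) (a b c : Z) (y : E) : Prop where
  two : (2 : k) = 0
  hω : ω ^ 2 + ω + 1 = 0
  ha : a ≠ 1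
  hb : b ≠ 1
  hc : c ≠ 1
  hab : a ≠ b
  hbc : b ≠ c
  hac : a ≠ c
  hZu : ∀ z : Z, z = 1 ∨ z = a ∨ z = b ∨ z = c
  aa : a * a = 1
  bb : b * b = 1
  cc : c * c = 1
  ab : a * b = c
  bc : b * c = a
  ca : c * a = b
  ya : θ y a = b
  yb : θ y b = c
  yc : θ y c = a
  hy1 : y ≠ 1
  hy3 : y ^ 3 = 1
  hEu : ∀ y' : E, y' = 1 ∨ y' = y ∨ y' = y ^ 2

open Classical in
/-- The coefficients. -/
private noncomputable def FB_c (a b c : Z) (ω : k) : Z → k := fun z =>
  if z = a then 1 else if z = b then ω ^ 2 else if z = c then ω else 0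

omit [Fintype E] in
private theorem FB_zc {ω : k} {a b c : Z} {y : E} (D : FBd θ ω a b c y) {V : Type} [AddCommGroup V]
    [Module k V] (σ : Representation k (Z ⋊[θ] E) V) (v : V) (ω' : k) :
    zo σ (FB_c a b c ω') v = σ (.inl a) v + ω' ^ 2 • σ (.inl b) v + ω' • σ (.inl c) v := by
  classical
  rw [FB_zo, FB_sum D.ha D.hb D.hc D.hab D.hbc D.hac D.hZu]
  have h1 : FB_c a b c ω' 1 = 0 := by
    rw [FB_c, if_neg D.ha.symm, if_neg D.hb.symm, if_neg D.hc.symm]
  have h2 : FB_c a b c ω' a = 1 := by rw [FB_c, if_pos rfl]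
  have h3 : FB_c a b c ω' b = ω' ^ 2 := by rw [FB_c, if_neg D.hab.symm, if_pos rfl]
  have h4 : FB_c a b c ω' c = ω' := by
    rw [FB_c, if_neg D.hac.symm, if_neg D.hbc.symm, if_pos rfl]
  rw [h1, h2, h3, h4, zero_smul, zero_add, one_smul]

private theorem FB_nz {ω : k} {a b c : Z} {y : E} (D : FBd θ ω a b c y) {V : Type} [AddCommGroup V]
    [Module k V] (σ : Representation k (Z ⋊[θ] E) V) (v : V) :
    NZ σ v = v + σ (.inl a) v + σ (.inl b) v + σ (.inl c) v := by
  classical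
  rw [NZ_apply, FB_sum D.ha D.hb D.hc D.hab D.hbc D.hac D.hZu, map_one, map_one,
    Module.End.one_apply]

omit [Fintype E] in
private theorem FB_tw {ω : k} {a b c : Z} {y : E} (D : FBd θ ω a b c y) {V : Type}
    [AddCommGroup V] [Module k V] (σ : Representation k (Z ⋊[θ] E) V) {ω' : k}
    (hω' : ω' ^ 3 = 1) (om : E →* kˣ) (hom : ((om y : kˣ) : k) = ω') (y' : E) (v : V) :
    σ (.inr y') (zo σ (FB_c a b c ω') v) =
      ((om y' : kˣ) : k) • zo σ (FB_c a b c ω') (σ (.inr y') v) := by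
  have h1 : ∀ v : V, σ (.inr y) (zo σ (FB_c a b c ω') v) =
      ((om y : kˣ) : k) • zo σ (FB_c a b c ω') (σ (.inr y) v) := by
    intro v
    rw [FB_zc D, FB_zc D, map_add, map_add, map_smul, map_smul, FB_sw, FB_sw, FB_sw, D.ya, D.yb,
      D.yc, hom]
    linear_combination (norm := module) (-hω') • σ (.inl b) (σ (.inr y) v)
  rcases D.hEu y' with h | h | h
  · rw [h, map_one, map_one, map_one, Units.val_one, one_smul, Module.End.one_apply,
      Module.End.one_apply]
  · rw [h]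
    exact h1 v
  · have h2 : ∀ v : V, σ (.inr (y ^ 2)) v = σ (.inr y) (σ (.inr y) v) := by
      intro v
      rw [pow_two, map_mul, map_mul, Module.End.mul_apply]
    rw [h, h2, h1, map_smul, h1, smul_smul, h2, map_pow, Units.val_pow_eq_pow_val, pow_two]

/-- MODULE FB. THE OPERATORS. PROOF. `exists_abc`; `ω` a root of `X² + X + 1` (`IsAlgClosed.exists_root` or `exists_aeval_eq_zero`), `ω³ = 1`, `ω ≠ 1` (`3 = 1 ≠ 0` in
characteristic two). `om : E →* kˣ` with `om y = ω` (e.g. `zpowersHom`/`MonoidHom` on the cyclic group, or define it by cases through an isomorphism with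
`Multiplicative (ZMod 3)`). `c₁ = ω² at b, ω at c, 1 at a, 0 at 1`; `c₂` with `ω` and `ω²` exchanged; so `zo σ c₁ v = σ(a) v + ω² σ(b) v + ω σ(c) v`. `tw₁`: for `y`:
`σ(y) σ(a) = σ(b) σ(y)` and so on: `σ(y) X₁ = (σ(b) + ω² σ(c) + ω σ(a)) σ(y) = ω X₁ σ(y)`; for `1` and `y²` by iteration (every element of `E` is a power of `y`).
`sq₁`: `X₁² = σ(a²) + ω⁴ σ(b²) + ω² σ(c²) + 2(..) = 1 + ω + ω² = 0`. `x₁₂`: `X₁ X₂ = 1 + ω³ + ω³ + (ω + ω²)(σ(a) + σ(b) + σ(c)) = 1 + σ(a) + σ(b) + σ(c) = NZ` (characteristic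
two, `ω + ω² = 1`). `pol`: `z = 1`: `0, 0, 0`; `z = a`: `1, 1, 1`; `z = b`: `ω, ω², 1`; `z = c`: `ω², ω, 1` (`X₁ + X₂ + NZ + 1 = 3 σ(a) + (1 + ω + ω²)(..)`). `cub`: `ω³ = 1`.
`chr`: `χ(y)³ = 1`, so `χ(y)` is `1`, `ω` or `ω²` (`t³ - 1 = (t - 1)(t - ω)(t - ω²)`), and `χ` is determined by `χ(y)`. -/
theorem exists_g4 [IsAlgClosed k] (hch : CharP k 2) (hZ : Fintype.card Z = 4)
    (hE : Fintype.card E = 3) (free : ∀ y : E, y ≠ 1 → ∀ z : Z, θ y z = z → z = 1) :
    Nonempty (G4 k θ) := by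
  classical
  obtain ⟨a, b, c, y, ha, hb, hc, hab, hbc, hac, hZu, aa, bb, cc, ab, bc, ca, ya, yb, yc, hy1,
    hy3, hEu⟩ := exists_abc hZ hE free
  have two : (2 : k) = 0 := by
    have h1 := (CharP.cast_eq_zero_iff k 2 2).2 (dvd_refl 2)
    exact_mod_cast h1
  obtain ⟨ω, hω⟩ : ∃ ω : k, ω ^ 2 + ω + 1 = 0 := by
    have hd : (Polynomial.X ^ 2 + Polynomial.X + 1 : Polynomial k).degree = 2 := by
      compute_degree!
    obtain ⟨ω, h⟩ := IsAlgClosed.exists_root (Polynomial.X ^ 2 + Polynomial.X + 1 : Polynomial k)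
      (by rw [hd]; norm_num)
    refine ⟨ω, ?_⟩
    rw [Polynomial.IsRoot.def, Polynomial.eval_add, Polynomial.eval_add, Polynomial.eval_pow,
      Polynomial.eval_X, Polynomial.eval_one] at h
    exact h
  have D : FBd θ ω a b c y := ⟨two, hω, ha, hb, hc, hab, hbc, hac, hZu, aa, bb, cc, ab, bc, ca,
    ya, yb, yc, hy1, hy3, hEu⟩
  have hω3 : ω ^ 3 = 1 := by linear_combination (ω - 1) * hω
  have hω1 : ω ≠ 1 := fun h => one_ne_zero (α := k) (by
    rw [h] at hω
    linear_combination hω - two)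
  have hω0 : ω ≠ 0 := fun h => by
    rw [h] at hω
    exact one_ne_zero (α := k) (by linear_combination hω)
  have hω23 : (ω ^ 2) ^ 3 = 1 := by
    linear_combination (ω ^ 3 + 1) * hω3
  have hyo : orderOf y = 3 := orderOf_eq_prime hy3 hy1
  have hgen : ∀ x : E, x ∈ Subgroup.zpowers y := by
    intro x
    rcases hEu x with h | h | h
    · rw [h]; exact Subgroup.one_mem _
    · rw [h]; exact Subgroup.mem_zpowers y
    · rw [h]; exact Subgroup.pow_mem _ (Subgroup.mem_zpowers y) 2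
  have hu3 : (Units.mk0 ω hω0) ^ 3 = 1 := by
    ext
    rw [Units.val_pow_eq_pow_val, Units.val_mk0, Units.val_one, hω3]
  obtain ⟨om, hom⟩ : ∃ om : E →* kˣ, om y = Units.mk0 ω hω0 :=
    ⟨monoidHomOfForallMemZpowers hgen (g' := Units.mk0 ω hω0)
      (by rw [hyo]; exact orderOf_dvd_of_pow_eq_one hu3),
      monoidHomOfForallMemZpowers_apply_gen hgen _⟩
  have hom' : ((om y : kˣ) : k) = ω := by rw [hom, Units.val_mk0]
  have hominv : ((om⁻¹ y : kˣ) : k) = ω ^ 2 := by
    rw [MonoidHom.inv_apply, hom]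
    apply mul_left_cancel₀ hω0
    rw [← pow_succ', hω3]
    exact Units.mul_inv (Units.mk0 ω hω0)
  have hext : ∀ χ χ' : E →* kˣ, ((χ y : kˣ) : k) = ((χ' y : kˣ) : k) → χ = χ' := by
    intro χ χ' h
    have h1 : χ y = χ' y := Units.ext h
    ext x
    rcases hEu x with h | h | h
    · rw [h, map_one, map_one]
    · rw [h, h1]
    · rw [h, map_pow, map_pow, h1]
  have hω4 : (ω ^ 2) ^ 2 = ω := by linear_combination ω * hω3
  have tw1 : ∀ (V : Type) [AddCommGroup V] [Module k V] (σ : Representation k (Z ⋊[θ] E) V)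
      (y' : E) (v : V), σ (.inr y') (zo σ (FB_c a b c ω) v) =
        ((om y' : kˣ) : k) • zo σ (FB_c a b c ω) (σ (.inr y') v) :=
    fun V _ _ σ y' v => FB_tw D σ hω3 om hom' y' v
  have tw2 : ∀ (V : Type) [AddCommGroup V] [Module k V] (σ : Representation k (Z ⋊[θ] E) V)
      (y' : E) (v : V), σ (.inr y') (zo σ (FB_c a b c (ω ^ 2)) v) =
        ((om⁻¹ y' : kˣ) : k) • zo σ (FB_c a b c (ω ^ 2)) (σ (.inr y') v) :=
    fun V _ _ σ y' v => FB_tw D σ hω23 om⁻¹ hominv y' v
  refine ⟨⟨om, FB_c a b c ω, FB_c a b c (ω ^ 2), tw1, tw2, ?_, ?_, ?_, ?_, ?_, ?_, ?_, ?_⟩⟩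
  · intro V _ _ σ v
    rw [FB_zc D, FB_zc D, map_add, map_add, map_smul, map_smul, map_add, map_add, map_smul,
      map_smul, map_add, map_add, map_smul, map_smul]
    simp only [FB_mm, D.aa, D.bb, D.cc, D.ab, D.bc, D.ca, mul_comm b a, mul_comm c b,
      mul_comm a c, map_one, Module.End.one_apply]
    linear_combination (norm := module) ((ω ^ 2 - ω + 1) * hω) • v + (ω ^ 2 * two) • σ (.inl c) v +
      (ω * two) • σ (.inl b) v + (ω ^ 3 * two) • σ (.inl a) v
  · intro V _ _ σ v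
    rw [FB_zc D, FB_zc D, map_add, map_add, map_smul, map_smul, map_add, map_add, map_smul,
      map_smul, map_add, map_add, map_smul, map_smul]
    simp only [FB_mm, D.aa, D.bb, D.cc, D.ab, D.bc, D.ca, mul_comm b a, mul_comm c b,
      mul_comm a c, map_one, Module.End.one_apply, hω4]
    linear_combination (norm := module) ((ω ^ 2 - ω + 1) * hω) • v + (ω * two) • σ (.inl c) v +
      (ω ^ 2 * two) • σ (.inl b) v + (ω ^ 3 * two) • σ (.inl a) v
  · intro V _ _ σ v
    rw [FB_nz D, FB_zc D, FB_zc D, map_add, map_add, map_smul, map_smul, map_add, map_add,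
      map_smul, map_smul, map_add, map_add, map_smul, map_smul]
    simp only [FB_mm, D.aa, D.bb, D.cc, D.ab, D.bc, D.ca, mul_comm b a, mul_comm c b,
      mul_comm a c, map_one, Module.End.one_apply, hω4]
    linear_combination (norm := module) (2 * hω3 + two) • v + (hω - two) • σ (.inl c) v +
      (hω - two) • σ (.inl b) v + ((ω ^ 2 - ω + 1) * hω - two) • σ (.inl a) v
  · intro V _ _ σ v
    rw [FB_nz D, FB_zc D, FB_zc D, map_add, map_add, map_smul, map_smul, map_add, map_add,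
      map_smul, map_smul, map_add, map_add, map_smul, map_smul]
    simp only [FB_mm, D.aa, D.bb, D.cc, D.ab, D.bc, D.ca, mul_comm b a, mul_comm c b,
      mul_comm a c, map_one, Module.End.one_apply, hω4]
    linear_combination (norm := module) (2 * hω3 + two) • v + (hω - two) • σ (.inl c) v +
      (hω - two) • σ (.inl b) v + ((ω ^ 2 - ω + 1) * hω - two) • σ (.inl a) v
  · intro z
    rcases hZu z with h | h | h | h
    · refine ⟨0, 0, 0, fun V _ _ σ v => ?_⟩
      rw [h, map_one, map_one, Module.End.one_apply, zero_smul, zero_smul, zero_smul, add_zero,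
        add_zero, add_zero]
    · refine ⟨1, 1, 1, fun V _ _ σ v => ?_⟩
      rw [h, FB_nz D, FB_zc D, FB_zc D, hω4]
      linear_combination (norm := module) (-two) • v + (-two) • σ (.inl a) v + (-hω) • σ (.inl b) v +
        (-hω) • σ (.inl c) v
    · refine ⟨ω, ω ^ 2, 1, fun V _ _ σ v => ?_⟩
      rw [h, FB_nz D, FB_zc D, FB_zc D, hω4]
      linear_combination (norm := module) (-two) • v + (-hω) • σ (.inl a) v +
        (-2 * hω3 - two) • σ (.inl b) v + (-(ω ^ 2 - ω + 1) * hω) • σ (.inl c) v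
    · refine ⟨ω ^ 2, ω, 1, fun V _ _ σ v => ?_⟩
      rw [h, FB_nz D, FB_zc D, FB_zc D, hω4]
      linear_combination (norm := module) (-two) • v + (-hω) • σ (.inl a) v +
        (-(ω ^ 2 - ω + 1) * hω) • σ (.inl b) v + (-2 * hω3 - two) • σ (.inl c) v
  · refine ⟨y, fun h => hω1 ?_⟩
    rw [← hom', h, Units.val_one]
  · refine hext _ _ ?_
    rw [MonoidHom.mul_apply, Units.val_mul, hom', hominv, pow_two]
  · intro χ
    have h1 : ((χ y : kˣ) : k) ^ 3 = 1 := by
      rw [← Units.val_pow_eq_pow_val, ← map_pow, hy3, map_one, Units.val_one]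
    have h2 : (((χ y : kˣ) : k) - 1) * ((((χ y : kˣ) : k) - ω) * (((χ y : kˣ) : k) - ω ^ 2)) =
        0 := by
      linear_combination h1 - (((χ y : kˣ) : k) ^ 2 - ((χ y : kˣ) : k) * ω) * hω - hω3
    rcases mul_eq_zero.1 h2 with h | h
    · left
      refine hext _ _ ?_
      rw [MonoidHom.one_apply, Units.val_one]
      exact sub_eq_zero.1 h
    · rcases mul_eq_zero.1 h with h | h
      · right; left
        refine hext _ _ ?_
        rw [hom']
        exact sub_eq_zero.1 h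
      · right; right
        refine hext _ _ ?_
        rw [hominv]
        exact sub_eq_zero.1 h

end Ex

section Basic

variable {k Z E V : Type} [Field k] [CommGroup Z] [Fintype Z] [CommGroup E] [Fintype E]
  {θ : E →* MulAut Z} [AddCommGroup V] [Module k V] (G : G4 k θ)
  {σ : Representation k (Z ⋊[θ] E) V}

omit [Fintype E] in
private theorem FC_zo (c : Z → k) (v : V) : zo σ c v = ∑ z : Z, c z • σ (.inl z) v := by
  rw [zo, LinearMap.sum_apply]
  rfl

/-- MODULE FC. PROOF. `pol`. -/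
theorem G4.fix_iff {v : V} : (∀ z : Z, σ (.inl z) v = v) ↔ zo σ G.c₁ v = 0 ∧ zo σ G.c₂ v = 0 := by
  constructor
  · intro h
    have h1 : ∀ c : Z → k, zo σ c v = (∑ z : Z, c z) • v := by
      intro c
      rw [FC_zo, Finset.sum_smul]
      exact Finset.sum_congr rfl fun z _ => by rw [h z]
    have h2 : ∀ s : k, s • s • v = 0 → s • v = 0 := by
      intro s hs
      by_cases h3 : s = 0
      · rw [h3, zero_smul]
      · exact (smul_eq_zero_iff_right h3).1 hs
    constructor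
    · have h3 := G.sq₁ V σ v
      rw [h1 G.c₁, map_smul, h1 G.c₁] at h3
      rw [h1 G.c₁]
      exact h2 _ h3
    · have h3 := G.sq₂ V σ v
      rw [h1 G.c₂, map_smul, h1 G.c₂] at h3
      rw [h1 G.c₂]
      exact h2 _ h3
  · rintro ⟨h1, h2⟩ z
    obtain ⟨α, β, γ, h⟩ := G.pol z
    have h3 : NZ σ v = 0 := by rw [← G.x₁₂ V σ v, h2, map_zero]
    rw [h V σ v, h1, h2, h3, smul_zero, smul_zero, smul_zero, add_zero, add_zero, add_zero]

/-- MODULE FC. An operator which commutes with `X₁`, `X₂` and the `σ(inr y)` is equivariant. PROOF. It commutes with `NZ = X₁ X₂`, so with all `σ(inl z)` (`pol`);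
`g = inl g.left * inr g.right`. -/
theorem G4.eqv_of {W : Type} [AddCommGroup W] [Module k W] {τ : Representation k (Z ⋊[θ] E) W}
    {f : V →ₗ[k] W} (h₁ : ∀ v, f (zo σ G.c₁ v) = zo τ G.c₁ (f v))
    (h₂ : ∀ v, f (zo σ G.c₂ v) = zo τ G.c₂ (f v))
    (h₃ : ∀ (y : E) v, f (σ (.inr y) v) = τ (.inr y) (f v)) : Eqv σ τ f := by
  intro g v
  have h4 : ∀ v, f (NZ σ v) = NZ τ (f v) := by
    intro v
    rw [← G.x₁₂ V σ v, h₁, h₂, G.x₁₂ W τ]
  have h5 : ∀ (z : Z) v, f (σ (.inl z) v) = τ (.inl z) (f v) := by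
    intro z v
    obtain ⟨α, β, γ, h⟩ := G.pol z
    rw [h V σ v, h W τ (f v), map_add, map_add, map_add, map_smul, map_smul, map_smul, h₁, h₂, h4]
  have h6 : g = .inl g.left * .inr g.right := (SemidirectProduct.inl_left_mul_inr_right g).symm
  rw [h6, map_mul, map_mul, Module.End.mul_apply, Module.End.mul_apply, h5, h₃]

/-- MODULE FC. An equivariant map commutes with the `zo`. -/
theorem zo_eqv {W : Type} [AddCommGroup W] [Module k W] {τ : Representation k (Z ⋊[θ] E) W}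
    {f : V →ₗ[k] W} (hf : Eqv σ τ f) (c : Z → k) (v : V) : f (zo σ c v) = zo τ c (f v) := by
  rw [FC_zo, FC_zo, map_sum]
  exact Finset.sum_congr rfl fun z _ => by rw [map_smul, hf]

/-- MODULE FC. A stable subspace is stable under `zo`. -/
theorem zo_mem {U : Submodule k V} (hU : ∀ z : Z, ∀ v ∈ U, σ (.inl z) v ∈ U) (c : Z → k) {v : V}
    (hv : v ∈ U) : zo σ c v ∈ U := by
  rw [FC_zo]
  exact Submodule.sum_mem _ fun z _ => Submodule.smul_mem _ _ (hU z v hv)

/-- MODULE FD. Vectors of different weights: if `c v = v'`.. a weight vector of two different weights is zero. -/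
theorem wt_zero {v : V} {χ χ' : E →* kˣ} (h : ∀ y, σ (.inr y) v = ((χ y : kˣ) : k) • v)
    (h' : ∀ y, σ (.inr y) v = ((χ' y : kˣ) : k) • v) (hne : χ ≠ χ') : v = 0 := by
  have h1 : ∃ y, χ y ≠ χ' y := by
    by_contra hcon
    push Not at hcon
    exact hne (MonoidHom.ext hcon)
  obtain ⟨y, hy⟩ := h1
  have h2 : (((χ y : kˣ) : k) - ((χ' y : kˣ) : k)) • v = 0 := by
    rw [sub_smul, ← h, ← h', sub_self]
  exact (smul_eq_zero_iff_right (sub_ne_zero.2 fun h3 => hy (Units.ext h3))).1 h2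

/-- MODULE FD. A functional of weight `χ` vanishes on a stable subspace without vectors of weight `χ`. PROOF. For `u ∈ U` the vector
`u' = |E|⁻¹ ∑_y χ(y)⁻¹ σ(inr y) u ∈ U` has weight `χ`, so it is `0`, and `f u' = f u`. -/
theorem func_zero (hE : (Fintype.card E : k) ≠ 0) {U : Submodule k V}
    (hU : ∀ (y : E), ∀ v ∈ U, σ (.inr y) v ∈ U) {χ : E →* kˣ}
    (h0 : ∀ v ∈ U, (∀ y, σ (.inr y) v = ((χ y : kˣ) : k) • v) → v = 0) {f : V →ₗ[k] k}
    (hf : ∀ y, ∀ v ∈ U, f (σ (.inr y) v) = ((χ y : kˣ) : k) * f v) {u : V} (hu : u ∈ U) :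
    f u = 0 := by
  have h1 : (∑ y : E, (((χ y)⁻¹ : kˣ) : k) • σ (.inr y) u) ∈ U :=
    Submodule.sum_mem _ fun y _ => Submodule.smul_mem _ _ (hU y u hu)
  have h2 : ∀ y', σ (.inr y') (∑ y : E, (((χ y)⁻¹ : kˣ) : k) • σ (.inr y) u) =
      ((χ y' : kˣ) : k) • ∑ y : E, (((χ y)⁻¹ : kˣ) : k) • σ (.inr y) u := by
    intro y'
    rw [map_sum, Finset.smul_sum]
    refine Fintype.sum_equiv (Equiv.mulLeft y') _ _ fun y => ?_
    rw [map_smul, Equiv.coe_mulLeft, map_mul χ, map_mul SemidirectProduct.inr, map_mul σ,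
      Module.End.mul_apply, smul_smul]
    congr 1
    rw [mul_inv, Units.val_mul, ← mul_assoc, Units.mul_inv, one_mul]
  have h3 := h0 _ h1 h2
  have h4 : f (∑ y : E, (((χ y)⁻¹ : kˣ) : k) • σ (.inr y) u) = (Fintype.card E : k) * f u := by
    rw [map_sum]
    have h5 : ∀ y ∈ (Finset.univ : Finset E), f ((((χ y)⁻¹ : kˣ) : k) • σ (.inr y) u) = f u := by
      intro y _
      rw [map_smul, hf y u hu, smul_eq_mul, ← mul_assoc, Units.inv_mul, one_mul]
    rw [Finset.sum_congr rfl h5, Finset.sum_const, Finset.card_univ, nsmul_eq_mul]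
  rw [h3, map_zero] at h4
  exact (mul_eq_zero.1 h4.symm).resolve_left hE

/-- MODULE FD. The weight of `X₁ v`. -/
theorem G4.wt₁ {v : V} {χ : E →* kˣ} (h : ∀ y, σ (.inr y) v = ((χ y : kˣ) : k) • v) (y : E) :
    σ (.inr y) (zo σ G.c₁ v) = (((χ * G.om) y : kˣ) : k) • zo σ G.c₁ v := by
  rw [G.tw₁ V σ y v, h y, map_smul, smul_smul, MonoidHom.mul_apply, Units.val_mul, mul_comm]

/-- MODULE FD. The weight of `X₂ v`. -/
theorem G4.wt₂ {v : V} {χ : E →* kˣ} (h : ∀ y, σ (.inr y) v = ((χ y : kˣ) : k) • v) (y : E) :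
    σ (.inr y) (zo σ G.c₂ v) = (((χ * G.om⁻¹) y : kˣ) : k) • zo σ G.c₂ v := by
  rw [G.tw₂ V σ y v, h y, map_smul, smul_smul, MonoidHom.mul_apply, Units.val_mul, mul_comm]

end Basic

section Dec

variable {k Z E V : Type} [Field k] [CommGroup Z] [Fintype Z] [CommGroup E] [Fintype E]
  {θ : E →* MulAut Z} [AddCommGroup V] [Module k V] {σ : Representation k (Z ⋊[θ] E) V}

/-- MODULE FE. THE RADICAL OF THE CORE IS FIXED. PROOF. For `NZ v = 0`: `X_i X_j v` is `0` (`sq₁`, `sq₂`) or `NZ v = 0`; `z u - u = α X₁ u + β X₂ u + γ NZ u` (`pol`), and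
`X₁ u`, `X₂ u` are fixed (`fix_iff`). Elements of `ker q` satisfy `NZ u = 0` (`S.qN`), `ker q` is stable (`q_stab`). -/
theorem Spt.RZ_le (G : G4 k θ) (S : Spt σ) :
    RZ σ (LinearMap.ker S.q) ≤ FZ σ ⊓ LinearMap.ker S.q := by
  rw [RZ, Submodule.span_le]
  rintro x ⟨z, u, hu, rfl⟩
  have hu' : S.q u = 0 := hu
  have hN : NZ σ u = 0 := S.qN u hu'
  refine ⟨?_, ?_⟩
  · obtain ⟨α, β, γ, h⟩ := G.pol z
    have h1 : ∀ z' : Z, σ (.inl z') (zo σ G.c₁ u) = zo σ G.c₁ u := by
      rw [G.fix_iff]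
      exact ⟨G.sq₁ V σ u, by rw [G.x₂₁ V σ u, hN]⟩
    have h2 : ∀ z' : Z, σ (.inl z') (zo σ G.c₂ u) = zo σ G.c₂ u := by
      rw [G.fix_iff]
      exact ⟨by rw [G.x₁₂ V σ u, hN], G.sq₂ V σ u⟩
    intro z'
    have h3 : σ (.inl z) u - u = α • zo σ G.c₁ u + β • zo σ G.c₂ u := by
      rw [h V σ u, hN, smul_zero, add_zero, add_assoc, add_sub_cancel_left]
    rw [h3, map_add, map_smul, map_smul, h1, h2]
  · have h1 : S.q (σ (.inl z) u) = 0 := S.q_stab _ hu'
    show S.q (σ (.inl z) u - u) = 0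
    rw [map_sub, h1, hu', sub_zero]

omit [Fintype Z] [Fintype E] in
private theorem FF_sw (σ : Representation k (Z ⋊[θ] E) V)
    (y : E) (z : Z) (v : V) : σ (.inr y) (σ (.inl z) v) = σ (.inl (θ y z)) (σ (.inr y) v) := by
  rw [← Module.End.mul_apply, ← Module.End.mul_apply, ← map_mul, ← map_mul,
    SemidirectProduct.inl_aut, map_inv, inv_mul_cancel_right]

/-- MODULE FF. THE FIXED POINTS OF THE CORE ARE IN THE RADICAL, unless the core has dimension one. PROOF. Suppose `U = FZ σ ⊓ ker q` is not contained in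
`K₀ = RZ σ (ker q)`. Both are `E`-stable; `weight_outside`: `w ∈ U`, `w ∉ K₀`, weight `χ`. `exists_func` for `σ`, `K = K₀ ⊔ range (fd σ w)`: `w ∉ K` (if `w = r + fd x`, apply `q`:
`0 = q r + x = x`, `r ∈ ker q`). So `f w = 1`, `f K = 0`, `f` of weight `χ`. `π v = f(v) w` is equivariant: `f(z v) = f(v)` as `z v - v ∈ K` (`v = pr v + fd (q v)`,
`z (pr v) - pr v ∈ K₀`, the range of `fd` is stable), `z w = w`. `π` is idempotent, not `0`, with values in `ker q`. `idem_all`: `π u = u` on `ker q`, so `ker q` is spanned by `w`,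
and `finrank V = n |Z| + 1` (`finrank_eq`), `n = finrank (range NZ)`. -/
theorem Spt.FZ_le [IsAlgClosed k] {p r : ℕ} (hp : p.Prime) (hch : CharP k p)
    (hcard : Fintype.card Z = p ^ r) (hE : (Fintype.card E : k) ≠ 0) [FiniteDimensional k V]
    (hst : Hst σ) (S : Spt σ)
    (h1 : Module.finrank k V ≠ Module.finrank k (LinearMap.range (NZ σ)) * Fintype.card Z + 1) :
    FZ σ ⊓ LinearMap.ker S.q ≤ RZ σ (LinearMap.ker S.q) := by
  by_contra hcon
  have hq0 : ∀ v, v ∈ LinearMap.ker S.q ↔ S.q v = 0 := fun v => LinearMap.mem_ker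
  have hK0 : RZ σ (LinearMap.ker S.q) ≤ LinearMap.ker S.q := by
    rw [RZ, Submodule.span_le]
    rintro x ⟨z, u, hu, rfl⟩
    show S.q (σ (.inl z) u - u) = 0
    rw [map_sub, S.q_stab _ ((hq0 u).1 hu), (hq0 u).1 hu, sub_zero]
  have hU : ∀ (y : E), ∀ v ∈ FZ σ ⊓ LinearMap.ker S.q,
      (σ.comp (SemidirectProduct.inr : E →* Z ⋊[θ] E)) y v ∈ FZ σ ⊓ LinearMap.ker S.q := by
    rintro y v ⟨hv1, hv2⟩
    refine ⟨fun z => ?_, S.q_stab _ hv2⟩
    show σ (.inl z) (σ (.inr y) v) = σ (.inr y) v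
    have h2 : z = θ y ((θ y).symm z) := ((θ y).apply_symm_apply z).symm
    rw [h2, ← FF_sw, hv1]
  obtain ⟨w, hwU, hwK, χ, hχ⟩ := weight_outside hE
    (σ.comp (SemidirectProduct.inr : E →* Z ⋊[θ] E)) hU hcon
  have hχ' : ∀ y, σ (.inr y) w = ((χ y : kˣ) : k) • w := hχ
  have hqw : S.q w = 0 := hwU.2
  have hfix : ∀ z : Z, σ (.inl z) w = w := hwU.1
  have hwK' : w ∉ RZ σ (LinearMap.ker S.q) ⊔ LinearMap.range (fd σ S.w) := by
    intro h
    obtain ⟨r', hr, x', ⟨x, rfl⟩, hx⟩ := Submodule.mem_sup.1 h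
    have h1 : S.q w = x := by
      rw [← hx, map_add, S.qf, (hq0 r').1 (hK0 hr), zero_add]
    rw [hqw] at h1
    rw [← h1, map_zero, add_zero] at hx
    exact hwK (hx ▸ hr)
  have hKst : ∀ (y : E), ∀ v ∈ RZ σ (LinearMap.ker S.q) ⊔ LinearMap.range (fd σ S.w),
      σ (.inr y) v ∈ RZ σ (LinearMap.ker S.q) ⊔ LinearMap.range (fd σ S.w) := by
    intro y v hv
    obtain ⟨r', hr, x', ⟨x, rfl⟩, rfl⟩ := Submodule.mem_sup.1 hv
    rw [map_add]
    refine Submodule.add_mem_sup ?_ ?_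
    · refine Submodule.span_induction (p := fun r _ => σ (.inr y) r ∈ RZ σ (LinearMap.ker S.q))
        ?_ ?_ ?_ ?_ hr
      · rintro a ⟨z, u, hu, rfl⟩
        rw [map_sub, FF_sw]
        exact Submodule.subset_span ⟨θ y z, σ (.inr y) u, S.q_stab _ hu, rfl⟩
      · rw [map_zero]; exact Submodule.zero_mem _
      · intro a b _ _ ha hb
        rw [map_add]; exact Submodule.add_mem _ ha hb
      · intro c a _ ha
        rw [map_smul]; exact Submodule.smul_mem _ _ ha
    · exact ⟨tw θ S.χ k (.inr y) x, fd_eqv σ S.ev _ x⟩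
  obtain ⟨f, hfw, hfK, hfχ⟩ := exists_func hE σ hKst hwK' hχ'
  have hfz : ∀ (z : Z) v, f (σ (.inl z) v) = f v := by
    intro z v
    have h1 : σ (.inl z) v - v ∈ RZ σ (LinearMap.ker S.q) ⊔ LinearMap.range (fd σ S.w) := by
      have h2 : σ (.inl z) v - v = (σ (.inl z) (S.pr v) - S.pr v) +
          (σ (.inl z) (fd σ S.w (S.q v)) - fd σ S.w (S.q v)) := by
        rw [S.pr_apply, map_sub]
        abel
      rw [h2]
      refine Submodule.add_mem_sup (Submodule.subset_span ⟨z, S.pr v, S.q_pr v, rfl⟩) ?_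
      exact Submodule.sub_mem _ ⟨tw θ S.χ k (.inl z) (S.q v), fd_eqv σ S.ev _ _⟩ ⟨_, rfl⟩
    have h3 := hfK _ h1
    rw [map_sub] at h3
    exact sub_eq_zero.1 h3
  have hπe : Eqv σ σ (f.smulRight w) := by
    intro g v
    have h6 : g = .inl g.left * .inr g.right := (SemidirectProduct.inl_left_mul_inr_right g).symm
    rw [h6, map_mul, Module.End.mul_apply, Module.End.mul_apply, LinearMap.smulRight_apply,
      LinearMap.smulRight_apply, hfz, hfχ, map_smul, map_smul, hχ', map_smul, hfix, smul_smul,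
      mul_comm]
  have hw0 : w ≠ 0 := fun h => hwK (h ▸ Submodule.zero_mem _)
  have hall := idem_all hp hch hcard hst S hπe
    (fun v => by
      show f (f v • w) • w = f v • w
      rw [map_smul, hfw, smul_eq_mul, mul_one])
    (fun h => hw0 (by
      have h1 := LinearMap.congr_fun h w
      rw [LinearMap.smulRight_apply, hfw, one_smul] at h1
      exact h1))
    (fun v => by rw [LinearMap.smulRight_apply, map_smul, hqw, smul_zero])
  apply h1
  have h2 : LinearMap.ker S.q = Submodule.span k {w} := by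
    apply le_antisymm
    · intro u hu
      rw [Submodule.mem_span_singleton]
      exact ⟨f u, by
        have h3 := hall u hu
        rw [LinearMap.smulRight_apply] at h3
        exact h3⟩
    · rw [Submodule.span_le, Set.singleton_subset_iff]
      exact hqw
  rw [S.finrank_eq, S.finrank_NZ, h2, finrank_span_singleton hw0]

/-- MODULE FG. THE DECREASE. PROOF. `S` from `exists_spt`; `n = finrank (range NZ)` (`finrank_NZ`), `d = finrank (ker q)`, `s = finrank (FZ ⊓ ker q) = finrank (RZ (ker q))` by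
`RZ_le`, `FZ_le`. `finrank V = 4 n + d`, `finrank FZ = n + s`, `finrank (RZ ⊤) = 3 n + s`; `d` is odd, so `2 s < d` or `d < 2 s` (`omega`). -/
theorem key_dec [IsAlgClosed k] (G : G4 k θ) (hch : CharP k 2) (hZ : Fintype.card Z = 4)
    (hE : (Fintype.card E : k) ≠ 0) [FiniteDimensional k V] (hst : Hst σ)
    (hodd : Odd (Module.finrank k V))
    (h1 : Module.finrank k V ≠ 4 * Module.finrank k (LinearMap.range (NZ σ)) + 1) :
    4 * Module.finrank k (FZ σ) + 4 * Module.finrank k (LinearMap.range (NZ σ)) <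
        2 * Module.finrank k V ∨
      2 * Module.finrank k V + 4 * Module.finrank k (LinearMap.range (NZ σ)) <
        4 * Module.finrank k (RZ σ ⊤) := by
  have hp : (2 : ℕ).Prime := Nat.prime_two
  have hcard : Fintype.card Z = 2 ^ 2 := by rw [hZ]; norm_num
  obtain ⟨S⟩ := exists_spt hp hch hcard hE σ
  have e1 := S.finrank_eq
  have e2 := S.finrank_NZ
  have e3 := S.finrank_FZ
  have e4 := S.finrank_RZ
  have h2 : Module.finrank k V ≠
      Module.finrank k (LinearMap.range (NZ σ)) * Fintype.card Z + 1 := by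
    rw [hZ, mul_comm]
    exact h1
  have e5 : RZ σ (LinearMap.ker S.q) = FZ σ ⊓ LinearMap.ker S.q :=
    le_antisymm (Spt.RZ_le G S) (Spt.FZ_le hp hch hcard hE hst S h2)
  rw [e5] at e4
  rw [hZ] at e1 e4
  rw [e2]
  obtain ⟨t, ht⟩ := hodd
  omega

end Dec

end Pool.Agent.DDV
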