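import Pool.Agent.FbT.Defs

/-!
# DDV, part Om: the endotrivial representation on the augmentation ideal

`Z` a finite commutative group, `E` a commutative group acting on `Z`. `e : Fin m ≃ {z // z ≠ 1}` (so `m = |Z| - 1`). The
augmentation ideal `I` of `R[Z]` has the basis `z - 1`, `z ≠ 1`; `g = (z₀, y)` acts by
`g (z - 1) = (z₀ θ_y(z) - 1) - (z₀ - 1)`.
-/

set_option autoImplicit false

namespace Pool.Agent.DDV

open Pool.Agent.Sig Pool.Agent.DD

open scoped Matrix

/-- A twisting datum: an endotrivial matrix representation of `Z ⋊ E` whose trace on `Z` is constant (in `k`) and not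
zero. -/
structure TwK (k : Type) [Field k] {Z E : Type} [CommGroup Z] [Fintype Z] [CommGroup E] [Fintype E]
    (θ : E →* MulAut Z) (m : ℕ) where
  r : (Z ⋊[θ] E) →* Matrix (Fin m) (Fin m) k
  γ : Matrix (Fin m) (Fin m) k →ₗ[k] Matrix (Fin m) (Fin m) k
  card : (m : k) ≠ 0
  tr : ∀ z : Z, (r (.inl z)).trace = m
  proj : ∀ T : Matrix (Fin m) (Fin m) k, T - ((m : k)⁻¹ * T.trace) • (1 : Matrix (Fin m) (Fin m) k) =
    ∑ u : Z, r (.inl u) * γ (r (.inl u⁻¹) * T * r (.inl u)) * r (.inl u⁻¹)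

section Om

variable {Z E : Type} [CommGroup Z] [CommGroup E] [DecidableEq Z] {m : ℕ}

/-- The coordinates of `z - 1`. -/
def ev (R : Type) [CommRing R] (e : Fin m ≃ {z : Z // z ≠ 1}) (z : Z) : Fin m → R := fun i =>
  if ((e i : {z : Z // z ≠ 1}) : Z) = z then 1 else 0

/-- The matrix of `g` on the augmentation ideal. -/
def omM (R : Type) [CommRing R] (θ : E →* MulAut Z) (e : Fin m ≃ {z : Z // z ≠ 1})
    (g : Z ⋊[θ] E) : Matrix (Fin m) (Fin m) R :=
  Matrix.of fun i j => ev R e (g.left * θ g.right (e j : {z : Z // z ≠ 1})) i - ev R e g.left i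

variable {R : Type} [CommRing R] {θ : E →* MulAut Z} {e : Fin m ≃ {z : Z // z ≠ 1}}

/-- MODULE OA. `ev R e 1 = 0`. -/
theorem ev_one : ev R e (1 : Z) = 0 := by
  funext i
  exact if_neg (e i).2

/-- MODULE OA. For `z ≠ 1`, `ev R e z` is the unit vector at `e.symm z` (`Pi.single`). -/
theorem ev_ne {z : Z} (hz : z ≠ 1) : ev R e z = Pi.single (e.symm ⟨z, hz⟩) 1 := by
  funext i
  simp only [ev, Pi.single_apply]
  refine if_congr ?_ rfl rfl
  rw [Equiv.eq_symm_apply, Subtype.ext_iff]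

/-- MODULE OA. `g (z - 1) = (z₀ θ_y(z) - 1) - (z₀ - 1)`. PROOF. `z = 1`: both sides are `0` (`ev_one`). `z ≠ 1`: `ev R e z` is
a unit vector (`ev_ne`), the left hand side is a column of `omM`. -/
theorem omM_ev (g : Z ⋊[θ] E) (z : Z) :
    omM R θ e g *ᵥ ev R e z = ev R e (g.left * θ g.right z) - ev R e g.left := by
  by_cases hz : z = 1
  · subst hz
    rw [ev_one, Matrix.mulVec_zero, map_one, mul_one, sub_self]
  · rw [ev_ne hz, Matrix.mulVec_single_one]
    funext i
    simp only [Matrix.col_apply, omM, Matrix.of_apply, Equiv.apply_symm_apply, Pi.sub_apply]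

/-- MODULE OA. Two matrices with the same products with all `ev R e z`, `z ≠ 1`, are equal (columns). -/
theorem mat_ext {M N : Matrix (Fin m) (Fin m) R}
    (h : ∀ z : Z, z ≠ 1 → M *ᵥ ev R e z = N *ᵥ ev R e z) : M = N := by
  refine Matrix.ext_col fun j => ?_
  have h1 := h (e j : {z : Z // z ≠ 1}) (e j).2
  rw [ev_ne (e j).2] at h1
  simpa only [Subtype.coe_eta, Equiv.symm_apply_apply, Matrix.mulVec_single_one] using h1

/-- MODULE OA. -/
theorem omM_one : omM R θ e 1 = 1 := by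
  refine mat_ext (e := e) fun z _ => ?_
  rw [omM_ev, Matrix.one_mulVec, SemidirectProduct.one_left, SemidirectProduct.one_right, map_one,
    one_mul, ev_one, sub_zero, MulAut.one_apply]

/-- MODULE OA. PROOF. `mat_ext`, `omM_ev`: `g h z = g.left θ_g(h.left θ_h z)`; the terms `ev (g.left)` cancel. -/
theorem omM_mul (g h : Z ⋊[θ] E) : omM R θ e (g * h) = omM R θ e g * omM R θ e h := by
  refine mat_ext (e := e) fun z _ => ?_
  rw [omM_ev, ← Matrix.mulVec_mulVec, omM_ev, Matrix.mulVec_sub, omM_ev, omM_ev,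
    SemidirectProduct.mul_left, SemidirectProduct.mul_right, map_mul, map_mul, MulAut.mul_apply,
    mul_assoc, sub_sub_sub_cancel_right]

variable (R θ e) in
/-- The representation on the augmentation ideal. -/
def om : (Z ⋊[θ] E) →* Matrix (Fin m) (Fin m) R where
  toFun := omM R θ e
  map_one' := omM_one
  map_mul' := omM_mul

theorem om_apply (g : Z ⋊[θ] E) : om R θ e g = omM R θ e g := rfl

/-- MODULE OA. -/
theorem om_map {R' : Type} [CommRing R'] (f : R →+* R') (g : Z ⋊[θ] E) :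
    (om R θ e g).map f = om R' θ e g := by
  ext i j
  simp only [Matrix.map_apply, om_apply, omM, Matrix.of_apply, ev, map_sub, apply_ite f, map_one,
    map_zero]

private theorem OB_sum {z : Z} (hz : z ≠ 1) : ∑ i, ev R e z i = 1 := by
  rw [ev_ne hz, Finset.sum_pi_single']
  simp

/-- MODULE OB. The trace of `z ≠ 1`. PROOF. The diagonal entry at `i` is `[e i = z e i] - [e i = z]`, the first term is
`0`, the second is `1` exactly for `i = e.symm z`. -/
theorem om_trace {z : Z} (hz : z ≠ 1) : (om R θ e (.inl z)).trace = -1 := by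
  have h1 : ∀ i, (om R θ e (.inl z)) i i = 0 - ev R e z i := by
    intro i
    rw [om_apply]
    simp only [omM, Matrix.of_apply, SemidirectProduct.left_inl, SemidirectProduct.right_inl,
      map_one, MulAut.one_apply]
    refine congrArg (· - ev R e z i) (if_neg fun h => hz ?_)
    exact (mul_eq_right.1 h.symm)
  rw [Matrix.trace]
  simp only [Matrix.diag_apply, h1, zero_sub, Finset.sum_neg_distrib]
  rw [OB_sum hz]

/-- The correction `γ₀(T)`: all columns are equal to the diagonal of `T`. -/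
def gm (T : Matrix (Fin m) (Fin m) R) : Matrix (Fin m) (Fin m) R := Matrix.of fun i _ => T i i

private theorem OC_mv (u : Z) (v : Fin m → R) (i : Fin m) :
    (om R θ e (.inl u) *ᵥ v) i =
      (∑ l, if ((e i : {z : Z // z ≠ 1}) : Z) = u * (e l : {z : Z // z ≠ 1}) then v l else 0) -
        if ((e i : {z : Z // z ≠ 1}) : Z) = u then ∑ l, v l else 0 := by
  simp only [om_apply, omM, Matrix.mulVec, dotProduct, ev, Matrix.of_apply, sub_mul,
    Finset.sum_sub_distrib, ite_mul, zero_mul, one_mul, SemidirectProduct.left_inl,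
    SemidirectProduct.right_inl, map_one, MulAut.one_apply]
  congr 1
  split_ifs with h
  · rfl
  · simp

private theorem OC_mv1 {u : Z} {i : Fin m} (h : ((e i : {z : Z // z ≠ 1}) : Z) = u)
    (v : Fin m → R) : (om R θ e (.inl u) *ᵥ v) i = - ∑ l, v l := by
  rw [OC_mv, if_pos h, Finset.sum_eq_zero, zero_sub]
  intro l _
  refine if_neg fun h1 => (e l).2 ?_
  rw [h] at h1
  exact mul_eq_left.1 h1.symm

private theorem OC_mv2 {u : Z} {i l0 : Fin m}
    (h : ((e i : {z : Z // z ≠ 1}) : Z) = u * (e l0 : {z : Z // z ≠ 1}))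
    (v : Fin m → R) : (om R θ e (.inl u) *ᵥ v) i = v l0 := by
  rw [OC_mv, Finset.sum_eq_single l0, if_pos h, if_neg, sub_zero]
  · intro h1
    rw [h1] at h
    exact (e l0).2 (mul_eq_left.1 h.symm)
  · intro b _ hb
    refine if_neg fun h1 => hb ?_
    rw [h] at h1
    exact (e.injective (Subtype.ext (mul_left_cancel h1))).symm
  · intro h1
    exact absurd (Finset.mem_univ _) h1

private theorem OC_gm (M : Matrix (Fin m) (Fin m) R) (v : Fin m → R) :
    gm M *ᵥ v = (∑ i, v i) • Matrix.diag M := by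
  funext i
  show ∑ j, M i i * v j = (∑ j, v j) * M i i
  rw [← Finset.mul_sum, mul_comm]

private theorem OC_sum (z : Z) : ∑ i, ev R e z i = if z = 1 then 0 else 1 := by
  split_ifs with h
  · subst h
    rw [ev_one]
    simp
  · rw [ev_ne h, Finset.sum_pi_single']
    simp

/-- MODULE OC. THE AUGMENTATION IDEAL IS ENDOTRIVIAL: a matrix of trace zero is the trace of an explicit matrix. PROOF. Write
`e_z = ev R e z` (`e_1 = 0`), `r(u) = om (inl u)`, `r(u) e_z = e_(uz) - e_u`, `d_u = ∑_i (r(u⁻¹) T r(u))_ii e_(e i)` (the diagonal as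
a vector). `gm(M) *ᵥ x = (∑_j x_j) • diag M`, and `∑_j (e_z)_j = 1` for `z ≠ 1`, `0` for `z = 1`. Apply the left hand side to `e_z`,
`z ≠ 1`: `r(u⁻¹) e_z = e_(u⁻¹z) - e_(u⁻¹)`, so the sum of its coordinates is `[u ≠ z] - [u ≠ 1]`, which is `1` for `u = 1`, `-1` for
`u = z`, `0` otherwise. So the result is `d_1 - r(z) d_z`. Let `T_(x,z)` be the coordinates of `T e_z`, `x ≠ 1`. The diagonal entry
of `r(z⁻¹) T r(z)` at `w ≠ 1` is the `w`-coordinate of `r(z⁻¹) T (e_(zw) - e_z)`; as `r(z⁻¹) e_x = e_(z⁻¹x) - e_(z⁻¹)`, it is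
`T_(zw,zw) - T_(zw,z)` for `w ≠ z⁻¹`, and for `w = z⁻¹` (then `e_(zw) = 0` and the vector is `-T e_z`) it is `∑_x T_(x,z)` (the coefficient of
`-e_(z⁻¹)` in `r(z⁻¹)(-T e_z)`, the terms `e_(z⁻¹x)` contribute to `w = z⁻¹` only for `x = 1`, excluded). Hence
`r(z) d_z = ∑_(w ≠ 1, z⁻¹) (T_(zw,zw) - T_(zw,z)) (e_(zw) - e_z) - (∑_x T_(x,z)) e_z`, i.e. with `x = zw`:
`= ∑_(x ≠ 1, z) (T_xx - T_xz) e_x - (∑_(x ≠ 1, z) (T_xx - T_xz) + ∑_(x ≠ 1) T_xz) e_z = ∑_(x ≠ 1, z) (T_xx - T_xz) e_x - tr(T) e_z`.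
With `tr T = 0`: `d_1 - r(z) d_z = ∑_x T_xx e_x - ∑_(x ≠ z) (T_xx - T_xz) e_x = T_zz e_z + ∑_(x ≠ z) T_xz e_x = T e_z`. (Conceptually:
`T = ∑_u x_u ⊗ ū` in `I ⊗ R[Z]/(N)`, normalised by `(x_u)_u = 0`; then the coordinates at `u` are those at `1` translated.) -/
theorem om_proj [Fintype Z] (T : Matrix (Fin m) (Fin m) R) (hT : T.trace = 0) :
    ∑ u : Z, om R θ e (.inl u) * gm (om R θ e (.inl u⁻¹) * T * om R θ e (.inl u)) *
      om R θ e (.inl u⁻¹) = T := by
  have hr : ∀ (u z : Z), om R θ e (.inl u) *ᵥ ev R e z = ev R e (u * z) - ev R e u := by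
    intro u z
    rw [om_apply, omM_ev, SemidirectProduct.left_inl, SemidirectProduct.right_inl, map_one,
      MulAut.one_apply]
  refine mat_ext (e := e) fun z hz => ?_
  rw [Matrix.sum_mulVec]
  have h1 : ∀ u : Z, (om R θ e (.inl u) * gm (om R θ e (.inl u⁻¹) * T * om R θ e (.inl u)) *
      om R θ e (.inl u⁻¹)) *ᵥ ev R e z =
      (if u = 1 then (om R θ e (.inl u) *ᵥ
        Matrix.diag (om R θ e (.inl u⁻¹) * T * om R θ e (.inl u))) else 0) -
      (if u = z then (om R θ e (.inl u) *ᵥ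
        Matrix.diag (om R θ e (.inl u⁻¹) * T * om R θ e (.inl u))) else 0) := by
    intro u
    rw [← Matrix.mulVec_mulVec, hr, ← Matrix.mulVec_mulVec, OC_gm, Matrix.mulVec_smul]
    simp only [Pi.sub_apply, Finset.sum_sub_distrib, OC_sum]
    have e1 : u⁻¹ * z = 1 ↔ u = z := by rw [inv_mul_eq_one]
    have e2 : u⁻¹ = 1 ↔ u = 1 := inv_eq_one
    simp only [e1, e2]
    split_ifs <;> simp_all
  simp only [h1, Finset.sum_sub_distrib, Finset.sum_ite_eq', Finset.mem_univ, if_true]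
  have h0 : (∑ l, (om R θ e (.inl z⁻¹) * T * om R θ e (.inl z)).diag l) = 0 := by
    have h2 : (om R θ e (.inl z⁻¹) * T * om R θ e (.inl z)).trace = 0 := by
      rw [mul_assoc, Matrix.trace_mul_comm, mul_assoc, ← map_mul, ← map_mul, mul_inv_cancel,
        map_one, map_one, mul_one, hT]
    exact h2
  rw [inv_one, map_one, map_one, one_mul, mul_one, Matrix.one_mulVec, ev_ne hz,
    Matrix.mulVec_single_one]
  funext i
  rw [Pi.sub_apply, Matrix.col_apply]
  by_cases hi : ((e i : {z : Z // z ≠ 1}) : Z) = z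
  · rw [OC_mv1 hi, h0, neg_zero, sub_zero, Matrix.diag_apply]
    congr 1
    rw [Equiv.eq_symm_apply]
    exact Subtype.ext hi
  · have hw : z⁻¹ * ((e i : {z : Z // z ≠ 1}) : Z) ≠ 1 := fun h => hi (inv_mul_eq_one.1 h).symm
    have hj : ((e i : {z : Z // z ≠ 1}) : Z) =
        z * ((e (e.symm ⟨z⁻¹ * ((e i : {z : Z // z ≠ 1}) : Z), hw⟩) : {z : Z // z ≠ 1}) : Z) := by
      rw [Equiv.apply_symm_apply, mul_inv_cancel_left]
    generalize e.symm ⟨z⁻¹ * ((e i : {z : Z // z ≠ 1}) : Z), hw⟩ = j at hj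
    rw [OC_mv2 hj]
    have h3 : (om R θ e (.inl z⁻¹) * T * om R θ e (.inl z)) j j =
        (om R θ e (.inl z⁻¹) *ᵥ (T *ᵥ (om R θ e (.inl z) *ᵥ ev R e (e j)))) j := by
      rw [Matrix.mulVec_mulVec, Matrix.mulVec_mulVec, ev_ne (e j).2, Matrix.mulVec_single_one,
        Matrix.col_apply]
      simp only [Subtype.coe_eta, Equiv.symm_apply_apply, mul_assoc]
    have hj2 : ((e j : {z : Z // z ≠ 1}) : Z) = z⁻¹ * (e i : {z : Z // z ≠ 1}) := by
      rw [hj, inv_mul_cancel_left]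
    rw [Matrix.diag_apply, Matrix.diag_apply, h3, OC_mv2 hj2, hr, ← hj, ev_ne (e i).2, ev_ne hz, Matrix.mulVec_sub,
      Matrix.mulVec_single_one, Matrix.mulVec_single_one]
    simp only [Subtype.coe_eta, Equiv.symm_apply_apply, Pi.sub_apply, Matrix.col_apply,
      sub_sub_cancel]

end Om

section Tw

variable {k : Type} [Field k] {Z E : Type} [CommGroup Z] [Fintype Z] [CommGroup E] [Fintype E]
  {θ : E →* MulAut Z} {m : ℕ}

/-- MODULE OB. THE TWISTING DATUM `Ω`. PROOF. `m = |Z| - 1`, so `m = -1` in `k`. `γ T = gm (T - (m⁻¹ tr T) • 1)` (linear). `tr`: `om_trace` for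
`z ≠ 1`, `trace 1 = m` for `z = 1`. `proj`: put `T' = T - (m⁻¹ tr T) • 1`, of trace `0` (`tr 1 = m`); conjugation does not change the
trace and fixes scalars, so `r(u⁻¹) T r(u) - (m⁻¹ tr(..)) • 1 = r(u⁻¹) T' r(u)`; `om_proj` for `T'`. -/
theorem exists_omT [DecidableEq Z] (e : Fin m ≃ {z : Z // z ≠ 1})
    (hZ : (Fintype.card Z : k) = 0) : ∃ T : TwK k θ m, ∀ g, T.r g = om k θ e g := by
  have hm : m + 1 = Fintype.card Z := by
    have h := Fintype.card_congr e
    rw [Fintype.card_fin, Fintype.card_subtype_compl, Fintype.card_subtype_eq] at h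
    have h2 : 0 < Fintype.card Z := Fintype.card_pos
    omega
  have hm1 : (m : k) = -1 := by
    rw [← hm, Nat.cast_add, Nat.cast_one] at hZ
    exact eq_neg_of_add_eq_zero_left hZ
  have hm0 : (m : k) ≠ 0 := by
    rw [hm1]
    exact neg_ne_zero.2 one_ne_zero
  let γ : Matrix (Fin m) (Fin m) k →ₗ[k] Matrix (Fin m) (Fin m) k :=
    { toFun := fun T => gm (T - ((m : k)⁻¹ * T.trace) • (1 : Matrix (Fin m) (Fin m) k))
      map_add' := fun T T' => by
        ext i j
        simp only [gm, Matrix.of_apply, Matrix.sub_apply, Matrix.add_apply, Matrix.smul_apply,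
          Matrix.trace_add, smul_eq_mul]
        ring
      map_smul' := fun c T => by
        ext i j
        simp only [gm, Matrix.of_apply, Matrix.sub_apply, Matrix.smul_apply,
          Matrix.trace_smul, smul_eq_mul, RingHom.id_apply]
        ring }
  refine ⟨⟨om k θ e, γ, hm0, ?_, ?_⟩, fun g => rfl⟩
  · intro z
    by_cases hz : z = 1
    · subst hz
      rw [map_one, map_one, Matrix.trace_one, Fintype.card_fin]
    · rw [om_trace hz, hm1]
  · intro T
    have h0 : (T - ((m : k)⁻¹ * T.trace) • (1 : Matrix (Fin m) (Fin m) k)).trace = 0 := by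
      rw [Matrix.trace_sub, Matrix.trace_smul, Matrix.trace_one, Fintype.card_fin, smul_eq_mul,
        mul_right_comm, inv_mul_cancel₀ hm0, one_mul, sub_self]
    rw [← om_proj (θ := θ) (e := e) _ h0]
    refine Finset.sum_congr rfl fun u _ => ?_
    refine congrArg (fun X => om k θ e (.inl u) * X * om k θ e (.inl u⁻¹)) ?_
    refine congrArg gm ?_
    have h1 : om k θ e (.inl u⁻¹) * om k θ e (.inl u) = 1 := by
      rw [← map_mul, ← map_mul, inv_mul_cancel, map_one, map_one]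
    have h2 : om k θ e (.inl u) * om k θ e (.inl u⁻¹) = 1 := by
      rw [← map_mul, ← map_mul, mul_inv_cancel, map_one, map_one]
    have h3 : (om k θ e (.inl u⁻¹) * T * om k θ e (.inl u)).trace = T.trace := by
      rw [mul_assoc, Matrix.trace_mul_comm, mul_assoc, h2, mul_one]
    rw [h3, mul_sub, sub_mul, mul_smul_comm, smul_mul_assoc, mul_one, h1]

/-- MODULE OD. THE DUAL. PROOF. `r*(g) = (r(g⁻¹))ᵀ`, `γ*(T) = (γ(Tᵀ))ᵀ`. `proj` for `Tᵀ`, transposed:
`(r(u) γ(r(u⁻¹) Tᵀ r(u)) r(u⁻¹))ᵀ = r(u⁻¹)ᵀ γ(..)ᵀ r(u)ᵀ` and `(r(u⁻¹) Tᵀ r(u))ᵀ = r(u)ᵀ T r(u⁻¹)ᵀ`. -/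
theorem exists_dual (T : TwK k θ m) : ∃ T' : TwK k θ m, ∀ g, T'.r g = (T.r g⁻¹)ᵀ := by
  let r' : (Z ⋊[θ] E) →* Matrix (Fin m) (Fin m) k :=
    { toFun := fun g => (T.r g⁻¹)ᵀ
      map_one' := by rw [inv_one, map_one, Matrix.transpose_one]
      map_mul' := fun g h => by rw [mul_inv_rev, map_mul, Matrix.transpose_mul] }
  let tr : Matrix (Fin m) (Fin m) k →ₗ[k] Matrix (Fin m) (Fin m) k :=
    (Matrix.transposeLinearEquiv (Fin m) (Fin m) k k).toLinearMap
  refine ⟨⟨r', tr ∘ₗ T.γ ∘ₗ tr, T.card, ?_, ?_⟩, fun g => rfl⟩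
  · intro z
    show ((T.r (SemidirectProduct.inl z)⁻¹)ᵀ).trace = _
    rw [Matrix.trace_transpose, ← map_inv, T.tr]
  · intro M
    have h := congrArg Matrix.transpose (T.proj Mᵀ)
    rw [Matrix.transpose_sub, Matrix.transpose_smul, Matrix.transpose_transpose,
      Matrix.trace_transpose, Matrix.transpose_one, Matrix.transpose_sum] at h
    rw [h]
    refine Finset.sum_congr rfl fun u _ => ?_
    show _ = (T.r (SemidirectProduct.inl u)⁻¹)ᵀ *
      (T.γ ((T.r (SemidirectProduct.inl u⁻¹)⁻¹)ᵀ * M * (T.r (SemidirectProduct.inl u)⁻¹)ᵀ)ᵀ)ᵀ *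
      (T.r (SemidirectProduct.inl u⁻¹)⁻¹)ᵀ
    rw [Matrix.transpose_mul, Matrix.transpose_mul, Matrix.transpose_mul, Matrix.transpose_mul,
      Matrix.transpose_transpose, Matrix.transpose_transpose, ← map_inv, ← map_inv, inv_inv,
      mul_assoc, mul_assoc]

end Tw

end Pool.Agent.DDV
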