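import Pool.Agent.DDV.TwA

/-!
# DDV, part Rp: twisted representations

`NZ σ = ∑_z σ(z)`, `FZ σ` the fixed points of `Z`, `RZ σ U` the span of the `z u - u`, `u ∈ U`.
-/

set_option autoImplicit false

namespace Pool.Agent.DDV

open Pool.Agent.Sig Pool.Agent.DD Pool.Agent.FbT

open scoped Matrix

section Defs

variable {k Z E V : Type} [Field k] [CommGroup Z] [Fintype Z] [CommGroup E] [Fintype E]
  {θ : E →* MulAut Z} [AddCommGroup V] [Module k V]

/-- The sum of the group `Z`. -/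
noncomputable def NZ (σ : Representation k (Z ⋊[θ] E) V) : V →ₗ[k] V := ∑ z : Z, σ (.inl z)

theorem NZ_apply (σ : Representation k (Z ⋊[θ] E) V) (v : V) : NZ σ v = ∑ z : Z, σ (.inl z) v := by
  rw [NZ, LinearMap.sum_apply]

/-- The fixed points of `Z`. -/
def FZ (σ : Representation k (Z ⋊[θ] E) V) : Submodule k V where
  carrier := {v | ∀ z : Z, σ (.inl z) v = v}
  add_mem' := fun ha hb z => by rw [map_add, ha z, hb z]
  zero_mem' := fun z => map_zero _
  smul_mem' := fun c v hv z => by rw [map_smul, hv z]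

/-- The span of the `z u - u`, `u ∈ U`. -/
def RZ (σ : Representation k (Z ⋊[θ] E) V) (U : Submodule k V) : Submodule k V :=
  Submodule.span k {x | ∃ (z : Z), ∃ u ∈ U, x = σ (.inl z) u - u}

/-- The representation `r ⊗ σ` on `Fin m → V`. -/
def twR {m : ℕ} (r : (Z ⋊[θ] E) →* Matrix (Fin m) (Fin m) k) (σ : Representation k (Z ⋊[θ] E) V) :
    Representation k (Z ⋊[θ] E) (Fin m → V) where
  toFun g :=
    { toFun := fun x a => ∑ b, r g a b • σ g (x b)
      map_add' := fun x y => by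
        funext a
        simp only [Pi.add_apply, map_add, smul_add, Finset.sum_add_distrib]
      map_smul' := fun c x => by
        funext a
        simp only [Pi.smul_apply, map_smul, RingHom.id_apply, Finset.smul_sum]
        exact Finset.sum_congr rfl fun b _ => smul_comm _ _ _ }
  map_one' := by
    ext x a
    simp [Matrix.one_apply]
  map_mul' g h := by
    ext x a
    simp only [LinearMap.coe_comp, Function.comp_apply, LinearMap.coe_mk, AddHom.coe_mk,
      Module.End.mul_apply, map_mul, Matrix.mul_apply, Finset.sum_smul, map_sum, map_smul,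
      Finset.smul_sum, smul_smul]
    rw [Finset.sum_comm]

theorem twR_apply {m : ℕ} (r : (Z ⋊[θ] E) →* Matrix (Fin m) (Fin m) k)
    (σ : Representation k (Z ⋊[θ] E) V) (g : Z ⋊[θ] E) (x : Fin m → V) (a : Fin m) :
    twR r σ g x a = ∑ b, r g a b • σ g (x b) := rfl

end Defs

section Num

variable {k Z E V : Type} [Field k] [CommGroup Z] [Fintype Z] [CommGroup E] [Fintype E]
  {θ : E →* MulAut Z} [AddCommGroup V] [Module k V]

/-- MODULE RA. `NZ` commutes with the group. PROOF. `σ(g) σ(z) = σ(g z g⁻¹) σ(g)`, `g (inl z) g⁻¹ = inl (θ_(g.right) z)`; reindex. -/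
theorem NZ_comm (σ : Representation k (Z ⋊[θ] E) V) (g : Z ⋊[θ] E) (v : V) :
    NZ σ (σ g v) = σ g (NZ σ v) := by
  rw [NZ_apply, NZ_apply, map_sum, ← Equiv.sum_comp (θ g.right).toEquiv]
  refine Finset.sum_congr rfl fun z _ => ?_
  rw [← Module.End.mul_apply, ← Module.End.mul_apply, ← map_mul, ← map_mul]
  congr 2
  apply SemidirectProduct.ext
  · simp [mul_comm]
  · simp

/-- MODULE RA. -/
theorem NZ_fix (σ : Representation k (Z ⋊[θ] E) V) (z : Z) (v : V) :
    σ (.inl z) (NZ σ v) = NZ σ v := by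
  rw [NZ_apply, map_sum, ← Equiv.sum_comp (Equiv.mulLeft z) (fun z => σ (.inl z) v)]
  refine Finset.sum_congr rfl fun z _ => ?_
  rw [← Module.End.mul_apply, ← map_mul, ← map_mul]
  rfl

/-- MODULE RA. An equivariant map commutes with `NZ`. -/
theorem NZ_eqv {W : Type} [AddCommGroup W] [Module k W] {σ : Representation k (Z ⋊[θ] E) V}
    {τ : Representation k (Z ⋊[θ] E) W} {f : V →ₗ[k] W} (hf : Eqv σ τ f) (v : V) :
    f (NZ σ v) = NZ τ (f v) := by
  rw [NZ_apply, NZ_apply, map_sum]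
  exact Finset.sum_congr rfl fun z _ => hf _ _

/-- MODULE RA. Transport of the ranks. -/
theorem finrank_NZ_equiv {W : Type} [AddCommGroup W] [Module k W]
    {σ : Representation k (Z ⋊[θ] E) V} {τ : Representation k (Z ⋊[θ] E) W} (e : V ≃ₗ[k] W)
    (he : ∀ g v, e (σ g v) = τ g (e v)) : Module.finrank k (LinearMap.range (NZ σ)) =
      Module.finrank k (LinearMap.range (NZ τ)) := by
  have h1 : LinearMap.range (NZ τ) = (LinearMap.range (NZ σ)).map e.toLinearMap := by
    rw [← LinearMap.range_comp]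
    have h2 : e.toLinearMap ∘ₗ NZ σ = NZ τ ∘ₗ e.toLinearMap :=
      LinearMap.ext fun v => NZ_eqv (f := e.toLinearMap) (fun g v => he g v) v
    rw [h2, LinearMap.range_comp, LinearEquiv.range, Submodule.map_top]
  rw [h1]
  exact (LinearEquiv.finrank_eq (e.submoduleMap (LinearMap.range (NZ σ))))

omit [Fintype Z] [Fintype E] in
private theorem RB_mul (σ : Representation k (Z ⋊[θ] E) V) (a b : Z) (v : V) :
    σ (.inl (a * b)) v = σ (.inl a) (σ (.inl b) v) := by
  rw [map_mul, map_mul, Module.End.mul_apply]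

/-- The map `μ`. -/
private noncomputable def RB_mu {m : ℕ} (e : Fin m ≃ {z : Z // z ≠ 1})
    (σ : Representation k (Z ⋊[θ] E) V) : (Fin m → V) →ₗ[k] V :=
  ∑ j, (σ (.inl ((e j : {z : Z // z ≠ 1}) : Z)⁻¹) - LinearMap.id) ∘ₗ LinearMap.proj j

omit [Fintype Z] [Fintype E] in
private theorem RB_mu_apply {m : ℕ} (e : Fin m ≃ {z : Z // z ≠ 1})
    (σ : Representation k (Z ⋊[θ] E) V) (x : Fin m → V) : RB_mu e σ x =
      ∑ j, (σ (.inl ((e j : {z : Z // z ≠ 1}) : Z)⁻¹) (x j) - x j) := by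
  rw [RB_mu, LinearMap.sum_apply]
  rfl

/-- The map `c ↦ (z_i c)`. -/
private def RB_io {m : ℕ} (e : Fin m ≃ {z : Z // z ≠ 1})
    (σ : Representation k (Z ⋊[θ] E) V) : V →ₗ[k] (Fin m → V) :=
  LinearMap.pi fun i => σ (.inl ((e i : {z : Z // z ≠ 1}) : Z))

/-- MODULE RB. THE RANK OF `NZ` ON `Ω ⊗ V`. PROOF. For `x : Fin m → V` and `z_i = e i`: `(NZ x)_i = ∑_u ∑_j ([z_i = u z_j] - [z_i = u]) u x_j =
∑_j (z_i z_j⁻¹ x_j - z_i x_j) = z_i μ(x)` with `μ(x) = ∑_j (z_j⁻¹ x_j - x_j)` (write `u v` for `σ (inl u) v`). `μ(x) ∈ RZ σ ⊤`, and every element of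
`RZ σ ⊤` is some `μ(x)` (the `z u - u`, `z ≠ 1`, are `μ(Pi.single j u)` with `z_j = z⁻¹`). The map `c ↦ (z_i c)_i` is injective
(`m > 0`), so the range of `NZ` is isomorphic to `RZ σ ⊤`. -/
theorem rank_om [DecidableEq Z] {m : ℕ} (hm : 0 < m) (e : Fin m ≃ {z : Z // z ≠ 1})
    (σ : Representation k (Z ⋊[θ] E) V) {r : (Z ⋊[θ] E) →* Matrix (Fin m) (Fin m) k}
    (hr : ∀ g, r g = om k θ e g) :
    Module.finrank k (LinearMap.range (NZ (twR r σ))) = Module.finrank k (RZ σ ⊤) := by
  have h1 : NZ (twR r σ) = RB_io e σ ∘ₗ RB_mu e σ := by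
    apply LinearMap.ext
    intro x
    funext i
    rw [NZ_apply, Finset.sum_apply]
    show ∑ u : Z, twR r σ (.inl u) x i = σ (.inl ((e i : {z : Z // z ≠ 1}) : Z)) (RB_mu e σ x)
    rw [RB_mu_apply, map_sum]
    simp only [twR_apply]
    rw [Finset.sum_comm]
    refine Finset.sum_congr rfl fun j _ => ?_
    have h2 : ∀ u : Z, r (.inl u) i j • σ (.inl u) (x j) =
        (if u = ((e i : {z : Z // z ≠ 1}) : Z) * ((e j : {z : Z // z ≠ 1}) : Z)⁻¹ then
          σ (.inl u) (x j) else 0) -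
        (if u = ((e i : {z : Z // z ≠ 1}) : Z) then σ (.inl u) (x j) else 0) := by
      intro u
      rw [hr, om_apply]
      have h3 : omM k θ e (.inl u) i j =
          (if ((e i : {z : Z // z ≠ 1}) : Z) = u * ((e j : {z : Z // z ≠ 1}) : Z) then 1 else 0) -
          (if ((e i : {z : Z // z ≠ 1}) : Z) = u then 1 else 0) := by
        simp [omM, ev]
      rw [h3, sub_smul, ite_smul, ite_smul, one_smul, zero_smul]
      congr 1
      · refine if_congr ?_ rfl rfl
        rw [eq_mul_inv_iff_mul_eq, eq_comm]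
      · refine if_congr eq_comm rfl rfl
    rw [Finset.sum_congr rfl fun u _ => h2 u, Finset.sum_sub_distrib, Finset.sum_ite_eq',
      Finset.sum_ite_eq', if_pos (Finset.mem_univ _), if_pos (Finset.mem_univ _), map_sub,
      RB_mul]
  have h4 : LinearMap.range (RB_mu e σ) = RZ σ ⊤ := by
    apply le_antisymm
    · rintro _ ⟨x, rfl⟩
      rw [RB_mu_apply]
      exact Submodule.sum_mem _ fun j _ => Submodule.subset_span ⟨_, _, Submodule.mem_top, rfl⟩
    · refine Submodule.span_le.2 ?_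
      rintro _ ⟨z, u, _, rfl⟩
      by_cases hz : z = 1
      · subst hz
        rw [map_one, map_one]
        exact ⟨0, by simp⟩
      · have hz' : z⁻¹ ≠ 1 := fun h => hz (inv_eq_one.1 h)
        refine ⟨Pi.single (e.symm ⟨z⁻¹, hz'⟩) u, ?_⟩
        rw [RB_mu_apply, Finset.sum_eq_single (e.symm ⟨z⁻¹, hz'⟩)]
        · rw [Pi.single_eq_same, Equiv.apply_symm_apply, inv_inv]
        · intro j _ hj
          rw [Pi.single_eq_of_ne hj, map_zero, sub_zero]
        · intro h; exact absurd (Finset.mem_univ _) h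
  have h5 : Function.Injective (RB_io e σ) := by
    intro a b hab
    have h6 := congrFun hab ⟨0, hm⟩
    have h7 : σ (.inl ((e ⟨0, hm⟩ : {z : Z // z ≠ 1}) : Z)) a =
        σ (.inl ((e ⟨0, hm⟩ : {z : Z // z ≠ 1}) : Z)) b := h6
    have h8 := congrArg (σ (.inl ((e ⟨0, hm⟩ : {z : Z // z ≠ 1}) : Z)⁻¹)) h7
    rw [← RB_mul, ← RB_mul, inv_mul_cancel, map_one, map_one] at h8
    exact h8
  rw [h1, LinearMap.range_comp, h4]
  exact (Submodule.equivMapOfInjective (RB_io e σ) h5 (RZ σ ⊤)).finrank_eq.symm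

/-- The map `μ`. -/
private noncomputable def RC_mu {m : ℕ} (e : Fin m ≃ {z : Z // z ≠ 1})
    (σ : Representation k (Z ⋊[θ] E) V) : (Fin m → V) →ₗ[k] V :=
  ∑ j, σ (.inl ((e j : {z : Z // z ≠ 1}) : Z)⁻¹) ∘ₗ LinearMap.proj j

omit [Fintype Z] [Fintype E] in
private theorem RC_mu_apply {m : ℕ} (e : Fin m ≃ {z : Z // z ≠ 1})
    (σ : Representation k (Z ⋊[θ] E) V) (x : Fin m → V) : RC_mu e σ x =
      ∑ j, σ (.inl ((e j : {z : Z // z ≠ 1}) : Z)⁻¹) (x j) := by
  rw [RC_mu, LinearMap.sum_apply]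
  rfl

/-- The map `c ↦ (z_i c - c)`. -/
private def RC_io {m : ℕ} (e : Fin m ≃ {z : Z // z ≠ 1})
    (σ : Representation k (Z ⋊[θ] E) V) : V →ₗ[k] (Fin m → V) :=
  LinearMap.pi fun i => σ (.inl ((e i : {z : Z // z ≠ 1}) : Z)) - LinearMap.id

omit [Fintype Z] [Fintype E] in
private theorem RC_mul (σ : Representation k (Z ⋊[θ] E) V) (a b : Z) (v : V) :
    σ (.inl (a * b)) v = σ (.inl a) (σ (.inl b) v) := by
  rw [map_mul, map_mul, Module.End.mul_apply]

/-- MODULE RC. THE RANK OF `NZ` ON `Ω* ⊗ V`. PROOF. `r(u)_ij = om(u⁻¹)_ji = [z_j = u⁻¹ z_i] - [z_j = u⁻¹]`, so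
`(NZ x)_i = ∑_j (z_i z_j⁻¹ x_j - z_j⁻¹ x_j) = z_i μ - μ` with `μ = ∑_j z_j⁻¹ x_j`; every `μ ∈ V` occurs (`m > 0`). So the range of
`NZ` is the image of `μ ↦ (z_i μ - μ)_i`, whose kernel is `FZ σ` (rank and nullity). -/
theorem rank_omd [DecidableEq Z] {m : ℕ} (hm : 0 < m) (e : Fin m ≃ {z : Z // z ≠ 1})
    [FiniteDimensional k V] (σ : Representation k (Z ⋊[θ] E) V)
    {r : (Z ⋊[θ] E) →* Matrix (Fin m) (Fin m) k} (hr : ∀ g, r g = (om k θ e g⁻¹)ᵀ) :
    Module.finrank k (LinearMap.range (NZ (twR r σ))) + Module.finrank k (FZ σ) =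
      Module.finrank k V := by
  have h1 : NZ (twR r σ) = RC_io e σ ∘ₗ RC_mu e σ := by
    apply LinearMap.ext
    intro x
    funext i
    rw [NZ_apply, Finset.sum_apply]
    show ∑ u : Z, twR r σ (.inl u) x i =
      σ (.inl ((e i : {z : Z // z ≠ 1}) : Z)) (RC_mu e σ x) - RC_mu e σ x
    rw [RC_mu_apply, map_sum, ← Finset.sum_sub_distrib]
    simp only [twR_apply]
    rw [Finset.sum_comm]
    refine Finset.sum_congr rfl fun j _ => ?_
    have h2 : ∀ u : Z, r (.inl u) i j • σ (.inl u) (x j) =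
        (if u = ((e i : {z : Z // z ≠ 1}) : Z) * ((e j : {z : Z // z ≠ 1}) : Z)⁻¹ then
          σ (.inl u) (x j) else 0) -
        (if u = ((e j : {z : Z // z ≠ 1}) : Z)⁻¹ then σ (.inl u) (x j) else 0) := by
      intro u
      rw [hr, om_apply, Matrix.transpose_apply, ← map_inv]
      have h3 : omM k θ e (.inl u⁻¹) j i =
          (if ((e j : {z : Z // z ≠ 1}) : Z) = u⁻¹ * ((e i : {z : Z // z ≠ 1}) : Z) then 1 else 0) -
          (if ((e j : {z : Z // z ≠ 1}) : Z) = u⁻¹ then 1 else 0) := by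
        simp [omM, ev]
      rw [h3, sub_smul, ite_smul, ite_smul, one_smul, zero_smul]
      congr 1
      · refine if_congr ?_ rfl rfl
        rw [eq_inv_mul_iff_mul_eq, eq_mul_inv_iff_mul_eq]
      · exact if_congr ⟨fun h => by rw [h, inv_inv], fun h => by rw [h, inv_inv]⟩ rfl rfl
    rw [Finset.sum_congr rfl fun u _ => h2 u, Finset.sum_sub_distrib, Finset.sum_ite_eq',
      Finset.sum_ite_eq', if_pos (Finset.mem_univ _), if_pos (Finset.mem_univ _),
      RC_mul]
  have h4 : LinearMap.range (RC_mu e σ) = ⊤ := by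
    rw [LinearMap.range_eq_top]
    intro v
    refine ⟨Pi.single ⟨0, hm⟩ (σ (.inl ((e ⟨0, hm⟩ : {z : Z // z ≠ 1}) : Z)) v), ?_⟩
    rw [RC_mu_apply, Finset.sum_eq_single ⟨0, hm⟩]
    · rw [Pi.single_eq_same, ← RC_mul, inv_mul_cancel, map_one, map_one]
      rfl
    · intro j _ hj
      rw [Pi.single_eq_of_ne hj, map_zero]
    · intro h; exact absurd (Finset.mem_univ _) h
  have h5 : LinearMap.ker (RC_io e σ) = FZ σ := by
    ext v
    rw [LinearMap.mem_ker]
    constructor
    · intro h z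
      by_cases hz : z = 1
      · subst hz
        rw [map_one, map_one]
        rfl
      · have h6 := congrFun h (e.symm ⟨z, hz⟩)
        have h7 : σ (.inl ((e (e.symm ⟨z, hz⟩) : {z : Z // z ≠ 1}) : Z)) v - v = 0 := h6
        rw [Equiv.apply_symm_apply] at h7
        exact sub_eq_zero.1 h7
    · intro h
      funext i
      show σ (.inl ((e i : {z : Z // z ≠ 1}) : Z)) v - v = 0
      rw [h, sub_self]
  rw [h1, LinearMap.range_comp, h4, ← LinearMap.range_eq_map, ← h5]
  exact LinearMap.finrank_range_add_finrank_ker _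

end Num

section Wed

variable {k : Type} [Field k] {Z E : Type} [CommGroup Z] [Fintype Z] [CommGroup E] [Fintype E]
  {θ : E →* MulAut Z} {H : Type} [Ring H] [Algebra k H] {m : ℕ}

/-- The representation of the matrix algebra. -/
private def RD_phi (D : WD k H) (m : ℕ) (i : D.I) :
    Matrix (Fin m) (Fin m) H →ₐ[k] Matrix (Fin (m * D.n i)) (Fin (m * D.n i)) k :=
  ((Matrix.reindexAlgEquiv k k (finProdFinEquiv : Fin m × Fin (D.n i) ≃ _) :
    Matrix (Fin m × Fin (D.n i)) (Fin m × Fin (D.n i)) k ≃ₐ[k] _) :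
      Matrix (Fin m × Fin (D.n i)) (Fin m × Fin (D.n i)) k →ₐ[k] _).comp
    (((Matrix.compAlgEquiv (Fin m) (Fin (D.n i)) k k :
      Matrix (Fin m) (Fin m) (Matrix (Fin (D.n i)) (Fin (D.n i)) k) ≃ₐ[k] _) :
      Matrix (Fin m) (Fin m) (Matrix (Fin (D.n i)) (Fin (D.n i)) k) →ₐ[k] _).comp
      (D.φ i).mapMatrix)

private theorem RD_phi_apply (D : WD k H) (m : ℕ) (i : D.I) (M : Matrix (Fin m) (Fin m) H)
    (a b : Fin m) (s t : Fin (D.n i)) :
    RD_phi D m i M (finProdFinEquiv (a, s)) (finProdFinEquiv (b, t)) = D.φ i (M a b) s t := by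
  show Matrix.reindex finProdFinEquiv finProdFinEquiv
    (Matrix.comp (Fin m) (Fin m) (Fin (D.n i)) (Fin (D.n i)) k (M.map (D.φ i)))
      (finProdFinEquiv (a, s)) (finProdFinEquiv (b, t)) = _
  rw [Matrix.reindex_apply, Matrix.submatrix_apply, Equiv.symm_apply_apply,
    Equiv.symm_apply_apply]
  rfl

private theorem RD_zero (D : WD k H) (m : ℕ) (i : D.I) (M : Matrix (Fin m) (Fin m) H)
    (h : RD_phi D m i M = 0) (a b : Fin m) : D.φ i (M a b) = 0 := by
  ext s t
  rw [← RD_phi_apply, h]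
  rfl

private theorem RD_surj (D : WD k H) (m : ℕ)
    (t : (∀ i, Matrix (Fin (m * D.n i)) (Fin (m * D.n i)) k)) :
    ∃ c : Matrix (Fin m) (Fin m) H, ∀ i, RD_phi D m i c = t i := by
  have h1 : ∀ a b : Fin m, ∃ c : H, ∀ i, D.φ i c = Matrix.of fun s s' =>
      t i (finProdFinEquiv (a, s)) (finProdFinEquiv (b, s')) := fun a b => D.surj _
  choose c hc using h1
  refine ⟨Matrix.of c, fun i => ?_⟩
  ext x y
  obtain ⟨⟨a, s⟩, rfl⟩ := finProdFinEquiv.surjective x
  obtain ⟨⟨b, s'⟩, rfl⟩ := finProdFinEquiv.surjective y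
  rw [RD_phi_apply, Matrix.of_apply, hc, Matrix.of_apply]

private theorem RD_nil (D : WD k H) (m : ℕ) (l : List (Matrix (Fin m) (Fin m) H))
    (hl : ∀ x ∈ l, ∀ i, RD_phi D m i x = 0) (a b : Fin m) :
    l.prod a b ∈ AddSubgroup.closure {x : H | ∃ l' : List H, l'.length = l.length ∧
      (∀ y ∈ l', ∀ i, D.φ i y = 0) ∧ x = l'.prod} := by
  induction l generalizing a b with
  | nil =>
    rw [List.prod_nil, Matrix.one_apply]
    split_ifs with h
    · exact AddSubgroup.subset_closure ⟨[], rfl, by simp, by simp⟩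
    · exact AddSubgroup.zero_mem _
  | cons M t ih =>
    rw [List.prod_cons, Matrix.mul_apply]
    refine AddSubgroup.sum_mem _ fun c _ => ?_
    have hM : ∀ i, D.φ i (M a c) = 0 := fun i =>
      RD_zero D m i M (hl M (by simp) i) a c
    have h1 := ih (fun x hx => hl x (by simp [hx])) c b
    generalize t.prod c b = y at h1
    induction h1 using AddSubgroup.closure_induction with
    | mem x hx =>
      obtain ⟨l', h2, h3, rfl⟩ := hx
      refine AddSubgroup.subset_closure ⟨M a c :: l', by simp [h2], ?_, by simp⟩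
      intro y hy i
      rcases List.mem_cons.1 hy with rfl | hy
      · exact hM i
      · exact h3 y hy i
    | zero =>
      rw [mul_zero]
      exact AddSubgroup.zero_mem _
    | add x y _ _ hx hy =>
      rw [mul_add]
      exact AddSubgroup.add_mem _ hx hy
    | neg x _ hx =>
      rw [mul_neg]
      exact AddSubgroup.neg_mem _ hx

/-- MODULE RD. WEDDERBURN DATA OF THE MATRIX ALGEBRA. PROOF. `I`, `n i = m * D.n i`,
`φ' i = ` (`Matrix.reindexAlgEquiv` by `finProdFinEquiv`) ∘ (`Matrix.compAlgEquiv`) ∘ (`(D.φ i).mapMatrix`). `surj`: choose every entry by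
`D.surj`. `nil`: a matrix is in the common kernel of the `φ' i` iff all its entries are in the common kernel of the `D.φ i`;
the entries of a product of `N` such matrices are sums of products of `N` entries (`D.nil`). `e v = (a ↦ (s ↦ v (finProdFinEquiv (a, s))))`
(`Vm D i = Fin (D.n i) → k` by definition, `Vm.smul_def`). -/
theorem exists_twD (D : WD k H) (hm : 0 < m) (i : D.I) :
    ∃ (D' : WD k (Matrix (Fin m) (Fin m) H)) (i' : D'.I)
      (e : Vm D' i' ≃ₗ[k] (Fin m → Vm D i)),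
      ∀ (M : Matrix (Fin m) (Fin m) H) (v : Vm D' i') (a : Fin m),
        e (M • v) a = ∑ b, M a b • e v b := by
  let D' : WD k (Matrix (Fin m) (Fin m) H) :=
    { I := D.I
      fin := D.fin
      n := fun i => m * D.n i
      pos := fun i => Nat.mul_pos hm (D.pos i)
      φ := fun i => RD_phi D m i
      surj := RD_surj D m
      nil := by
        obtain ⟨N, hN⟩ := D.nil
        refine ⟨N, fun l hl h => ?_⟩
        ext a b
        have h1 := RD_nil D m l h a b
        have h2 : AddSubgroup.closure {x : H | ∃ l' : List H, l'.length = l.length ∧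
            (∀ y ∈ l', ∀ i, D.φ i y = 0) ∧ x = l'.prod} ≤ ⊥ := by
          rw [AddSubgroup.closure_le]
          rintro x ⟨l', h3, h4, rfl⟩
          exact hN l' (h3.trans hl) h4
        exact h2 h1 }
  let e0 : (Fin (m * D.n i) → k) ≃ₗ[k] (Fin m → Fin (D.n i) → k) :=
    { toFun := fun v a s => v (finProdFinEquiv (a, s))
      invFun := fun w x => w (finProdFinEquiv.symm x).1 (finProdFinEquiv.symm x).2
      left_inv := fun v => by
        funext x
        show v (finProdFinEquiv ((finProdFinEquiv.symm x).1, (finProdFinEquiv.symm x).2)) = v x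
        rw [Prod.mk.eta, Equiv.apply_symm_apply]
      right_inv := fun w => by
        funext a s
        show w (finProdFinEquiv.symm (finProdFinEquiv (a, s))).1
          (finProdFinEquiv.symm (finProdFinEquiv (a, s))).2 = w a s
        rw [Equiv.symm_apply_apply]
      map_add' := fun v w => rfl
      map_smul' := fun c v => rfl }
  let e : Vm D' i ≃ₗ[k] (Fin m → Vm D i) := e0
  refine ⟨D', i, e, ?_⟩
  intro M v a
  funext s
  have h1 : e (M • v) a s = ∑ x : Fin (m * D.n i), RD_phi D m i M (finProdFinEquiv (a, s)) x *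
      (show Fin (m * D.n i) → k from v) x := rfl
  refine h1.trans ?_
  rw [← Equiv.sum_comp (finProdFinEquiv : Fin m × Fin (D.n i) ≃ _), Fintype.sum_prod_type]
  have h2 : (∑ b, M a b • (e v b : Vm D i)) s = ∑ b, (M a b • (e v b : Vm D i) : Vm D i) s := by
    exact Finset.sum_apply s Finset.univ fun b => (M a b • (e v b : Vm D i) : Vm D i)
  refine Eq.trans ?_ h2.symm
  refine Finset.sum_congr rfl fun b _ => ?_
  rw [Vm.smul_def]
  show _ = ∑ t, D.φ i (M a b) s t * (show Fin (m * D.n i) → k from v) (finProdFinEquiv (b, t))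
  refine Finset.sum_congr rfl fun t _ => ?_
  rw [RD_phi_apply]

/-- MODULE RE. PROOF. `exists_twD`; `(r(g)_ab • ρ(g)) • x = r(g)_ab • (ρ(g) • x)`. -/
theorem exists_twV (K : KD k θ H) (T : TwK k θ m) (K' : KD k θ (Matrix (Fin m) (Fin m) H))
    (hK : K'.ρ = twr T.r K.ρ) (D : WD k H) (i : D.I) :
    ∃ (D' : WD k (Matrix (Fin m) (Fin m) H)) (i' : D'.I)
      (e : Vm D' i' ≃ₗ[k] (Fin m → Vm D i)), ∀ g v,
        e (rp (R := k) K'.ρ (Vm D' i') g v) = twR T.r (rp (R := k) K.ρ (Vm D i)) g (e v) := by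
  have hm : 0 < m := by
    rcases Nat.eq_zero_or_pos m with h | h
    · exact absurd (by rw [h, Nat.cast_zero]) T.card
    · exact h
  obtain ⟨D', i', e, he⟩ := exists_twD D hm i
  refine ⟨D', i', e, fun g v => ?_⟩
  funext a
  rw [rp_apply, hK, he, twR_apply]
  refine Finset.sum_congr rfl fun b _ => ?_
  rw [twr_apply, tn_apply, smul_assoc, rp_apply]

end Wed

end Pool.Agent.DDV
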