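import Pool.Agent.DDV.Rp
import Pool.Agent.FbT.St

/-!
# DDV, part Sp: splitting off the free part, for any abelian `p`-group `Z`
-/

set_option autoImplicit false

namespace Pool.Agent.DDV

open Pool.Agent.Sig Pool.Agent.DD Pool.Agent.FbT

variable {k Z E V : Type} [Field k] [CommGroup Z] [Fintype Z] [CommGroup E] [Fintype E]
  {θ : E →* MulAut Z} [AddCommGroup V] [Module k V]

omit [Fintype E] in
private theorem SA_nil {p n : ℕ} (hp : p.Prime) (hch : CharP k p)
    (hcard : Fintype.card Z = p ^ n) (σ : Representation k (Z ⋊[θ] E) V) (z : Z) :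
    (yo σ (.inl z)) ^ (p ^ n) = 0 := by
  have _i := hch
  have _j : Fact p.Prime := ⟨hp⟩
  have h1 : ((Polynomial.X : Polynomial k) - 1) ^ (p ^ n) = Polynomial.X ^ (p ^ n) - 1 := by
    rw [sub_pow_char_pow, one_pow]
  have h2 := congrArg (Polynomial.aeval (σ (.inl z))) h1
  simp only [map_pow, map_sub, map_one, Polynomial.aeval_X] at h2
  show (σ (.inl z) - 1) ^ (p ^ n) = 0
  rw [h2, ← map_pow, ← map_pow, ← hcard, pow_card_eq_one, map_one, map_one, sub_self]

omit [Fintype Z] [Fintype E] in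
private theorem SA_mem {σ : Representation k (Z ⋊[θ] E) V} {U : Submodule k V}
    (hU : ∀ z : Z, ∀ v ∈ U, σ (.inl z) v ∈ U) (z : Z) (i : ℕ) {v : V} (hv : v ∈ U) :
    ((yo σ (.inl z)) ^ i) v ∈ U := by
  induction i with
  | zero => rwa [pow_zero, Module.End.one_apply]
  | succ i ih =>
    rw [pow_succ', Module.End.mul_apply]
    exact U.sub_mem (hU z _ ih) ih

omit [Fintype Z] [Fintype E] in
private theorem SA_comm (σ : Representation k (Z ⋊[θ] E) V) (z z' : Z) (i : ℕ) (v : V) :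
    σ (.inl z') (((yo σ (.inl z)) ^ i) v) = ((yo σ (.inl z)) ^ i) (σ (.inl z') v) := by
  have h1 : Commute (σ (.inl z')) (yo σ (.inl z)) := by
    have h2 : Commute (σ (.inl z')) (σ (.inl z)) := by
      show σ (.inl z') * σ (.inl z) = σ (.inl z) * σ (.inl z')
      rw [← map_mul, ← map_mul, ← map_mul, ← map_mul, mul_comm z' z]
    exact h2.sub_right (Commute.one_right _)
  exact DFunLike.congr_fun (h1.pow_right i).eq v

/-- MODULE SA. A FIXED VECTOR. PROOF. For a finite set `s ⊆ Z` there is `v ∈ U`, `v ≠ 0`, fixed by all `z ∈ s` (`Finset.induction_on`): given `v`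
for `s` and a new `z`, `(σ(z) - 1)^(p^n) v = σ(z^(p^n)) v - v = 0` for `p^n = |Z|` (characteristic `p`), so there is a largest `i`
with `v' = (σ(z) - 1)^i v ≠ 0`; `z v' = v'`, `v' ∈ U`, and `v'` is still fixed by `s` (`Z` is commutative). Take `s = univ`. -/
theorem exists_fix {p n : ℕ} (hp : p.Prime) (hch : CharP k p) (hcard : Fintype.card Z = p ^ n)
    (σ : Representation k (Z ⋊[θ] E) V) {U : Submodule k V}
    (hU : ∀ z : Z, ∀ v ∈ U, σ (.inl z) v ∈ U) (hU0 : U ≠ ⊥) :
    ∃ v ∈ U, v ≠ 0 ∧ ∀ z : Z, σ (.inl z) v = v := by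
  classical
  have key : ∀ s : Finset Z, ∃ v ∈ U, v ≠ 0 ∧ ∀ z ∈ s, σ (.inl z) v = v := by
    intro s
    induction s using Finset.induction_on with
    | empty =>
      obtain ⟨v, hv, hv0⟩ := (Submodule.ne_bot_iff U).1 hU0
      exact ⟨v, hv, hv0, fun z hz => absurd hz (Finset.notMem_empty z)⟩
    | insert z s _ ih =>
      obtain ⟨v, hv, hv0, hvs⟩ := ih
      have hex : ∃ i : ℕ, ((yo σ (.inl z)) ^ i) v = 0 :=
        ⟨p ^ n, by rw [SA_nil hp hch hcard σ z, LinearMap.zero_apply]⟩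
      have hfind := Nat.find_spec hex
      have hpos : 0 < Nat.find hex := by
        rcases Nat.eq_zero_or_pos (Nat.find hex) with h | h
        · rw [h, pow_zero, Module.End.one_apply] at hfind
          exact absurd hfind hv0
        · exact h
      obtain ⟨i, hi⟩ : ∃ i, Nat.find hex = i + 1 := ⟨Nat.find hex - 1, by omega⟩
      have hne : ((yo σ (.inl z)) ^ i) v ≠ 0 := Nat.find_min hex (by omega)
      refine ⟨((yo σ (.inl z)) ^ i) v, SA_mem hU z i hv, hne, fun z' hz' => ?_⟩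
      rcases Finset.mem_insert.1 hz' with h | h
      · subst h
        rw [hi, pow_succ', Module.End.mul_apply] at hfind
        have h1 : yo σ (.inl z') (((yo σ (.inl z')) ^ i) v) =
            σ (.inl z') (((yo σ (.inl z')) ^ i) v) - ((yo σ (.inl z')) ^ i) v := rfl
        rw [h1] at hfind
        exact sub_eq_zero.1 hfind
      · rw [SA_comm, hvs z' h]
  obtain ⟨v, h1, h2, h3⟩ := key Finset.univ
  exact ⟨v, h1, h2, fun z => h3 z (Finset.mem_univ z)⟩

/-- MODULE SB. AN EIGEN FUNCTIONAL. `K` is an `E`-stable subspace, `w ∉ K` is a weight vector of weight `χ`. PROOF. `f₀` linear with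
`f₀ w = 1`, `f₀ K = 0`; `f = |E|⁻¹ ∑_y χ(y)⁻¹ f₀ σ(inr y)`. -/
theorem exists_func (hE : (Fintype.card E : k) ≠ 0) (σ : Representation k (Z ⋊[θ] E) V)
    {K : Submodule k V} (hK : ∀ (y : E), ∀ v ∈ K, σ (.inr y) v ∈ K) {w : V} (hw : w ∉ K)
    {χ : E →* kˣ} (hχ : ∀ y, σ (.inr y) w = ((χ y : kˣ) : k) • w) :
    ∃ f : V →ₗ[k] k, f w = 1 ∧ (∀ v ∈ K, f v = 0) ∧
      ∀ y v, f (σ (.inr y) v) = ((χ y : kˣ) : k) * f v := by
  obtain ⟨f₁, hf₁, hf₁K⟩ := Submodule.exists_le_ker_of_notMem hw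
  refine ⟨((Fintype.card E : k)⁻¹ * (f₁ w)⁻¹) •
    ∑ y : E, (((χ y)⁻¹ : kˣ) : k) • (f₁ ∘ₗ σ (.inr y)), ?_, ?_, ?_⟩
  · rw [LinearMap.smul_apply, LinearMap.sum_apply]
    have h1 : ∀ y : E, ((((χ y)⁻¹ : kˣ) : k) • (f₁ ∘ₗ σ (.inr y))) w = f₁ w := by
      intro y
      rw [LinearMap.smul_apply, LinearMap.comp_apply, hχ y, map_smul, smul_smul, Units.inv_mul,
        one_smul]
    rw [Finset.sum_congr rfl fun y _ => h1 y, Finset.sum_const, Finset.card_univ, nsmul_eq_mul,
      smul_eq_mul]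
    field_simp
  · intro v hv
    rw [LinearMap.smul_apply, LinearMap.sum_apply]
    rw [Finset.sum_eq_zero, smul_zero]
    intro y _
    rw [LinearMap.smul_apply, LinearMap.comp_apply, LinearMap.mem_ker.1 (hf₁K (hK y v hv)),
      smul_zero]
  · intro y' v
    rw [LinearMap.smul_apply, LinearMap.smul_apply, LinearMap.sum_apply, LinearMap.sum_apply,
      smul_eq_mul, smul_eq_mul, mul_left_comm]
    congr 1
    rw [Finset.mul_sum]
    refine Fintype.sum_equiv (Equiv.mulRight y') _ _ fun y => ?_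
    rw [LinearMap.smul_apply, LinearMap.smul_apply, LinearMap.comp_apply, LinearMap.comp_apply,
      Equiv.coe_mulRight, map_mul, map_mul, map_mul, Module.End.mul_apply, smul_eq_mul,
      smul_eq_mul, mul_inv, Units.val_mul, ← mul_assoc]
    congr 1
    rw [mul_left_comm, Units.mul_inv, mul_one]

/-- A family of eigen generators. -/
private def SC_P (σ : Representation k (Z ⋊[θ] E) V) (n : ℕ) : Prop :=
  ∃ (χ : Fin n → E →* kˣ) (w : Fin n → V) (f : Fin n → V →ₗ[k] k),
      (∀ a y, σ (.inr y) (w a) = ((χ a y : kˣ) : k) • w a) ∧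
      (∀ a y v, f a (σ (.inr y) v) = ((χ a y : kˣ) : k) * f a v) ∧
      (∀ a b, f a (NZ σ (w b)) = if a = b then 1 else 0)

private theorem SC_le [FiniteDimensional k V] (σ : Representation k (Z ⋊[θ] E) V) {n : ℕ}
    (h : SC_P σ n) : n ≤ Module.finrank k V := by
  obtain ⟨χ, w, f, h1, h2, h3⟩ := h
  have hs : Function.Surjective (LinearMap.pi f) := by
    intro c
    refine ⟨∑ b, c b • NZ σ (w b), ?_⟩
    funext a
    rw [LinearMap.pi_apply, map_sum, Finset.sum_eq_single a]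
    · rw [map_smul, h3, if_pos rfl, smul_eq_mul, mul_one]
    · intro b _ hb
      rw [map_smul, h3, if_neg (Ne.symm hb), smul_zero]
    · intro h; exact absurd (Finset.mem_univ _) h
  have h4 := LinearMap.finrank_range_le (LinearMap.pi f)
  rw [LinearMap.range_eq_top.2 hs, finrank_top, Module.finrank_fin_fun] at h4
  exact h4

private theorem SC_step [IsAlgClosed k] (hE : (Fintype.card E : k) ≠ 0)
    (σ : Representation k (Z ⋊[θ] E) V) {n : ℕ} {χ : Fin n → E →* kˣ} {w : Fin n → V}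
    {f : Fin n → V →ₗ[k] k} (h1 : ∀ a y, σ (.inr y) (w a) = ((χ a y : kˣ) : k) • w a)
    (h2 : ∀ a y v, f a (σ (.inr y) v) = ((χ a y : kˣ) : k) * f a v)
    (h3 : ∀ a b, f a (NZ σ (w b)) = if a = b then 1 else 0) {v : V}
    (hv : ∀ a, f a (NZ σ v) = 0) (hv0 : NZ σ v ≠ 0) : SC_P σ (n + 1) := by
  obtain ⟨w', hw', hwK, χ', hχ'⟩ := weight_outside hE (σ.comp (SemidirectProduct.inr (φ := θ)))
    (U := ⨅ a, LinearMap.ker (f a ∘ₗ NZ σ)) (K := LinearMap.ker (NZ σ)) (by
      intro y u hu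
      rw [Submodule.mem_iInf] at hu ⊢
      intro a
      have h4 := hu a
      rw [LinearMap.mem_ker, LinearMap.comp_apply] at h4 ⊢
      show f a (NZ σ (σ (.inr y) u)) = 0
      rw [NZ_comm, h2, h4, mul_zero]) (by
      intro hle
      have h4 : v ∈ LinearMap.ker (NZ σ) := hle (by
        rw [Submodule.mem_iInf]
        intro a
        rw [LinearMap.mem_ker, LinearMap.comp_apply]
        exact hv a)
      exact hv0 h4)
  rw [Submodule.mem_iInf] at hw'
  have hfw' : ∀ a, f a (NZ σ w') = 0 := fun a => hw' a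
  have hwK' : NZ σ w' ∉ Submodule.span k (Set.range fun b => NZ σ (w b)) := by
    intro hmem
    obtain ⟨c, hc⟩ := (Submodule.mem_span_range_iff_exists_fun k).1 hmem
    apply hwK
    rw [LinearMap.mem_ker, ← hc]
    refine Finset.sum_eq_zero fun a _ => ?_
    have h4 : f a (∑ b, c b • NZ σ (w b)) = c a := by
      rw [map_sum, Finset.sum_eq_single a]
      · rw [map_smul, h3, if_pos rfl, smul_eq_mul, mul_one]
      · intro b _ hb
        rw [map_smul, h3, if_neg (Ne.symm hb), smul_zero]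
      · intro h; exact absurd (Finset.mem_univ _) h
    rw [hc, hfw' a] at h4
    rw [← h4, zero_smul]
  obtain ⟨f', hf1, hf2, hf3⟩ := exists_func hE σ (K := Submodule.span k (Set.range fun b => NZ σ (w b)))
    (by
      intro y u hu
      refine Submodule.span_induction (p := fun u _ => σ (.inr y) u ∈
        Submodule.span k (Set.range fun b => NZ σ (w b))) ?_ ?_ ?_ ?_ hu
      · rintro _ ⟨b, rfl⟩
        show σ (.inr y) (NZ σ (w b)) ∈ _
        rw [← NZ_comm, h1, map_smul]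
        exact Submodule.smul_mem _ _ (Submodule.subset_span ⟨b, rfl⟩)
      · rw [map_zero]; exact Submodule.zero_mem _
      · intro a b _ _ ha hb
        rw [map_add]; exact Submodule.add_mem _ ha hb
      · intro c a _ ha
        rw [map_smul]; exact Submodule.smul_mem _ _ ha) hwK' (χ := χ') (by
      intro y
      rw [← NZ_comm]
      have h4 : σ (.inr y) w' = ((χ' y : kˣ) : k) • w' := hχ' y
      rw [h4, map_smul])
  refine ⟨Fin.snoc (α := fun _ => E →* kˣ) χ χ', Fin.snoc (α := fun _ => V) w w',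
    Fin.snoc (α := fun _ => V →ₗ[k] k) f f', ?_, ?_, ?_⟩
  · intro a y
    refine Fin.lastCases ?_ (fun a => ?_) a
    · rw [Fin.snoc_last, Fin.snoc_last]; exact hχ' y
    · rw [Fin.snoc_castSucc, Fin.snoc_castSucc]; exact h1 a y
  · intro a y u
    refine Fin.lastCases ?_ (fun a => ?_) a
    · rw [Fin.snoc_last, Fin.snoc_last]; exact hf3 y u
    · rw [Fin.snoc_castSucc, Fin.snoc_castSucc]; exact h2 a y u
  · intro a b
    refine Fin.lastCases ?_ (fun a => ?_) a
    · refine Fin.lastCases ?_ (fun b => ?_) b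
      · rw [Fin.snoc_last, Fin.snoc_last, if_pos rfl]; exact hf1
      · rw [Fin.snoc_last, Fin.snoc_castSucc, if_neg (Fin.castSucc_lt_last b).ne']
        exact hf2 _ (Submodule.subset_span ⟨b, rfl⟩)
    · refine Fin.lastCases ?_ (fun b => ?_) b
      · rw [Fin.snoc_last, Fin.snoc_castSucc, if_neg (Fin.castSucc_lt_last a).ne]
        exact hfw' a
      · rw [Fin.snoc_castSucc, Fin.snoc_castSucc, h3]
        simp only [Fin.castSucc_inj]

/-- MODULE SC. EIGEN GENERATORS OF THE FREE PART. PROOF. Extend a family step by step: given `w_a`, `f_a` (`a < n`) with the first three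
properties and a vector `v` with `f_a (NZ v) = 0` for all `a` but `NZ v ≠ 0`: `U = {v | ∀ a, f_a (NZ v) = 0}` and `ker NZ` are `E`-stable
(`NZ_comm`), so `weight_outside` (for `τ = σ ∘ inr`) gives `w ∈ U`, `NZ w ≠ 0`, of weight `χ`. `NZ w` is not in the span `K` of the `NZ w_b` (apply the
`f_a`), `K` is `E`-stable; `exists_func` gives `f` with `f (NZ w) = 1`, `f (NZ w_b) = 0`. The new family has `n + 1` members (`Fin.snoc`). The `NZ w_a` are
linearly independent, so `n ≤ finrank V` and the procedure stops (induction on `finrank V - n`). -/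
theorem exists_gens [IsAlgClosed k] (hE : (Fintype.card E : k) ≠ 0) [FiniteDimensional k V]
    (σ : Representation k (Z ⋊[θ] E) V) :
    ∃ (n : ℕ) (χ : Fin n → E →* kˣ) (w : Fin n → V) (f : Fin n → V →ₗ[k] k),
      (∀ a y, σ (.inr y) (w a) = ((χ a y : kˣ) : k) • w a) ∧
      (∀ a y v, f a (σ (.inr y) v) = ((χ a y : kˣ) : k) * f a v) ∧
      (∀ a b, f a (NZ σ (w b)) = if a = b then 1 else 0) ∧
      ∀ v, (∀ a, f a (NZ σ v) = 0) → NZ σ v = 0 := by
  have key : ∀ m n : ℕ, Module.finrank k V ≤ n + m → SC_P σ n →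
      ∃ (n : ℕ) (χ : Fin n → E →* kˣ) (w : Fin n → V) (f : Fin n → V →ₗ[k] k),
      (∀ a y, σ (.inr y) (w a) = ((χ a y : kˣ) : k) • w a) ∧
      (∀ a y v, f a (σ (.inr y) v) = ((χ a y : kˣ) : k) * f a v) ∧
      (∀ a b, f a (NZ σ (w b)) = if a = b then 1 else 0) ∧
      ∀ v, (∀ a, f a (NZ σ v) = 0) → NZ σ v = 0 := by
    intro m
    induction m with
    | zero =>
      intro n hn hP
      obtain ⟨χ, w, f, h1, h2, h3⟩ := hP
      refine ⟨n, χ, w, f, h1, h2, h3, ?_⟩
      by_contra hcon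
      push Not at hcon
      obtain ⟨v, hv, hv0⟩ := hcon
      have h4 := SC_le σ (SC_step hE σ h1 h2 h3 hv hv0)
      omega
    | succ m ih =>
      intro n hn hP
      obtain ⟨χ, w, f, h1, h2, h3⟩ := hP
      by_cases hall : ∀ v, (∀ a, f a (NZ σ v) = 0) → NZ σ v = 0
      · exact ⟨n, χ, w, f, h1, h2, h3, hall⟩
      · push Not at hall
        obtain ⟨v, hv, hv0⟩ := hall
        exact ih (n + 1) (by omega) (SC_step hE σ h1 h2 h3 hv hv0)
  refine key (Module.finrank k V) 0 (by omega) ⟨fun a => a.elim0, fun a => a.elim0,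
    fun a => a.elim0, fun a => a.elim0, fun a => a.elim0, fun a => a.elim0⟩

/-- The coordinates `f_a (z⁻¹ v)`. -/
def q0 (σ : Representation k (Z ⋊[θ] E) V) {n : ℕ} (f : Fin n → V →ₗ[k] k) :
    V →ₗ[k] (Fin n × Z → k) where
  toFun v p := f p.1 (σ (.inl p.2⁻¹) v)
  map_add' v w := by
    funext p
    simp only [Pi.add_apply, map_add]
  map_smul' c v := by
    funext p
    simp only [Pi.smul_apply, map_smul, RingHom.id_apply]

theorem q0_apply (σ : Representation k (Z ⋊[θ] E) V) {n : ℕ} (f : Fin n → V →ₗ[k] k) (v : V)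
    (p : Fin n × Z) : q0 σ f v p = f p.1 (σ (.inl p.2⁻¹) v) := rfl

/-- MODULE SD. PROOF. `g = (z₀, y)`: `f_a (z⁻¹ z₀ y v) = f_a (y (θ_y⁻¹(z⁻¹ z₀)) v) = χ_a(y) f_a ((θ_y⁻¹(z₀⁻¹ z))⁻¹ v)`; `tw_apply`. -/
theorem q0_eqv {σ : Representation k (Z ⋊[θ] E) V} {n : ℕ} {χ : Fin n → E →* kˣ}
    {f : Fin n → V →ₗ[k] k}
    (hf : ∀ a y v, f a (σ (.inr y) v) = ((χ a y : kˣ) : k) * f a v) :
    Eqv σ (tw θ χ k) (q0 σ f) := by
  intro g v
  funext p
  rw [tw_apply, q0_apply, q0_apply, ← Module.End.mul_apply, ← map_mul]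
  have h1 : SemidirectProduct.inl p.2⁻¹ * g = SemidirectProduct.inr (φ := θ) g.right *
      SemidirectProduct.inl (θ g.right⁻¹ (g.left⁻¹ * p.2))⁻¹ := by
    refine SemidirectProduct.ext ?_ ?_
    · rw [SemidirectProduct.mul_left, SemidirectProduct.mul_left, SemidirectProduct.left_inl,
        SemidirectProduct.left_inl, SemidirectProduct.right_inl, SemidirectProduct.left_inr,
        SemidirectProduct.right_inr, map_one, MulAut.one_apply, one_mul, map_inv, map_inv,
        MulAut.apply_inv_self, mul_inv_rev, inv_inv]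
    · rw [SemidirectProduct.mul_right, SemidirectProduct.mul_right, SemidirectProduct.right_inl,
        SemidirectProduct.right_inl, SemidirectProduct.right_inr, one_mul, mul_one]
  rw [h1, map_mul, Module.End.mul_apply, hf, smul_eq_mul]

/-- MODULE SD. PROOF. Otherwise the kernel of `q0 ∘ fd` (equivariant: `q0_eqv`, `fd_eqv`) contains a fixed `x ≠ 0` (`exists_fix` for `tw θ χ k`).
`x` is fixed by the translations, so `x(a, z) = x(a, 1)`, `fd σ w x = ∑_a x(a, 1) NZ w_a`, and the value of `q0` at `(a, 1)` is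
`f_a (∑_b x(b, 1) NZ w_b) = x(a, 1)`; so `x = 0`. -/
theorem q0_fd_inj {p n' : ℕ} (hp : p.Prime) (hch : CharP k p) (hcard : Fintype.card Z = p ^ n')
    {σ : Representation k (Z ⋊[θ] E) V} {n : ℕ} {χ : Fin n → E →* kˣ}
    {w : Fin n → V} {f : Fin n → V →ₗ[k] k}
    (hw : ∀ a y, σ (.inr y) (w a) = ((χ a y : kˣ) : k) • w a)
    (hf : ∀ a y v, f a (σ (.inr y) v) = ((χ a y : kˣ) : k) * f a v)
    (hfw : ∀ a b, f a (NZ σ (w b)) = if a = b then 1 else 0) :
    Function.Injective (q0 σ f ∘ₗ fd σ w) := by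
  classical
  rw [← LinearMap.ker_eq_bot]
  by_contra hU0
  have hcomp : Eqv (tw θ χ k) (tw θ χ k) (q0 σ f ∘ₗ fd σ w) := by
    intro g x
    rw [LinearMap.comp_apply, LinearMap.comp_apply, fd_eqv σ hw g x, q0_eqv hf g]
  obtain ⟨x, hxU, hx0, hxf⟩ := exists_fix (θ := θ) hp hch hcard (tw θ χ k)
    (U := LinearMap.ker (q0 σ f ∘ₗ fd σ w)) (by
      intro z u hu
      rw [LinearMap.mem_ker] at hu ⊢
      rw [hcomp, hu, map_zero]) hU0
  have h1 : ∀ a z, x (a, z) = x (a, 1) := by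
    intro a z
    have h2 := congrFun (hxf z) (a, z)
    rw [tw_apply, SemidirectProduct.right_inl, SemidirectProduct.left_inl, map_one, inv_one,
      map_one, Units.val_one, one_smul, MulAut.one_apply, inv_mul_cancel] at h2
    exact h2.symm
  have h3 : fd σ w x = ∑ a, x (a, 1) • NZ σ (w a) := by
    rw [fd_apply, Fintype.sum_prod_type]
    refine Finset.sum_congr rfl fun a _ => ?_
    rw [NZ_apply, Finset.smul_sum]
    exact Finset.sum_congr rfl fun z _ => by rw [h1 a z]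
  apply hx0
  funext p
  obtain ⟨a, z⟩ := p
  rw [h1 a z]
  have h4 := congrFun (LinearMap.mem_ker.1 hxU) (a, 1)
  rw [LinearMap.comp_apply, q0_apply, h3] at h4
  have h5 : σ (SemidirectProduct.inl ((1 : Z)⁻¹)) = 1 := by
    rw [inv_one, map_one, map_one]
  rw [show ((a, (1 : Z)) : Fin n × Z).2⁻¹ = ((1 : Z)⁻¹) from rfl, h5, Module.End.one_apply,
    map_sum, Finset.sum_eq_single a] at h4
  · rw [map_smul, hfw, if_pos rfl, smul_eq_mul, mul_one] at h4
    exact h4
  · intro b _ hb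
    rw [map_smul, hfw, if_neg (Ne.symm hb), smul_zero]
  · intro h; exact absurd (Finset.mem_univ _) h

/-- The splitting of a representation: free part with eigen generators `w`, retraction `q`, and `NZ = 0` on the rest. -/
structure Spt (σ : Representation k (Z ⋊[θ] E) V) where
  n : ℕ
  χ : Fin n → E →* kˣ
  w : Fin n → V
  ev : ∀ a y, σ (.inr y) (w a) = ((χ a y : kˣ) : k) • w a
  q : V →ₗ[k] (Fin n × Z → k)
  qe : Eqv σ (tw θ χ k) q
  qf : ∀ x, q (fd σ w x) = x
  qN : ∀ v, q v = 0 → NZ σ v = 0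

/-- MODULE SE. EVERY REPRESENTATION SPLITS. PROOF. `exists_gens`; `B = q0 ∘ fd` is an injective endomorphism of a finite dimensional space, so
bijective; `q = B⁻¹ q0`. Equivariance: `B` is equivariant, so `B⁻¹` too. `q v = 0` gives `q0 v = 0`, so `f_a (z⁻¹ v) = 0` for all
`z`, `f_a (NZ v) = 0`, `NZ v = 0`. -/
theorem exists_spt [IsAlgClosed k] {p n : ℕ} (hp : p.Prime) (hch : CharP k p)
    (hcard : Fintype.card Z = p ^ n) (hE : (Fintype.card E : k) ≠ 0) [FiniteDimensional k V]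
    (σ : Representation k (Z ⋊[θ] E) V) : Nonempty (Spt σ) := by
  obtain ⟨m, χ, w, f, h1, h2, h3, h4⟩ := exists_gens (θ := θ) hE σ
  have hinj := q0_fd_inj hp hch hcard h1 h2 h3
  let B : (Fin m × Z → k) ≃ₗ[k] (Fin m × Z → k) :=
    LinearEquiv.ofInjectiveEndo (q0 σ f ∘ₗ fd σ w) hinj
  have hB : ∀ x, B x = q0 σ f (fd σ w x) := fun x => rfl
  refine ⟨⟨m, χ, w, h1, B.symm.toLinearMap ∘ₗ q0 σ f, ?_, ?_, ?_⟩⟩
  · intro g v
    show B.symm (q0 σ f (σ g v)) = tw θ χ k g (B.symm (q0 σ f v))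
    rw [LinearEquiv.symm_apply_eq, hB, fd_eqv σ h1 g, q0_eqv h2 g, q0_eqv h2 g, ← hB,
      LinearEquiv.apply_symm_apply]
  · intro x
    show B.symm (q0 σ f (fd σ w x)) = x
    rw [← hB, LinearEquiv.symm_apply_apply]
  · intro v hv
    have h5 : q0 σ f v = 0 := by
      have h6 : B.symm (q0 σ f v) = 0 := hv
      exact (LinearEquiv.map_eq_zero_iff _).1 h6
    apply h4
    intro a
    rw [NZ_apply, map_sum]
    refine Finset.sum_eq_zero fun z _ => ?_
    have h6 := congrFun h5 (a, z⁻¹)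
    rw [q0_apply, show ((a, z⁻¹) : Fin m × Z).2⁻¹ = z from inv_inv z] at h6
    exact h6

namespace Spt

variable {σ : Representation k (Z ⋊[θ] E) V} (S : Spt σ)

/-- The projection onto `ker q`. -/
def pr : V →ₗ[k] V := LinearMap.id - fd σ S.w ∘ₗ S.q

theorem pr_apply (v : V) : S.pr v = v - fd σ S.w (S.q v) := rfl

/-- MODULE SF. -/
theorem q_pr (v : V) : S.q (S.pr v) = 0 := by
  rw [pr_apply, map_sub, S.qf, sub_self]

/-- MODULE SF. -/
theorem pr_of_q {v : V} (hv : S.q v = 0) : S.pr v = v := by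
  rw [pr_apply, hv, map_zero, sub_zero]

/-- MODULE SF. -/
theorem pr_fd (x : Fin S.n × Z → k) : S.pr (fd σ S.w x) = 0 := by
  rw [pr_apply, S.qf, sub_self]

/-- MODULE SF. PROOF. `fd_eqv` and `S.qe`. -/
theorem pr_eqv : Eqv σ σ S.pr := by
  intro g v
  rw [pr_apply, pr_apply, S.qe, fd_eqv σ S.ev, map_sub]

/-- MODULE SF. -/
theorem q_stab (g : Z ⋊[θ] E) {v : V} (hv : S.q v = 0) : S.q (σ g v) = 0 := by
  rw [S.qe, hv, map_zero]

/-- MODULE SG. THE DIMENSIONS. PROOF. `q` is onto with the section `fd σ w` (rank and nullity; `finrank (Fin n × Z → k) = n |Z|`). -/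
theorem finrank_eq [FiniteDimensional k V] : Module.finrank k V =
    S.n * Fintype.card Z + Module.finrank k (LinearMap.ker S.q) := by
  rw [← LinearMap.finrank_range_add_finrank_ker S.q,
    LinearMap.range_eq_top.2 (fun x => ⟨fd σ S.w x, S.qf x⟩), finrank_top,
    Module.finrank_fintype_fun_eq_card, Fintype.card_prod, Fintype.card_fin]

omit [Fintype Z] [Fintype E] in
private theorem SG_inl {n : ℕ} (χ : Fin n → E →* kˣ) (z : Z) (x : Fin n × Z → k)
    (p : Fin n × Z) : tw θ χ k (.inl z) x p = x (p.1, z⁻¹ * p.2) := by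
  rw [tw_apply]
  simp only [SemidirectProduct.right_inl, SemidirectProduct.left_inl, map_one, Units.val_one,
    one_smul, inv_one, MulAut.one_apply]

omit [Fintype E] in
private theorem SG_NZ {n : ℕ} (χ : Fin n → E →* kˣ) (x : Fin n × Z → k) (p : Fin n × Z) :
    (∑ z : Z, tw θ χ k (.inl z) x p) = ∑ z, x (p.1, z) := by
  simp only [SG_inl]
  refine Fintype.sum_equiv ((Equiv.inv Z).trans (Equiv.mulRight p.2)) _ _ fun z => ?_
  rfl

/-- MODULE SG. PROOF. `NZ v = NZ (fd (q v))` (`q_pr`, `qN`) `= ∑_a (∑_z (q v)(a, z)) NZ w_a`, and the `NZ w_a = fd(constant at a)` are linearly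
independent as `q fd = id`: the range of `NZ` is the image of `k^n` under the injective map `c ↦ fd((a, z) ↦ c_a)`. -/
theorem finrank_NZ [FiniteDimensional k V] :
    Module.finrank k (LinearMap.range (NZ σ)) = S.n := by
  classical
  let C : (Fin S.n → k) →ₗ[k] (Fin S.n × Z → k) := LinearMap.funLeft k k Prod.fst
  have hC : ∀ c p, C c p = c p.1 := fun c p => rfl
  have hinj : Function.Injective (fd σ S.w ∘ₗ C) := by
    intro c c' h
    have h1 : S.q (fd σ S.w (C c)) = S.q (fd σ S.w (C c')) := congrArg S.q h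
    rw [S.qf, S.qf] at h1
    funext a
    exact congrFun h1 (a, 1)
  have hN : ∀ x, NZ σ (fd σ S.w x) = fd σ S.w (C fun a => ∑ z, x (a, z)) := by
    intro x
    rw [← NZ_eqv (fd_eqv σ S.ev)]
    congr 1
    funext p
    rw [NZ_apply, Finset.sum_apply, SG_NZ, hC]
  have hr : LinearMap.range (NZ σ) = LinearMap.range (fd σ S.w ∘ₗ C) := by
    apply le_antisymm
    · rintro _ ⟨v, rfl⟩
      have h1 : NZ σ v = NZ σ (fd σ S.w (S.q v)) := by
        have h2 := S.qN _ (S.q_pr v)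
        rw [pr_apply, map_sub, sub_eq_zero] at h2
        exact h2
      rw [h1, hN]
      exact ⟨_, rfl⟩
    · rintro _ ⟨c, rfl⟩
      refine ⟨fd σ S.w (fun p => if p.2 = 1 then c p.1 else 0), ?_⟩
      rw [hN, LinearMap.comp_apply]
      congr 2
      funext a
      rw [Finset.sum_ite_eq' Finset.univ (1 : Z) (fun _ => c a), if_pos (Finset.mem_univ _)]
  rw [hr, LinearMap.finrank_range_of_inj hinj, Module.finrank_fin_fun]

omit [Fintype E] [Fintype Z] in
private theorem SH_fin {W : Type} [AddCommGroup W] [Module k W] [FiniteDimensional k V]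
    (A : Submodule k V) (f : V →ₗ[k] W) : Module.finrank k A =
      Module.finrank k (A.map f) + Module.finrank k (A ⊓ LinearMap.ker f : Submodule k V) := by
  rw [← LinearMap.finrank_range_add_finrank_ker (f.domRestrict A), LinearMap.range_domRestrict,
    LinearMap.ker_domRestrict, ← Submodule.map_comap_subtype, Submodule.finrank_map_subtype_eq]

/-- MODULE SH. PROOF. `FZ σ` is the direct sum of `FZ σ ⊓ ker q` and of the image under `fd` of the constant functions `(a, z) ↦ c_a` (the fixed points of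
`tw`): for `v ∈ FZ σ`, `q v` is fixed. -/
theorem finrank_FZ [FiniteDimensional k V] : Module.finrank k (FZ σ) =
    S.n + Module.finrank k (FZ σ ⊓ LinearMap.ker S.q : Submodule k V) := by
  let C : (Fin S.n → k) →ₗ[k] (Fin S.n × Z → k) := LinearMap.funLeft k k Prod.fst
  have hC : ∀ c p, C c p = c p.1 := fun c p => rfl
  have hinj : Function.Injective C := by
    intro c c' h
    funext a
    exact congrFun h (a, 1)
  have hr : (FZ σ).map S.q = LinearMap.range C := by
    apply le_antisymm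
    · rintro _ ⟨v, hv, rfl⟩
      refine ⟨fun a => S.q v (a, 1), ?_⟩
      funext p
      have h1 := congrFun (congrArg S.q (hv p.2)) p
      rw [S.qe, SG_inl, inv_mul_cancel] at h1
      rw [hC]
      exact h1
    · rintro _ ⟨c, rfl⟩
      refine ⟨fd σ S.w (C c), fun z => ?_, S.qf _⟩
      rw [← fd_eqv σ S.ev]
      congr 1
      funext p
      rw [SG_inl, hC, hC]
  rw [SH_fin (FZ σ) S.q, hr, LinearMap.finrank_range_of_inj hinj, Module.finrank_fin_fun]

/-- MODULE SI. PROOF. `RZ σ ⊤` is the direct sum of `RZ σ (ker q)` (in `ker q`) and of the image under `fd` of `{x | ∀ a, ∑_z x(a, z) = 0}`, which has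
dimension `n |Z| - n`: `z v - v = (z v₁ - v₁) + fd(z x - x)` with `v = v₁ + fd x`, `v₁ = pr v`; the functions `z x - x` span the functions with
`∑_z x(a, z) = 0` (`Pi.single (a, z) 1 - Pi.single (a, 1) 1 = z Pi.single (a, 1) 1 - Pi.single (a, 1) 1`). -/
theorem finrank_RZ [FiniteDimensional k V] : Module.finrank k (RZ σ ⊤) + S.n =
    S.n * Fintype.card Z + Module.finrank k (RZ σ (LinearMap.ker S.q)) := by
  classical
  let s : (Fin S.n × Z → k) →ₗ[k] (Fin S.n → k) :=
    { toFun := fun x a => ∑ z, x (a, z)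
      map_add' := fun x y => by
        funext a
        simp only [Pi.add_apply, Finset.sum_add_distrib]
      map_smul' := fun c x => by
        funext a
        simp only [Pi.smul_apply, RingHom.id_apply, Finset.smul_sum] }
  have hs : ∀ x a, s x a = ∑ z, x (a, z) := fun x a => rfl
  have hsur : Function.Surjective s := by
    intro c
    refine ⟨fun p => if p.2 = 1 then c p.1 else 0, ?_⟩
    funext a
    rw [hs, Finset.sum_ite_eq' Finset.univ (1 : Z) (fun _ => c a), if_pos (Finset.mem_univ _)]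
  have hdim : Module.finrank k (LinearMap.ker s) + S.n = S.n * Fintype.card Z := by
    have h1 := LinearMap.finrank_range_add_finrank_ker s
    rw [LinearMap.range_eq_top.2 hsur, finrank_top, Module.finrank_fintype_fun_eq_card,
      Module.finrank_fintype_fun_eq_card, Fintype.card_prod, Fintype.card_fin] at h1
    omega
  have hr : (RZ σ ⊤).map S.q = LinearMap.ker s := by
    apply le_antisymm
    · rw [RZ, Submodule.map_span, Submodule.span_le]
      rintro _ ⟨_, ⟨z, u, _, rfl⟩, rfl⟩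
      rw [SetLike.mem_coe, LinearMap.mem_ker]
      funext a
      rw [hs, map_sub, S.qe]
      simp only [Pi.sub_apply, SG_inl, Finset.sum_sub_distrib]
      rw [Pi.zero_apply, sub_eq_zero]
      exact Fintype.sum_equiv (Equiv.mulLeft z⁻¹) _ _ fun _ => rfl
    · intro x hx
      refine ⟨fd σ S.w x, ?_, S.qf x⟩
      have h1 : fd σ S.w x = ∑ p : Fin S.n × Z, x p • (σ (.inl p.2) (S.w p.1) - S.w p.1) := by
        have h2 : ∑ p : Fin S.n × Z, x p • S.w p.1 = 0 := by
          rw [Fintype.sum_prod_type]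
          refine Finset.sum_eq_zero fun a _ => ?_
          have h3 : ∑ z, x (a, z) = 0 := congrFun (LinearMap.mem_ker.1 hx) a
          show ∑ z, x (a, z) • S.w a = 0
          rw [← Finset.sum_smul, h3, zero_smul]
        simp only [smul_sub, Finset.sum_sub_distrib]
        rw [h2, sub_zero, fd_apply]
      rw [h1]
      exact Submodule.sum_mem _ fun p _ => Submodule.smul_mem _ _
        (Submodule.subset_span ⟨p.2, S.w p.1, trivial, rfl⟩)
  have hk : RZ σ ⊤ ⊓ LinearMap.ker S.q = RZ σ (LinearMap.ker S.q) := by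
    apply le_antisymm
    · rintro v ⟨hv, hq⟩
      rw [← S.pr_of_q hq]
      have h1 : (RZ σ ⊤).map S.pr ≤ RZ σ (LinearMap.ker S.q) := by
        rw [RZ, Submodule.map_span, Submodule.span_le]
        rintro _ ⟨_, ⟨z, u, _, rfl⟩, rfl⟩
        refine Submodule.subset_span ⟨z, S.pr u, S.q_pr u, ?_⟩
        rw [map_sub, S.pr_eqv]
      exact h1 ⟨v, hv, rfl⟩
    · rw [RZ, Submodule.span_le]
      rintro _ ⟨z, u, hu, rfl⟩
      refine ⟨Submodule.subset_span ⟨z, u, trivial, rfl⟩, ?_⟩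
      rw [SetLike.mem_coe, LinearMap.mem_ker, map_sub, S.q_stab _ hu,
        show S.q u = 0 from hu, sub_zero]
  rw [SH_fin (RZ σ ⊤) S.q, hr, hk]
  omega

end Spt

section Trace

variable {W : Type} [AddCommGroup W] [Module k W] {σ : Representation k (Z ⋊[θ] E) V}
  {τ : Representation k (Z ⋊[θ] E) W}

private theorem SJ_sum (φ : V →ₗ[k] W) (v : V) : Trc σ τ φ v =
    ∑ z : Z, ∑ y : E, τ (.inl z) (τ (.inr y) (φ (σ (.inr y⁻¹) (σ (.inl z⁻¹) v)))) := by
  rw [Trc, LinearMap.sum_apply, ← Fintype.sum_prod_type' (f := fun (z : Z) (y : E) =>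
    τ (.inl z) (τ (.inr y) (φ (σ (.inr y⁻¹) (σ (.inl z⁻¹) v)))))]
  refine Fintype.sum_equiv SemidirectProduct.equivProd _ _ fun g => ?_
  have h1 : (SemidirectProduct.inl g.left * SemidirectProduct.inr g.right : Z ⋊[θ] E) = g :=
    SemidirectProduct.inl_left_mul_inr_right g
  have h2 : g⁻¹ = (SemidirectProduct.inr g.right⁻¹ * SemidirectProduct.inl g.left⁻¹ :
      Z ⋊[θ] E) := by
    rw [← h1, mul_inv_rev, map_inv, map_inv, h1]
  show τ g (φ (σ g⁻¹ v)) = τ (.inl g.left) (τ (.inr g.right)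
    (φ (σ (.inr g.right⁻¹) (σ (.inl g.left⁻¹) v))))
  rw [← Module.End.mul_apply (σ _), ← map_mul, ← h2, ← Module.End.mul_apply (τ _), ← map_mul, h1]

/-- MODULE SJ. A trace at a fixed vector is in the image of `NZ`; if `φ` has its values in a stable subspace `U` then in `NZ U`. PROOF. Every
`g ∈ Z ⋊ E` is `inl z * inr y` in exactly one way: `Trc φ v = ∑_z τ(z) ∑_y τ(y) φ σ(y⁻¹) σ(z⁻¹) v = NZ (∑_y τ(y) φ σ(y⁻¹) v)`. -/
theorem trc_fix {U : Submodule k W} (hU : ∀ (y : E), ∀ w ∈ U, τ (.inr y) w ∈ U) {φ : V →ₗ[k] W}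
    (hφ : ∀ v, φ v ∈ U) {v : V} (hv : ∀ z : Z, σ (.inl z) v = v) :
    ∃ u ∈ U, Trc σ τ φ v = NZ τ u := by
  refine ⟨∑ y : E, τ (.inr y) (φ (σ (.inr y⁻¹) v)), Submodule.sum_mem _ fun y _ =>
    hU y _ (hφ _), ?_⟩
  rw [SJ_sum, NZ_apply]
  refine Finset.sum_congr rfl fun z _ => ?_
  rw [map_sum]
  refine Finset.sum_congr rfl fun y _ => ?_
  rw [hv]

/-- MODULE SJ. A trace with values in a subspace on which `Z` acts trivially kills the kernel of `NZ`. PROOF. With `g = inr y * inl z`: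
`Trc φ v = ∑_y τ(y) ∑_z τ(z) φ σ(z⁻¹) σ(y⁻¹) v = ∑_y τ(y) φ (NZ σ(y⁻¹) v)` (`τ(z)` fixes the values of `φ`), `NZ σ(y⁻¹) v = σ(y⁻¹) NZ v = 0`. -/
theorem trc_triv {φ : V →ₗ[k] W} (hφ : ∀ (z : Z) (v : V), τ (.inl z) (φ v) = φ v) {v : V}
    (hv : NZ σ v = 0) : Trc σ τ φ v = 0 := by
  rw [SJ_sum, Finset.sum_comm]
  refine Finset.sum_eq_zero fun y _ => ?_
  have h1 : ∀ z : Z, τ (.inl z) (τ (.inr y) (φ (σ (.inr y⁻¹) (σ (.inl z⁻¹) v)))) =
      τ (.inr y) (φ (σ (.inr y⁻¹) (σ (.inl z⁻¹) v))) := by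
    intro z
    have h2 : (SemidirectProduct.inl z * SemidirectProduct.inr y : Z ⋊[θ] E) =
        SemidirectProduct.inr y * SemidirectProduct.inl ((θ y)⁻¹ z) := by
      rw [SemidirectProduct.inl_aut_inv, ← mul_assoc, ← mul_assoc, ← map_mul, mul_inv_cancel,
        map_one, one_mul]
    rw [← Module.End.mul_apply (τ _), ← map_mul, h2, map_mul, Module.End.mul_apply, hφ]
  simp only [h1]
  rw [← map_sum, ← map_sum, ← map_sum]
  have h3 : ∑ z : Z, σ (.inl z⁻¹) v = NZ σ v := by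
    rw [NZ_apply]
    exact Fintype.sum_equiv (Equiv.inv Z) _ _ fun z => rfl
  rw [h3, hv, map_zero, map_zero, map_zero]

/-- MODULE SK. An equivariant trace with values in `ker q` kills the fixed vectors. PROOF. `f v = pr (f v) = pr (Trc φ v) = Trc (pr φ) v`
(`comp_trc`, `pr_eqv`) `= NZ u`, `u ∈ ker q` (`trc_fix`), `NZ u = 0`. -/
theorem Spt.kill_fix (S : Spt τ) {f : V →ₗ[k] W} (hf : ∃ φ, Trc σ τ φ = f)
    (hq : ∀ v, S.q (f v) = 0) {v : V} (hv : ∀ z : Z, σ (.inl z) v = v) : f v = 0 := by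
  obtain ⟨φ, rfl⟩ := hf
  rw [← S.pr_of_q (hq v), ← LinearMap.comp_apply, comp_trc S.pr_eqv]
  obtain ⟨u, hu, h⟩ := trc_fix (τ := τ) (U := LinearMap.ker S.q) (φ := S.pr ∘ₗ φ)
    (fun y w hw => S.q_stab _ hw) (fun v => S.q_pr _) hv
  rw [h, S.qN u hu]

/-- MODULE SK. An equivariant trace with values in `ker q`, `Z` acting trivially on `ker q`, kills `ker NZ`. PROOF. `f = pr f = Trc (pr φ)`,
`trc_triv`. -/
theorem Spt.kill_NZ (S : Spt τ) (hS : ∀ (z : Z) (w : W), S.q w = 0 → τ (.inl z) w = w)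
    {f : V →ₗ[k] W} (hf : ∃ φ, Trc σ τ φ = f) (hq : ∀ v, S.q (f v) = 0) {v : V}
    (hv : NZ σ v = 0) : f v = 0 := by
  obtain ⟨φ, rfl⟩ := hf
  rw [← S.pr_of_q (hq v), ← LinearMap.comp_apply, comp_trc S.pr_eqv]
  exact trc_triv (σ := σ) (τ := τ) (fun z w => hS z _ (S.q_pr _)) hv

end Trace

section Idem

variable {σ : Representation k (Z ⋊[θ] E) V}

/-- Every equivariant endomorphism is a scalar modulo traces. -/
def Hst (σ : Representation k (Z ⋊[θ] E) V) : Prop :=
  ∀ f : V →ₗ[k] V, Eqv σ σ f → ∃ (c : k) (φ : V →ₗ[k] V), f = c • LinearMap.id + Trc σ σ φ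

/-- MODULE SL. PROOF. `π = c + Trc φ`. If `c = 0`: the range of `π` is stable and not `0`, so it contains a fixed `v ≠ 0` (`exists_fix`),
`v = π v = π (π v) = π (Trc φ v) = π (NZ u) = NZ (π u) = 0` (`trc_fix` with `U = ⊤`, `NZ_eqv`), a contradiction. So `c ≠ 0`. `(1 - π) π = 0`, so
`c (1 - π) = -(1 - π) Trc φ = Trc (-(1 - π) φ)` (`comp_trc`), divide by `c`. -/
theorem idem_trc {p n : ℕ} (hp : p.Prime) (hch : CharP k p) (hcard : Fintype.card Z = p ^ n)
    (hst : Hst σ) {π : V →ₗ[k] V} (hπ : Eqv σ σ π) (hid : ∀ v, π (π v) = π v) (h0 : π ≠ 0)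
    (hN : ∀ v, NZ σ (π v) = 0) : ∃ φ : V →ₗ[k] V, Trc σ σ φ = LinearMap.id - π := by
  obtain ⟨c, φ, h⟩ := hst π hπ
  by_cases hc : c = 0
  · exfalso
    rw [hc, zero_smul, zero_add] at h
    obtain ⟨v, ⟨v', rfl⟩, hv0, hv⟩ := exists_fix hp hch hcard σ (U := LinearMap.range π)
      (fun z v hv => by
        obtain ⟨v', rfl⟩ := hv
        exact ⟨σ (.inl z) v', hπ _ _⟩)
      (fun h1 => h0 (LinearMap.range_eq_bot.1 h1))
    obtain ⟨u, _, hu⟩ := trc_fix (σ := σ) (τ := σ) (U := ⊤) (φ := φ) (fun _ _ _ => trivial)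
      (fun _ => trivial) hv
    apply hv0
    have h1 : π v' = π (π (π v')) := by rw [hid, hid]
    rw [h1]
    have h2 : π (π v') = Trc σ σ φ (π v') := by rw [← h]
    rw [h2, hu, NZ_eqv hπ, hN]
  · have h1 : Eqv σ σ (LinearMap.id - π) := by
      intro g v
      rw [LinearMap.sub_apply, LinearMap.sub_apply, LinearMap.id_apply, LinearMap.id_apply, hπ,
        map_sub]
    refine ⟨c⁻¹ • ((-1 : k) • ((LinearMap.id - π) ∘ₗ φ)), ?_⟩
    rw [trc_smul, trc_smul, ← comp_trc h1]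
    have h2 : Trc σ σ φ = π - c • LinearMap.id := by rw [h, add_sub_cancel_left]
    rw [h2]
    apply LinearMap.ext
    intro v
    show c⁻¹ • ((-1 : k) • ((π v - c • v) - π (π v - c • v))) = v - π v
    rw [map_sub, map_smul, hid, neg_one_smul, sub_sub_sub_cancel_left, neg_sub, ← smul_sub,
      smul_smul, inv_mul_cancel₀ hc, one_smul]

/-- MODULE SL. PROOF. `idem_trc`. `U = {u | q u = 0, π u = 0}` is stable; if it is not `0` it contains a fixed `u ≠ 0` (`exists_fix`), and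
`f = pr (1 - π)` is a trace with values in `ker q` (`comp_trc`), `f u = u`, against `Spt.kill_fix`. So `U = 0`; for `q u = 0` the
vector `u - π u` is in `U`. -/
theorem idem_all {p n : ℕ} (hp : p.Prime) (hch : CharP k p) (hcard : Fintype.card Z = p ^ n)
    (hst : Hst σ) (S : Spt σ) {π : V →ₗ[k] V} (hπ : Eqv σ σ π) (hid : ∀ v, π (π v) = π v)
    (h0 : π ≠ 0) (hq : ∀ v, S.q (π v) = 0) (u : V) (hu : S.q u = 0) : π u = u := by
  obtain ⟨φ, hφ⟩ := idem_trc hp hch hcard hst hπ hid h0 (fun v => S.qN _ (hq v))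
  by_contra hne
  obtain ⟨v, ⟨hv1, hv2⟩, hv0, hv⟩ := exists_fix hp hch hcard σ
    (U := LinearMap.ker S.q ⊓ LinearMap.ker π)
    (fun z v hv => ⟨S.q_stab _ hv.1, by
      rw [SetLike.mem_coe, LinearMap.mem_ker, hπ, show π v = 0 from hv.2, map_zero]⟩)
    (fun h1 => by
      have h2 : u - π u ∈ LinearMap.ker S.q ⊓ LinearMap.ker π := by
        refine ⟨?_, ?_⟩
        · rw [SetLike.mem_coe, LinearMap.mem_ker, map_sub, hu, hq, sub_zero]
        · rw [SetLike.mem_coe, LinearMap.mem_ker, map_sub, hid, sub_self]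
      rw [h1, Submodule.mem_bot, sub_eq_zero] at h2
      exact hne h2.symm)
  apply hv0
  have h1 := S.kill_fix (σ := σ) (f := S.pr ∘ₗ (LinearMap.id - π))
    ⟨S.pr ∘ₗ φ, by rw [← comp_trc S.pr_eqv, hφ]⟩ (fun v => S.q_pr _) hv
  rw [LinearMap.comp_apply, LinearMap.sub_apply, LinearMap.id_apply,
    show π v = 0 from hv2, sub_zero, S.pr_of_q hv1] at h1
  exact h1

private theorem SM_trc (hE : (Fintype.card E : k) ≠ 0) (S : Spt σ) :
    ∃ φ : V →ₗ[k] V, Trc σ σ φ = fd σ S.w ∘ₗ S.q := by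
  obtain ⟨φ, hφ⟩ := eqv_trc_right S.qe (prj_tw (isUnit_iff_ne_zero.2 hE) S.χ k)
  exact ⟨fd σ S.w ∘ₗ φ, by rw [← comp_trc (fd_eqv σ S.ev), hφ]⟩

omit [Fintype Z] [Fintype E] in
private theorem SM_fin {W : Type} [AddCommGroup W] [Module k W] [FiniteDimensional k V]
    [FiniteDimensional k W] {A : Submodule k V} {B : Submodule k W} (f : V →ₗ[k] W)
    (hB : ∀ v ∈ A, f v ∈ B) (h0 : A ⊓ LinearMap.ker f = ⊥) :
    Module.finrank k A ≤ Module.finrank k B := by
  refine LinearMap.finrank_le_finrank_of_injective (f := (f.domRestrict A).codRestrict B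
    fun v => hB _ v.2) ?_
  rw [← LinearMap.ker_eq_bot, LinearMap.ker_eq_bot']
  intro v hv
  have h1 : (v : V) ∈ A ⊓ LinearMap.ker f := ⟨v.2, congrArg Subtype.val hv⟩
  rw [h0, Submodule.mem_bot] at h1
  exact Subtype.ext h1

/-- MODULE SM. TWO IDEMPOTENTS. PROOF. `e = S.pr`: equivariant idempotent with range `ker q`, `id - e = fd σ w ∘ q` is a trace (`eqv_trc_left` or `_right` and
`prj_tw`). The restriction of `e` to the range of `π` is injective: otherwise the stable subspace `{u | π u = u, e u = 0}` contains a fixed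
`u ≠ 0`; `u = (id - e) u = Trc φ u`, `u = π u = Trc (π φ) u = NZ u'` with `u'` in the range of `π` (`trc_fix`), `NZ u' = 0`. In the same way
`π` is injective on `ker q` (with `id - π = Trc φ`, `u = e u`). So the dimensions agree. -/
theorem Spt.finrank_ker {p n : ℕ} (hp : p.Prime) (hch : CharP k p)
    (hcard : Fintype.card Z = p ^ n) (hE : (Fintype.card E : k) ≠ 0) [FiniteDimensional k V]
    (S : Spt σ) {π : V →ₗ[k] V} (hπ : Eqv σ σ π) (hid : ∀ v, π (π v) = π v)
    (hN : ∀ v, NZ σ (π v) = 0) (ht : ∃ φ : V →ₗ[k] V, Trc σ σ φ = LinearMap.id - π) :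
    Module.finrank k (LinearMap.ker S.q) = Module.finrank k (LinearMap.range π) := by
  obtain ⟨φ, hφ⟩ := ht
  obtain ⟨ψ, hψ⟩ := SM_trc hE S
  apply le_antisymm
  · refine SM_fin π (fun v _ => ⟨v, rfl⟩) ?_
    by_contra hne
    obtain ⟨u, ⟨hu1, hu2⟩, hu0, hu⟩ := exists_fix hp hch hcard σ
      (U := LinearMap.ker S.q ⊓ LinearMap.ker π)
      (fun z v hv => ⟨S.q_stab _ hv.1, by
        rw [SetLike.mem_coe, LinearMap.mem_ker, hπ, show π v = 0 from hv.2, map_zero]⟩) hne
    apply hu0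
    have h1 := S.kill_fix (σ := σ) (f := S.pr ∘ₗ (LinearMap.id - π))
      ⟨S.pr ∘ₗ φ, by rw [← comp_trc S.pr_eqv, hφ]⟩ (fun v => S.q_pr _) hu
    rw [LinearMap.comp_apply, LinearMap.sub_apply, LinearMap.id_apply,
      show π u = 0 from hu2, sub_zero, S.pr_of_q hu1] at h1
    exact h1
  · refine SM_fin S.pr (fun v _ => S.q_pr v) ?_
    by_contra hne
    obtain ⟨u, ⟨hu1, hu2⟩, hu0, hu⟩ := exists_fix hp hch hcard σ
      (U := LinearMap.range π ⊓ LinearMap.ker S.pr)
      (fun z v hv => by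
        obtain ⟨⟨v', rfl⟩, hv2⟩ := hv
        refine ⟨⟨σ (.inl z) v', hπ _ _⟩, ?_⟩
        rw [SetLike.mem_coe, LinearMap.mem_ker, S.pr_eqv, show S.pr (π v') = 0 from hv2,
          map_zero]) hne
    apply hu0
    obtain ⟨u', rfl⟩ := hu1
    have h1 : π u' = Trc σ σ ψ (π u') := by
      have h2 : S.pr (π u') = 0 := hu2
      rw [S.pr_apply, sub_eq_zero] at h2
      rw [hψ, LinearMap.comp_apply]
      exact h2
    obtain ⟨v, ⟨v', rfl⟩, h3⟩ := trc_fix (σ := σ) (τ := σ) (U := LinearMap.range π)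
      (φ := π ∘ₗ ψ) (fun y w hw => by
        obtain ⟨w', rfl⟩ := hw
        exact ⟨σ (.inr y) w', hπ _ _⟩) (fun v => ⟨ψ v, rfl⟩) hu
    rw [← comp_trc hπ, LinearMap.comp_apply, ← h1, hid, hN] at h3
    exact h3

/-- MODULE SM. PROOF. If `ker q = ⊥` then `fd σ w` is an equivariant bijection (`fd_eqv`) and `σ` is relatively projective as `tw` is (`prj_tw`;
transport: `φ = fd φ₀ q`, `Trc σ σ (fd φ₀ q) = fd Trc φ₀ q = fd q = id`). -/
theorem Spt.ker_ne (hE : (Fintype.card E : k) ≠ 0) (S : Spt σ) (hnt : ¬ Prj σ) :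
    LinearMap.ker S.q ≠ ⊥ := by
  intro h
  obtain ⟨ψ, hψ⟩ := SM_trc hE S
  refine hnt ⟨ψ, ?_⟩
  rw [hψ]
  ext v
  rw [LinearMap.comp_apply, LinearMap.id_apply]
  have h1 : S.pr v ∈ LinearMap.ker S.q := S.q_pr v
  rw [h, Submodule.mem_bot, S.pr_apply, sub_eq_zero] at h1
  exact h1.symm

end Idem

end Pool.Agent.DDV
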