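import Pool.Agent.DDV.Om

/-!
# DDV, part TwA: the twisted algebra `M_m(H)`

`tn N a = N ⊗ a`, `twr r ρ g = r g ⊗ ρ g`.
-/

set_option autoImplicit false

namespace Pool.Agent.DDV

open Pool.Agent.Sig Pool.Agent.DD

open scoped Matrix TensorProduct

section Tn

variable {R A : Type} [CommRing R] [Ring A] [Algebra R A] {m : ℕ}

/-- `N ⊗ a`. -/
def tn (N : Matrix (Fin m) (Fin m) R) (a : A) : Matrix (Fin m) (Fin m) A :=
  Matrix.of fun i j => N i j • a

theorem tn_apply (N : Matrix (Fin m) (Fin m) R) (a : A) (i j : Fin m) : tn N a i j = N i j • a :=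
  rfl

/-- MODULE TA. -/
theorem tn_mul (N N' : Matrix (Fin m) (Fin m) R) (a a' : A) :
    tn N a * tn N' a' = tn (N * N') (a * a') := by
  ext i j
  simp only [Matrix.mul_apply, tn_apply, Finset.sum_smul, smul_mul_smul_comm]

/-- MODULE TA. -/
theorem tn_one : tn (1 : Matrix (Fin m) (Fin m) R) (1 : A) = 1 := by
  ext i j
  rw [tn_apply, Matrix.one_apply, Matrix.one_apply]
  split_ifs
  · exact one_smul _ _
  · exact zero_smul _ _

/-- MODULE TA. -/
theorem tn_trace (N : Matrix (Fin m) (Fin m) R) (a : A) : (tn N a).trace = N.trace • a := by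
  simp only [Matrix.trace, Matrix.diag_apply, tn_apply, Finset.sum_smul]

/-- MODULE TA. Every matrix is a sum of elements `tn`. PROOF. `M = ∑_(i,j) E_ij ⊗ M_ij`, `E_ij = Matrix.single i j 1`. -/
theorem tn_sum (M : Matrix (Fin m) (Fin m) A) :
    M = ∑ i, ∑ j, tn (Matrix.single i j (1 : R)) (M i j) := by
  ext a b
  simp only [Matrix.sum_apply, tn_apply, Matrix.single_apply]
  rw [Finset.sum_eq_single a, Finset.sum_eq_single b]
  · rw [if_pos ⟨rfl, rfl⟩, one_smul]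
  · intro c _ hc
    rw [if_neg fun h => hc h.2, zero_smul]
  · intro h
    exact absurd (Finset.mem_univ _) h
  · intro c _ hc
    refine Finset.sum_eq_zero fun d _ => ?_
    rw [if_neg fun h => hc h.1, zero_smul]
  · intro h
    exact absurd (Finset.mem_univ _) h

variable {G : Type} [Group G]

/-- `g ↦ r g ⊗ ρ g`. -/
def twr (r : G →* Matrix (Fin m) (Fin m) R) (ρ : G →* A) : G →* Matrix (Fin m) (Fin m) A where
  toFun g := tn (r g) (ρ g)
  map_one' := by rw [map_one, map_one, tn_one]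
  map_mul' g h := by rw [map_mul, map_mul, tn_mul]

theorem twr_apply (r : G →* Matrix (Fin m) (Fin m) R) (ρ : G →* A) (g : G) :
    twr r ρ g = tn (r g) (ρ g) := rfl

end Tn

section St

variable {k : Type} [Field k] {Z E : Type} [CommGroup Z] [Fintype Z] [CommGroup E] [Fintype E]
  {θ : E →* MulAut Z} {H : Type} [Ring H] [Algebra k H] {m : ℕ}

/-- The matrix of the coefficients at `g` of the `π (M i j)`. -/
noncomputable def Nc (S : StEq k Z E θ H) (g : Z ⋊[θ] E) (M : Matrix (Fin m) (Fin m) H) :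
    Matrix (Fin m) (Fin m) k :=
  Matrix.of fun i j => (S.π (M i j)).coeff g

theorem Nc_apply (S : StEq k Z E θ H) (g : Z ⋊[θ] E) (M : Matrix (Fin m) (Fin m) H) (i j : Fin m) :
    Nc S g M i j = (S.π (M i j)).coeff g := rfl

/-- MODULE TB. -/
theorem Nc_add (S : StEq k Z E θ H) (g : Z ⋊[θ] E) (M M' : Matrix (Fin m) (Fin m) H) :
    Nc S g (M + M') = Nc S g M + Nc S g M' := by
  ext i j
  rw [Nc_apply, Matrix.add_apply, Matrix.add_apply, map_add, MonoidAlgebra.coeff_add,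
    Finsupp.add_apply, Nc_apply, Nc_apply]

/-- MODULE TB. -/
theorem Nc_smul (S : StEq k Z E θ H) (g : Z ⋊[θ] E) (c : k) (M : Matrix (Fin m) (Fin m) H) :
    Nc S g (c • M) = c • Nc S g M := by
  ext i j
  rw [Nc_apply, Matrix.smul_apply, Matrix.smul_apply, map_smul, MonoidAlgebra.coeff_smul,
    Finsupp.smul_apply, Nc_apply]

/-- MODULE TB. PROOF. `(r(l) ⊗ ρ(l)) M` has the entries `∑_a r(l)_ia • (ρ(l) * M_aj)`; `S.left`, and the coefficient of `of l * x` at
`l * g` is the coefficient of `x` at `g` (`MonoidAlgebra.coeff_single_mul_apply`). -/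
theorem Nc_left (S : StEq k Z E θ H) (r : (Z ⋊[θ] E) →* Matrix (Fin m) (Fin m) k)
    (l g : Z ⋊[θ] E) (M : Matrix (Fin m) (Fin m) H) :
    Nc S (l * g) (twr r S.ρ l * M) = r l * Nc S g M := by
  ext i j
  rw [Nc_apply, Matrix.mul_apply, Matrix.mul_apply, map_sum, MonoidAlgebra.coeff_sum,
    Finsupp.finsetSum_apply]
  refine Finset.sum_congr rfl fun a _ => ?_
  rw [twr_apply, tn_apply, smul_mul_assoc, map_smul, S.left, MonoidAlgebra.coeff_smul,
    Finsupp.smul_apply, smul_eq_mul, MonoidAlgebra.of_apply, MonoidAlgebra.coeff_single_mul_mul,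
    one_mul, Nc_apply]

/-- MODULE TB. The same from the right (`S.right`). -/
theorem Nc_right (S : StEq k Z E θ H) (r : (Z ⋊[θ] E) →* Matrix (Fin m) (Fin m) k)
    (l g : Z ⋊[θ] E) (M : Matrix (Fin m) (Fin m) H) :
    Nc S (g * l) (M * twr r S.ρ l) = Nc S g M * r l := by
  ext i j
  rw [Nc_apply, Matrix.mul_apply, Matrix.mul_apply, map_sum, MonoidAlgebra.coeff_sum,
    Finsupp.finsetSum_apply]
  refine Finset.sum_congr rfl fun a _ => ?_
  rw [twr_apply, tn_apply, mul_smul_comm, map_smul, S.right, MonoidAlgebra.coeff_smul,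
    Finsupp.smul_apply, smul_eq_mul, MonoidAlgebra.of_apply, MonoidAlgebra.coeff_mul_single_mul,
    mul_one, Nc_apply, mul_comm]

private theorem TB_of (S : StEq k Z E θ H) (g : Z ⋊[θ] E) :
    S.π (S.ρ g) = MonoidAlgebra.of k _ g := by
  have h := S.retr (MonoidAlgebra.of k _ g)
  rwa [MonoidAlgebra.lift_of] at h

/-- MODULE TB. PROOF. `π (r(g)_ij • ρ(g)) = r(g)_ij • of g` (`S.retr` for `of g`). -/
theorem Nc_twr [DecidableEq (Z ⋊[θ] E)] (S : StEq k Z E θ H)
    (r : (Z ⋊[θ] E) →* Matrix (Fin m) (Fin m) k) (l g : Z ⋊[θ] E) :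
    Nc S l (twr r S.ρ g) = if l = g then r g else 0 := by
  ext i j
  rw [Nc_apply, twr_apply, tn_apply, map_smul, TB_of, MonoidAlgebra.coeff_smul,
    Finsupp.smul_apply, MonoidAlgebra.of_apply, MonoidAlgebra.coeff_single, Finsupp.single_apply, smul_eq_mul]
  by_cases h : l = g
  · rw [if_pos h.symm, if_pos h, mul_one]
  · rw [if_neg (Ne.symm h), if_neg h, mul_zero, Matrix.zero_apply]

/-- MODULE TB. The entries of `M - ∑_g Nc_g(M) ⊗ ρ(g)` are `M_ij - io(π M_ij)`. PROOF.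
`io x = ∑_g x.coeff g • ρ(g)` (`MonoidAlgebra.lift_apply`, `Finsupp.sum_fintype`). -/
theorem sub_Nc (S : StEq k Z E θ H) (M : Matrix (Fin m) (Fin m) H) (i j : Fin m) :
    (M - ∑ g, tn (Nc S g M) (S.ρ g)) i j = M i j - MonoidAlgebra.lift k _ _ S.ρ (S.π (M i j)) := by
  rw [Matrix.sub_apply, Matrix.sum_apply, MonoidAlgebra.lift_apply, Finsupp.sum_fintype]
  · simp only [tn_apply, Nc_apply]
  · intro g
    exact zero_smul _ _

/-- The projection `π'(M) = ∑_g m⁻¹ tr(Nc_g(M) r(g)⁻¹) g`. -/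
noncomputable def pi' (S : StEq k Z E θ H) (T : TwK k θ m) :
    Matrix (Fin m) (Fin m) H →ₗ[k] cAlg k θ where
  toFun M := ∑ g, MonoidAlgebra.single g ((m : k)⁻¹ * (Nc S g M * T.r g⁻¹).trace)
  map_add' M M' := by
    rw [← Finset.sum_add_distrib]
    refine Finset.sum_congr rfl fun g _ => ?_
    rw [← MonoidAlgebra.single_add, Nc_add, add_mul, Matrix.trace_add, mul_add]
  map_smul' c M := by
    rw [RingHom.id_apply, Finset.smul_sum]
    refine Finset.sum_congr rfl fun g _ => ?_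
    rw [MonoidAlgebra.smul_single, Nc_smul, Matrix.smul_mul, Matrix.trace_smul, smul_eq_mul,
      smul_eq_mul, mul_left_comm]

/-- MODULE TC. PROOF. The coefficient of a sum of `single`. -/
theorem pi'_coeff (S : StEq k Z E θ H) (T : TwK k θ m) (M : Matrix (Fin m) (Fin m) H)
    (g : Z ⋊[θ] E) : (pi' S T M).coeff g = (m : k)⁻¹ * (Nc S g M * T.r g⁻¹).trace := by
  classical
  show (∑ g, MonoidAlgebra.single g ((m : k)⁻¹ * (Nc S g M * T.r g⁻¹).trace)).coeff g = _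
  rw [MonoidAlgebra.coeff_sum, Finsupp.finsetSum_apply, Finset.sum_eq_single g]
  · rw [MonoidAlgebra.coeff_single, Finsupp.single_apply, if_pos rfl]
  · intro b _ hb
    rw [MonoidAlgebra.coeff_single, Finsupp.single_apply, if_neg hb]
  · intro h
    exact absurd (Finset.mem_univ _) h

omit [Fintype Z] [Fintype E] in
private theorem TC_ext {x y : cAlg k θ} (h : ∀ g, x.coeff g = y.coeff g) : x = y :=
  MonoidAlgebra.coeff_injective (Finsupp.ext h)

/-- MODULE TC. PROOF. By linearity (`MonoidAlgebra.induction_on`) it is enough to consider `x = of g`; `Nc_twr`,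
`tr(r(g) r(g⁻¹)) = m`. -/
theorem pi'_retr (S : StEq k Z E θ H) (T : TwK k θ m) (x : cAlg k θ) :
    pi' S T (MonoidAlgebra.lift k _ _ (twr T.r S.ρ) x) = x := by
  classical
  have h1 : ∀ g : Z ⋊[θ] E, pi' S T (twr T.r S.ρ g) = MonoidAlgebra.of k _ g := by
    intro g
    refine TC_ext fun l => ?_
    rw [pi'_coeff, Nc_twr, MonoidAlgebra.of_apply, MonoidAlgebra.coeff_single, Finsupp.single_apply]
    by_cases h : l = g
    · rw [if_pos h, if_pos h.symm, h, ← map_mul, mul_inv_cancel, map_one, Matrix.trace_one,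
        Fintype.card_fin, inv_mul_cancel₀ T.card]
    · rw [if_neg h, if_neg (Ne.symm h), zero_mul, Matrix.trace_zero, mul_zero]
  have h2 : (pi' S T) ∘ₗ (MonoidAlgebra.lift k _ _ (twr T.r S.ρ)).toLinearMap =
      LinearMap.id := by
    refine MonoidAlgebra.lhom_ext' fun g => LinearMap.ext_ring ?_
    have h3 := h1 g
    rw [MonoidAlgebra.of_apply] at h3
    simp only [LinearMap.comp_apply, AlgHom.toLinearMap_apply, MonoidAlgebra.lsingle_apply,
      MonoidAlgebra.lift_single, one_smul, h3, LinearMap.id_apply]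
  exact LinearMap.congr_fun h2 x

/-- MODULE TC. PROOF. Compare the coefficients at `l * g`: `Nc_left`, `tr(r(l) N r(g⁻¹ l⁻¹)) = tr(N r(g⁻¹))`. -/
theorem pi'_left (S : StEq k Z E θ H) (T : TwK k θ m) (l : Z ⋊[θ] E)
    (M : Matrix (Fin m) (Fin m) H) :
    pi' S T (twr T.r S.ρ l * M) = MonoidAlgebra.of k _ l * pi' S T M := by
  refine TC_ext fun g => ?_
  obtain ⟨g, rfl⟩ : ∃ g', g = l * g' := ⟨l⁻¹ * g, (mul_inv_cancel_left l g).symm⟩
  rw [pi'_coeff, Nc_left, MonoidAlgebra.of_apply, MonoidAlgebra.coeff_single_mul_mul, one_mul,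
    pi'_coeff, mul_inv_rev, map_mul, mul_assoc, Matrix.trace_mul_comm, mul_assoc, mul_assoc,
    ← map_mul, inv_mul_cancel, map_one, mul_one]

/-- MODULE TC. PROOF. Compare the coefficients at `g * l`: `Nc_right`. -/
theorem pi'_right (S : StEq k Z E θ H) (T : TwK k θ m) (l : Z ⋊[θ] E)
    (M : Matrix (Fin m) (Fin m) H) :
    pi' S T (M * twr T.r S.ρ l) = pi' S T M * MonoidAlgebra.of k _ l := by
  refine TC_ext fun g => ?_
  obtain ⟨g, rfl⟩ : ∃ g', g = g' * l := ⟨g * l⁻¹, (inv_mul_cancel_right g l).symm⟩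
  rw [pi'_coeff, Nc_right, MonoidAlgebra.of_apply, MonoidAlgebra.coeff_mul_single_mul, mul_one,
    pi'_coeff, mul_inv_rev, map_mul, mul_assoc, ← mul_assoc (T.r l), ← map_mul, mul_inv_cancel,
    map_one, one_mul]

/-- MODULE TC. PROOF. `io'(π' M) = ∑_g (π' M).coeff g • (r(g) ⊗ ρ(g))`. -/
theorem io'_pi' (S : StEq k Z E θ H) (T : TwK k θ m) (M : Matrix (Fin m) (Fin m) H) :
    MonoidAlgebra.lift k _ _ (twr T.r S.ρ) (pi' S T M) =
      ∑ g, tn (((m : k)⁻¹ * (Nc S g M * T.r g⁻¹).trace) • T.r g) (S.ρ g) := by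
  rw [MonoidAlgebra.lift_apply, Finsupp.sum_fintype]
  · refine Finset.sum_congr rfl fun g _ => ?_
    rw [pi'_coeff, twr_apply]
    ext i j
    rw [Matrix.smul_apply, tn_apply, tn_apply, Matrix.smul_apply, smul_eq_mul, smul_smul]
  · intro g
    exact zero_smul _ _

/-- The operator `h' = h₁ + h₂`, `h₁(M) = (h(M_ij))`, `h₂(M) = ∑_(y ∈ E) γ(Nc_y(M) r(y)⁻¹) r(y) ⊗ ρ(y)`. -/
noncomputable def hh' (S : StEq k Z E θ H) (T : TwK k θ m) :
    Matrix (Fin m) (Fin m) H →ₗ[k] Matrix (Fin m) (Fin m) H where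
  toFun M := M.map S.h +
    ∑ y : E, tn (T.γ (Nc S (.inr y) M * T.r (.inr y⁻¹)) * T.r (.inr y)) (S.ρ (.inr y))
  map_add' M M' := by
    ext i j
    simp only [Matrix.add_apply, Matrix.map_apply, map_add, Matrix.sum_apply, tn_apply, Nc_add,
      add_mul, add_smul, Finset.sum_add_distrib]
    abel
  map_smul' c M := by
    ext i j
    simp only [Matrix.add_apply, Matrix.map_apply, map_smul, Matrix.sum_apply, tn_apply, Nc_smul,
      Matrix.smul_mul, Matrix.smul_apply, smul_add, Finset.smul_sum, RingHom.id_apply, smul_assoc]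

private theorem TD_add (N N' : Matrix (Fin m) (Fin m) k) (a : H) :
    tn (N + N') a = tn N a + tn N' a := by
  ext i j
  rw [Matrix.add_apply, tn_apply, tn_apply, tn_apply, Matrix.add_apply, add_smul]

private theorem TD_sum {ι : Type} (s : Finset ι) (N : Matrix (Fin m) (Fin m) k) (a : ι → H) :
    tn N (∑ i ∈ s, a i) = ∑ i ∈ s, tn N (a i) := by
  ext i j
  simp only [Matrix.sum_apply, tn_apply, Finset.smul_sum]

private theorem TD_hom {B : Type} [AddCommGroup B] (f g : Matrix (Fin m) (Fin m) H →+ B)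
    (h : ∀ (N : Matrix (Fin m) (Fin m) k) (a : H), f (tn N a) = g (tn N a))
    (M : Matrix (Fin m) (Fin m) H) : f M = g M := by
  rw [tn_sum (R := k) M, map_sum, map_sum]
  refine Finset.sum_congr rfl fun i _ => ?_
  rw [map_sum, map_sum]
  exact Finset.sum_congr rfl fun j _ => h _ _

private theorem TD_map (h : H →ₗ[k] H) (N : Matrix (Fin m) (Fin m) k) (a : H) :
    (tn N a).map h = tn N (h a) := by
  ext i j
  rw [Matrix.map_apply, tn_apply, tn_apply, map_smul]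

/-- MODULE TD. The trace of `h₁`. PROOF. Entrywise `S.proj`: `(ρ'(u⁻¹) M ρ'(w))_ij = ∑_(a,b) r(u⁻¹)_ia r(w)_bj • ρ(u⁻¹) M_ab ρ(w)`; the matrices
`r(u) r(u⁻¹)` and `r(w) r(w⁻¹)` are `1`. (`h₁` is linear over the matrices over `k`: with `tn_sum` it is enough to treat
`M = N ⊗ x`: `ρ'(u) (r(u⁻¹) N r(w) ⊗ h(ρ(u⁻¹) x ρ(w))) ρ'(w⁻¹) = N ⊗ ρ(u) h(..) ρ(w⁻¹)`.) -/
theorem h1_proj (S : StEq k Z E θ H) (T : TwK k θ m) (M : Matrix (Fin m) (Fin m) H) :
    ∑ u : Z, ∑ w : Z, twr T.r S.ρ (.inl u) *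
      (twr T.r S.ρ (.inl u⁻¹) * M * twr T.r S.ρ (.inl w)).map S.h * twr T.r S.ρ (.inl w⁻¹) =
      M - ∑ g, tn (Nc S g M) (S.ρ g) := by
  let f : Matrix (Fin m) (Fin m) H →+ Matrix (Fin m) (Fin m) H :=
    AddMonoidHom.mk' (fun M => ∑ u : Z, ∑ w : Z, twr T.r S.ρ (.inl u) *
      (twr T.r S.ρ (.inl u⁻¹) * M * twr T.r S.ρ (.inl w)).map S.h * twr T.r S.ρ (.inl w⁻¹))
      fun a b => by
      simp only [mul_add, add_mul, Matrix.map_add _ (map_add S.h), Finset.sum_add_distrib]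
  let g : Matrix (Fin m) (Fin m) H →+ Matrix (Fin m) (Fin m) H :=
    AddMonoidHom.mk' (fun M => M - ∑ g, tn (Nc S g M) (S.ρ g))
      fun a b => by
      simp only [Nc_add, TD_add, Finset.sum_add_distrib]
      abel
  refine TD_hom (k := k) f g (fun N x => ?_) M
  show ∑ u : Z, ∑ w : Z, twr T.r S.ρ (.inl u) *
      (twr T.r S.ρ (.inl u⁻¹) * tn N x * twr T.r S.ρ (.inl w)).map S.h *
        twr T.r S.ρ (.inl w⁻¹) = tn N x - ∑ g, tn (Nc S g (tn N x)) (S.ρ g)
  have hr : ∀ u : Z, T.r (.inl u) * T.r (.inl u⁻¹) = 1 := fun u => by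
    rw [← map_mul, ← map_mul, mul_inv_cancel, map_one, map_one]
  have e1 : ∀ u w : Z, twr T.r S.ρ (.inl u) *
      (twr T.r S.ρ (.inl u⁻¹) * tn N x * twr T.r S.ρ (.inl w)).map S.h *
        twr T.r S.ρ (.inl w⁻¹) =
      tn N (S.ρ (.inl u) * S.h (S.ρ (.inl u⁻¹) * x * S.ρ (.inl w)) * S.ρ (.inl w⁻¹)) := by
    intro u w
    simp only [twr_apply, tn_mul, TD_map]
    congr 1
    calc T.r (.inl u) * (T.r (.inl u⁻¹) * N * T.r (.inl w)) * T.r (.inl w⁻¹) =
        (T.r (.inl u) * T.r (.inl u⁻¹)) * N * (T.r (.inl w) * T.r (.inl w⁻¹)) := by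
          simp only [mul_assoc]
      _ = N := by rw [hr, hr, one_mul, mul_one]
  simp only [e1]
  have e2 : ∑ u : Z, ∑ w : Z, tn N (S.ρ (.inl u) * S.h (S.ρ (.inl u⁻¹) * x * S.ρ (.inl w)) *
      S.ρ (.inl w⁻¹)) = tn N (x - MonoidAlgebra.lift k _ _ S.ρ (S.π x)) := by
    rw [S.proj x, TD_sum]
    exact Finset.sum_congr rfl fun u _ => (TD_sum _ _ _).symm
  rw [e2]
  ext i j
  rw [sub_Nc, tn_apply, tn_apply, map_smul, map_smul, smul_sub]

private theorem TE_sum {ι : Type} (s : Finset ι) (N : ι → Matrix (Fin m) (Fin m) k) (a : H) :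
    tn (∑ i ∈ s, N i) a = ∑ i ∈ s, tn (N i) a := by
  ext i j
  simp only [Matrix.sum_apply, tn_apply, Finset.sum_smul]

omit [Fintype Z] [Fintype E] in
private theorem TE_bij (u : Z) : Function.Bijective
    (fun p : Z × E => (.inl u * .inr p.2 * .inl p.1⁻¹ : Z ⋊[θ] E)) := by
  constructor
  · rintro ⟨w, y⟩ ⟨w', y'⟩ h
    simp only [mul_assoc, mul_right_inj] at h
    have h2 : y = y' := by
      have := congrArg SemidirectProduct.right h
      simpa using this
    subst h2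
    have h3 := congrArg SemidirectProduct.left h
    simp only [SemidirectProduct.mul_left, SemidirectProduct.left_inr, one_mul,
      SemidirectProduct.right_inr, SemidirectProduct.left_inl] at h3
    rw [inv_injective ((θ y).injective h3)]
  · intro g
    refine ⟨((θ g.right⁻¹ (u⁻¹ * g.left))⁻¹, g.right), ?_⟩
    ext
    · simp
    · simp

/-- MODULE TE. The trace of `h₂`. PROOF. For `u, w ∈ Z`, `y ∈ E` put `g = inl u * inr y * inl w⁻¹`. By `Nc_left`, `Nc_right` (with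
`inr y = inl u⁻¹ * g * inl w`): `Nc_y(ρ'(u⁻¹) M ρ'(w)) = r(u⁻¹) Nc_g(M) r(w)`. The term is
`r(u) γ(r(u⁻¹) Nc_g(M) r(w) r(y⁻¹)) r(y) r(w⁻¹) ⊗ ρ(u) ρ(y) ρ(w⁻¹)`, and `r(w) r(y⁻¹) = r(g⁻¹) r(u)`, `r(y) r(w⁻¹) = r(u⁻¹) r(g)`,
`ρ(u) ρ(y) ρ(w⁻¹) = ρ(g)`. For fixed `u` the map `(w, y) ↦ g` is a bijection `Z × E → Z ⋊ E`. So the sum is
`∑_g (∑_u r(u) γ(r(u⁻¹) T_g r(u)) r(u⁻¹)) r(g) ⊗ ρ(g)` with `T_g = Nc_g(M) r(g⁻¹)`, and `T.proj` gives
`(T_g - m⁻¹ tr(T_g)) r(g) = Nc_g(M) - m⁻¹ tr(T_g) r(g)`. -/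
theorem h2_proj (S : StEq k Z E θ H) (T : TwK k θ m) (M : Matrix (Fin m) (Fin m) H) :
    ∑ u : Z, ∑ w : Z, twr T.r S.ρ (.inl u) *
      (∑ y : E, tn (T.γ (Nc S (.inr y) (twr T.r S.ρ (.inl u⁻¹) * M * twr T.r S.ρ (.inl w)) *
        T.r (.inr y⁻¹)) * T.r (.inr y)) (S.ρ (.inr y))) * twr T.r S.ρ (.inl w⁻¹) =
      ∑ g, tn (Nc S g M - ((m : k)⁻¹ * (Nc S g M * T.r g⁻¹).trace) • T.r g) (S.ρ g) := by
  have hr : ∀ g : Z ⋊[θ] E, T.r g * T.r g⁻¹ = 1 := fun g => by
    rw [← map_mul, mul_inv_cancel, map_one]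
  have hr' : ∀ g : Z ⋊[θ] E, T.r g⁻¹ * T.r g = 1 := fun g => by
    rw [← map_mul, inv_mul_cancel, map_one]
  have hil : ∀ u : Z, (.inl u⁻¹ : Z ⋊[θ] E) = (.inl u)⁻¹ := fun u => map_inv _ u
  have hir : ∀ y : E, (.inr y⁻¹ : Z ⋊[θ] E) = (.inr y)⁻¹ := fun u => map_inv _ u
  let F : Z → (Z ⋊[θ] E) → Matrix (Fin m) (Fin m) H := fun u g =>
    tn (T.r (.inl u) * T.γ (T.r (.inl u⁻¹) * (Nc S g M * T.r g⁻¹) * T.r (.inl u)) *
      T.r (.inl u⁻¹) * T.r g) (S.ρ g)
  have e1 : ∀ u w : Z, twr T.r S.ρ (.inl u) *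
      (∑ y : E, tn (T.γ (Nc S (.inr y) (twr T.r S.ρ (.inl u⁻¹) * M * twr T.r S.ρ (.inl w)) *
        T.r (.inr y⁻¹)) * T.r (.inr y)) (S.ρ (.inr y))) * twr T.r S.ρ (.inl w⁻¹) =
      ∑ y : E, F u (.inl u * .inr y * .inl w⁻¹) := by
    intro u w
    rw [Finset.mul_sum, Finset.sum_mul]
    refine Finset.sum_congr rfl fun y _ => ?_
    have e2 : Nc S (.inr y) (twr T.r S.ρ (.inl u⁻¹) * M * twr T.r S.ρ (.inl w)) =
        T.r (.inl u⁻¹) * Nc S (.inl u * .inr y * .inl w⁻¹) M * T.r (.inl w) := by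
      have e3 := Nc_right S T.r (.inl w) (.inl u⁻¹ * (.inl u * .inr y * .inl w⁻¹))
        (twr T.r S.ρ (.inl u⁻¹) * M)
      rw [Nc_left] at e3
      rw [← e3]
      congr 1
      rw [hil, hil]
      group
    rw [e2, twr_apply, twr_apply, tn_mul, tn_mul]
    show _ = tn (T.r (.inl u) * T.γ (T.r (.inl u⁻¹) * (Nc S (.inl u * .inr y * .inl w⁻¹) M *
      T.r (.inl u * .inr y * .inl w⁻¹)⁻¹) * T.r (.inl u)) *
      T.r (.inl u⁻¹) * T.r (.inl u * .inr y * .inl w⁻¹)) (S.ρ (.inl u * .inr y * .inl w⁻¹))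
    have e4 : T.r (.inl u⁻¹) * Nc S (.inl u * .inr y * .inl w⁻¹) M * T.r (.inl w) *
        T.r (.inr y⁻¹) = T.r (.inl u⁻¹) * (Nc S (.inl u * .inr y * .inl w⁻¹) M *
      T.r (.inl u * .inr y * .inl w⁻¹)⁻¹) * T.r (.inl u) := by
      simp only [mul_assoc, ← map_mul]
      congr 3
      rw [hil, hir]
      group
    have e5 : T.r (.inl u⁻¹) * T.r (.inl u * .inr y * .inl w⁻¹) =
        T.r (.inr y) * T.r (.inl w⁻¹) := by
      rw [← map_mul, ← map_mul]
      congr 1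
      rw [hil, hil]
      group
    rw [e4]
    congr 1
    · rw [mul_assoc _ (T.r (.inl u⁻¹)) (T.r (.inl u * .inr y * .inl w⁻¹)), e5]
      simp only [mul_assoc]
    · rw [map_mul, map_mul]
  simp only [e1]
  have e6 : ∀ u : Z, ∑ w : Z, ∑ y : E, F u (.inl u * .inr y * .inl w⁻¹) = ∑ g, F u g := by
    intro u
    rw [← Fintype.sum_prod_type' (fun w y => F u (.inl u * .inr y * .inl w⁻¹))]
    exact Function.Bijective.sum_comp (TE_bij u) (F u)
  simp only [e6]
  rw [Finset.sum_comm]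
  refine Finset.sum_congr rfl fun g _ => ?_
  show ∑ u : Z, tn (T.r (.inl u) * T.γ (T.r (.inl u⁻¹) * (Nc S g M * T.r g⁻¹) *
      T.r (.inl u)) * T.r (.inl u⁻¹) * T.r g) (S.ρ g) = _
  rw [← TE_sum, ← Finset.sum_mul, ← T.proj (Nc S g M * T.r g⁻¹), sub_mul, mul_assoc, hr',
    mul_one, Matrix.smul_mul, one_mul]

/-- `tn` as a bilinear map. -/
private def TF_tl (N : Matrix (Fin m) (Fin m) k) : H →ₗ[k] Matrix (Fin m) (Fin m) H where
  toFun a := tn N a
  map_add' a b := by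
    ext i j
    simp [tn_apply, smul_add]
  map_smul' c a := by
    ext i j
    rw [Matrix.smul_apply, tn_apply, tn_apply, RingHom.id_apply, smul_comm]

private theorem TF_tl_apply (N : Matrix (Fin m) (Fin m) k) (a : H) : TF_tl N a = tn N a := rfl

/-- `tn` as a linear map in the first variable. -/
private def TF_tr (a : H) : Matrix (Fin m) (Fin m) k →ₗ[k] Matrix (Fin m) (Fin m) H where
  toFun N := tn N a
  map_add' N N' := by
    ext i j
    simp [tn_apply, add_smul]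
  map_smul' c N := by
    ext i j
    simp [tn_apply, mul_smul]

private theorem TF_tr_apply (N : Matrix (Fin m) (Fin m) k) (a : H) : TF_tr a N = tn N a := rfl

private theorem TF_left (P : Matrix (Fin m) (Fin m) k) (s c : Fin m) :
    Matrix.single s c (1 : k) * P = ∑ d, P c d • Matrix.single s d (1 : k) := by
  ext i j
  rw [Matrix.sum_apply]
  simp only [Matrix.smul_apply, smul_eq_mul]
  by_cases hi : i = s
  · subst hi
    rw [Matrix.single_mul_apply_same, one_mul]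
    rw [Finset.sum_eq_single j]
    · rw [Matrix.single_apply_same, mul_one]
    · intro b _ hb
      rw [Matrix.single_apply_of_col_ne _ _ hb, mul_zero]
    · intro h; exact absurd (Finset.mem_univ _) h
  · rw [Matrix.single_mul_apply_of_ne _ _ _ _ _ hi]
    symm
    refine Finset.sum_eq_zero fun b _ => ?_
    rw [Matrix.single_apply_of_row_ne (Ne.symm hi), mul_zero]

private theorem TF_right (P : Matrix (Fin m) (Fin m) k) (s c : Fin m) :
    P * Matrix.single c s (1 : k) = ∑ d, P d c • Matrix.single d s (1 : k) := by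
  ext i j
  rw [Matrix.sum_apply]
  simp only [Matrix.smul_apply, smul_eq_mul]
  by_cases hi : j = s
  · subst hi
    rw [Matrix.mul_single_apply_same, mul_one]
    rw [Finset.sum_eq_single i]
    · rw [Matrix.single_apply_same, mul_one]
    · intro b _ hb
      rw [Matrix.single_apply_of_row_ne hb, mul_zero]
    · intro h; exact absurd (Finset.mem_univ _) h
  · rw [Matrix.mul_single_apply_of_ne _ _ _ _ _ hi]
    symm
    refine Finset.sum_eq_zero fun b _ => ?_
    rw [Matrix.single_apply_of_col_ne _ _ (Ne.symm hi), mul_zero]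

private theorem TF_inv (P Q : Matrix (Fin m) (Fin m) k) (h : Q * P = 1) (s s' : Fin m) (x y : H) :
    ∑ c, tn (Matrix.single s c (1 : k) * P) x ⊗ₜ[k] tn (Q * Matrix.single c s' (1 : k)) y =
      ∑ c, tn (Matrix.single s c (1 : k)) x ⊗ₜ[k] tn (Matrix.single c s' (1 : k)) y := by
  have h1 : ∀ c : Fin m, tn (Matrix.single s c (1 : k) * P) x ⊗ₜ[k]
      tn (Q * Matrix.single c s' (1 : k)) y = ∑ d', ∑ d, (Q d' c * P c d) •
        (tn (Matrix.single s d (1 : k)) x ⊗ₜ[k] tn (Matrix.single d' s' (1 : k)) y) := by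
    intro c
    rw [TF_left, TF_right, ← TF_tr_apply, ← TF_tr_apply, map_sum, map_sum, TensorProduct.tmul_sum]
    refine Finset.sum_congr rfl fun d' _ => ?_
    rw [TensorProduct.sum_tmul]
    refine Finset.sum_congr rfl fun d _ => ?_
    rw [map_smul, map_smul, TensorProduct.smul_tmul_smul, TF_tr_apply, TF_tr_apply, mul_comm]
  simp only [h1]
  rw [Finset.sum_comm]
  refine Finset.sum_congr rfl fun d' _ => ?_
  rw [Finset.sum_comm, Finset.sum_eq_single d']
  · rw [← Finset.sum_smul, ← Matrix.mul_apply, h, Matrix.one_apply_eq, one_smul]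
  · intro d _ hd
    rw [← Finset.sum_smul, ← Matrix.mul_apply, h, Matrix.one_apply_ne (Ne.symm hd), zero_smul]
  · intro h; exact absurd (Finset.mem_univ _) h

private theorem TF_hom {B : Type} [AddCommGroup B] (f g : Matrix (Fin m) (Fin m) H →+ B)
    (h : ∀ (p q : Fin m) (a : H), f (tn (Matrix.single p q (1 : k)) a) =
      g (tn (Matrix.single p q (1 : k)) a)) (M : Matrix (Fin m) (Fin m) H) : f M = g M := by
  rw [tn_sum (R := k) M, map_sum, map_sum]
  refine Finset.sum_congr rfl fun i _ => ?_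
  rw [map_sum, map_sum]
  exact Finset.sum_congr rfl fun j _ => h i j _

private theorem TF_cas (S : StEq k Z E θ H) (r : (Z ⋊[θ] E) →* Matrix (Fin m) (Fin m) k)
    (z : Matrix (Fin m) (Fin m) H) :
    ∑ s : Fin m, ∑ i, ∑ u : Z, ∑ c : Fin m,
      (z * tn (Matrix.single s c (1 : k)) (S.a i) * twr r S.ρ (.inl u)) ⊗ₜ[k]
        (twr r S.ρ (.inl u⁻¹) * tn (Matrix.single c s (1 : k)) (S.b i)) =
    ∑ s : Fin m, ∑ i, ∑ u : Z, ∑ c : Fin m,
      (tn (Matrix.single s c (1 : k)) (S.a i) * twr r S.ρ (.inl u)) ⊗ₜ[k]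
        (twr r S.ρ (.inl u⁻¹) * tn (Matrix.single c s (1 : k)) (S.b i) * z) := by
  have hr : ∀ u : Z, r (.inl u⁻¹) * r (.inl u) = 1 := fun u => by
    rw [← map_mul, ← map_mul, inv_mul_cancel, map_one, map_one]
  have hL : ∀ (s : Fin m) (i : Fin S.n) (u : Z), ∑ c : Fin m,
      (z * tn (Matrix.single s c (1 : k)) (S.a i) * twr r S.ρ (.inl u)) ⊗ₜ[k]
        (twr r S.ρ (.inl u⁻¹) * tn (Matrix.single c s (1 : k)) (S.b i)) =
      ∑ c : Fin m, (z * tn (Matrix.single s c (1 : k)) (S.a i * S.ρ (.inl u))) ⊗ₜ[k]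
        tn (Matrix.single c s (1 : k)) (S.ρ (.inl u⁻¹) * S.b i) := by
    intro s i u
    have e := congrArg (LinearMap.rTensor (Matrix (Fin m) (Fin m) H)
      (LinearMap.mulLeft k z)) (TF_inv (r (.inl u)) (r (.inl u⁻¹)) (hr u) s s
        (S.a i * S.ρ (.inl u)) (S.ρ (.inl u⁻¹) * S.b i))
    rw [map_sum, map_sum] at e
    simp only [LinearMap.rTensor_tmul, LinearMap.mulLeft_apply] at e
    rw [← e]
    refine Finset.sum_congr rfl fun c _ => ?_
    rw [twr_apply, twr_apply, mul_assoc, tn_mul, tn_mul]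
  have hR : ∀ (s : Fin m) (i : Fin S.n) (u : Z), ∑ c : Fin m,
      (tn (Matrix.single s c (1 : k)) (S.a i) * twr r S.ρ (.inl u)) ⊗ₜ[k]
        (twr r S.ρ (.inl u⁻¹) * tn (Matrix.single c s (1 : k)) (S.b i) * z) =
      ∑ c : Fin m, (tn (Matrix.single s c (1 : k)) (S.a i * S.ρ (.inl u))) ⊗ₜ[k]
        (tn (Matrix.single c s (1 : k)) (S.ρ (.inl u⁻¹) * S.b i) * z) := by
    intro s i u
    have e := congrArg (LinearMap.lTensor (Matrix (Fin m) (Fin m) H)
      (LinearMap.mulRight k z)) (TF_inv (r (.inl u)) (r (.inl u⁻¹)) (hr u) s s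
        (S.a i * S.ρ (.inl u)) (S.ρ (.inl u⁻¹) * S.b i))
    rw [map_sum, map_sum] at e
    simp only [LinearMap.lTensor_tmul, LinearMap.mulRight_apply] at e
    rw [← e]
    refine Finset.sum_congr rfl fun c _ => ?_
    rw [twr_apply, twr_apply, tn_mul, tn_mul]
  simp only [hL, hR]
  let f : Matrix (Fin m) (Fin m) H →+
      (Matrix (Fin m) (Fin m) H ⊗[k] Matrix (Fin m) (Fin m) H) :=
    AddMonoidHom.mk' (fun z => ∑ s : Fin m, ∑ i, ∑ u : Z, ∑ c : Fin m,
      (z * tn (Matrix.single s c (1 : k)) (S.a i * S.ρ (.inl u))) ⊗ₜ[k]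
        tn (Matrix.single c s (1 : k)) (S.ρ (.inl u⁻¹) * S.b i)) fun a b => by
      simp only [add_mul, TensorProduct.add_tmul, Finset.sum_add_distrib]
  let g : Matrix (Fin m) (Fin m) H →+
      (Matrix (Fin m) (Fin m) H ⊗[k] Matrix (Fin m) (Fin m) H) :=
    AddMonoidHom.mk' (fun z => ∑ s : Fin m, ∑ i, ∑ u : Z, ∑ c : Fin m,
      (tn (Matrix.single s c (1 : k)) (S.a i * S.ρ (.inl u))) ⊗ₜ[k]
        (tn (Matrix.single c s (1 : k)) (S.ρ (.inl u⁻¹) * S.b i) * z)) fun a b => by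
      simp only [mul_add, TensorProduct.tmul_add, Finset.sum_add_distrib]
  refine TF_hom (k := k) f g (fun p q h => ?_) z
  show (∑ s : Fin m, ∑ i, ∑ u : Z, ∑ c : Fin m,
      (tn (Matrix.single p q (1 : k)) h * tn (Matrix.single s c (1 : k)) (S.a i * S.ρ (.inl u)))
        ⊗ₜ[k] tn (Matrix.single c s (1 : k)) (S.ρ (.inl u⁻¹) * S.b i)) =
    ∑ s : Fin m, ∑ i, ∑ u : Z, ∑ c : Fin m,
      (tn (Matrix.single s c (1 : k)) (S.a i * S.ρ (.inl u))) ⊗ₜ[k]
        (tn (Matrix.single c s (1 : k)) (S.ρ (.inl u⁻¹) * S.b i) *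
          tn (Matrix.single p q (1 : k)) h)
  rw [Finset.sum_eq_single q, Finset.sum_eq_single p]
  · have e : ∀ c : Fin m, ∑ i, ∑ u : Z, tn (Matrix.single p c (1 : k)) (h * S.a i * S.ρ (.inl u))
        ⊗ₜ[k] tn (Matrix.single c q (1 : k)) (S.ρ (.inl u⁻¹) * S.b i) =
        ∑ i, ∑ u : Z, tn (Matrix.single p c (1 : k)) (S.a i * S.ρ (.inl u))
        ⊗ₜ[k] tn (Matrix.single c q (1 : k)) (S.ρ (.inl u⁻¹) * S.b i * h) := by
      intro c
      have e1 := congrArg (TensorProduct.map (TF_tl (H := H) (Matrix.single p c (1 : k)))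
        (TF_tl (H := H) (Matrix.single c q (1 : k)))) (S.cas2 h)
      simpa only [map_sum, TensorProduct.map_tmul, TF_tl_apply] using e1
    have e2 : ∀ i : Fin S.n, ∑ u : Z, ∑ c : Fin m,
        (tn (Matrix.single p q (1 : k)) h * tn (Matrix.single q c (1 : k)) (S.a i * S.ρ (.inl u)))
          ⊗ₜ[k] tn (Matrix.single c q (1 : k)) (S.ρ (.inl u⁻¹) * S.b i) =
        ∑ c : Fin m, ∑ u : Z, tn (Matrix.single p c (1 : k)) (h * S.a i * S.ρ (.inl u))
        ⊗ₜ[k] tn (Matrix.single c q (1 : k)) (S.ρ (.inl u⁻¹) * S.b i) := by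
      intro i
      rw [Finset.sum_comm]
      refine Finset.sum_congr rfl fun c _ => Finset.sum_congr rfl fun u _ => ?_
      rw [tn_mul, Matrix.single_mul_single_same, one_mul, mul_assoc]
    have e3 : ∀ i : Fin S.n, ∑ u : Z, ∑ c : Fin m,
        (tn (Matrix.single p c (1 : k)) (S.a i * S.ρ (.inl u))) ⊗ₜ[k]
          (tn (Matrix.single c p (1 : k)) (S.ρ (.inl u⁻¹) * S.b i) *
            tn (Matrix.single p q (1 : k)) h) =
        ∑ c : Fin m, ∑ u : Z, tn (Matrix.single p c (1 : k)) (S.a i * S.ρ (.inl u))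
        ⊗ₜ[k] tn (Matrix.single c q (1 : k)) (S.ρ (.inl u⁻¹) * S.b i * h) := by
      intro i
      rw [Finset.sum_comm]
      refine Finset.sum_congr rfl fun c _ => Finset.sum_congr rfl fun u _ => ?_
      rw [tn_mul, Matrix.single_mul_single_same, one_mul]
    simp only [e2, e3]
    rw [Finset.sum_comm, Finset.sum_comm (s := (Finset.univ : Finset (Fin S.n)))]
    exact Finset.sum_congr rfl fun c _ => e c
  · intro s _ hs
    refine Finset.sum_eq_zero fun i _ => Finset.sum_eq_zero fun u _ =>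
      Finset.sum_eq_zero fun c _ => ?_
    rw [tn_mul, Matrix.single_mul_single_of_ne _ _ _ _ hs, ← TF_tr_apply 0, map_zero,
      TensorProduct.tmul_zero]
  · intro h; exact absurd (Finset.mem_univ _) h
  · intro s _ hs
    refine Finset.sum_eq_zero fun i _ => Finset.sum_eq_zero fun u _ =>
      Finset.sum_eq_zero fun c _ => ?_
    rw [tn_mul, Matrix.single_mul_single_of_ne _ _ _ _ (Ne.symm hs), ← TF_tr_apply 0, map_zero,
      TensorProduct.zero_tmul]
  · intro h; exact absurd (Finset.mem_univ _) h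

/-- MODULE TF. THE CASIMIR ELEMENT. PROOF. `a' = m⁻¹ E_sc ⊗ a_i`, `b' = E_cs ⊗ b_i`, indexed by `(s, c, i)` (reindex to `Fin`).
`cas1`: `∑_(s,c) E_sc E_cs = m 1`. `cas2`: for every `u`: `∑_c (E_sc r(u) ⊗ x) ⊗ (r(u⁻¹) E_cs ⊗ y) = ∑_c (E_sc ⊗ x) ⊗ (E_cs ⊗ y)`
(`E_sc r(u) = ∑_d r(u)_cd E_sd`, `r(u⁻¹) E_cs = ∑_d' r(u⁻¹)_d'c E_d's`, `∑_c r(u⁻¹)_d'c r(u)_cd = δ`). So both sides of `cas2` are
`m⁻¹ ∑_(s,c) ∑_i ∑_u` of `(z' (E_sc ⊗ a_i ρ(u))) ⊗ (E_cs ⊗ ρ(u⁻¹) b_i)` and `(E_sc ⊗ a_i ρ(u)) ⊗ ((E_cs ⊗ ρ(u⁻¹) b_i) z')`. By linearity (`tn_sum`)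
`z' = E_pq ⊗ h`: the left is `∑_c ∑_i ∑_u (E_pc ⊗ h a_i ρ(u)) ⊗ (E_cq ⊗ ρ(u⁻¹) b_i)`, the right is
`∑_c ∑_i ∑_u (E_pc ⊗ a_i ρ(u)) ⊗ (E_cq ⊗ ρ(u⁻¹) b_i h)`; apply for each `c` the linear map
`H ⊗ H → M_m(H) ⊗ M_m(H)`, `x ⊗ y ↦ (E_pc ⊗ x) ⊗ (E_cq ⊗ y)` to `S.cas2 h`. -/
theorem exists_cas' (S : StEq k Z E θ H) (T : TwK k θ m) :
    ∃ (n : ℕ) (a b : Fin n → Matrix (Fin m) (Fin m) H), ∑ i, a i * b i = 1 ∧
      ∀ z : Matrix (Fin m) (Fin m) H,
      ∑ i, ∑ u : Z, (z * a i * twr T.r S.ρ (.inl u)) ⊗ₜ[k] (twr T.r S.ρ (.inl u⁻¹) * b i) =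
      ∑ i, ∑ u : Z, (a i * twr T.r S.ρ (.inl u)) ⊗ₜ[k] (twr T.r S.ρ (.inl u⁻¹) * b i * z) := by
  classical
  let q := Fintype.equivFin (Fin m × Fin m × Fin S.n)
  refine ⟨Fintype.card (Fin m × Fin m × Fin S.n),
    fun j => (m : k)⁻¹ • tn (Matrix.single (q.symm j).1 (q.symm j).2.1 (1 : k))
      (S.a (q.symm j).2.2),
    fun j => tn (Matrix.single (q.symm j).2.1 (q.symm j).1 (1 : k)) (S.b (q.symm j).2.2), ?_, ?_⟩
  · rw [Equiv.sum_comp q.symm (fun x : Fin m × Fin m × Fin S.n =>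
      ((m : k)⁻¹ • tn (Matrix.single x.1 x.2.1 (1 : k)) (S.a x.2.2)) *
        tn (Matrix.single x.2.1 x.1 (1 : k)) (S.b x.2.2))]
    rw [Fintype.sum_prod_type]
    simp only [Fintype.sum_prod_type]
    have e : ∀ s c : Fin m, ∑ i, ((m : k)⁻¹ • tn (Matrix.single s c (1 : k)) (S.a i)) *
        tn (Matrix.single c s (1 : k)) (S.b i) =
        (m : k)⁻¹ • tn (Matrix.single s s (1 : k)) (1 : H) := by
      intro s c
      rw [← S.cas1, ← TF_tl_apply, map_sum, Finset.smul_sum]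
      refine Finset.sum_congr rfl fun i _ => ?_
      rw [smul_mul_assoc, tn_mul, Matrix.single_mul_single_same, one_mul, TF_tl_apply]
    simp only [e]
    rw [Finset.sum_comm]
    have e1 : ∑ s : Fin m, (m : k)⁻¹ • tn (Matrix.single s s (1 : k)) (1 : H) =
        (m : k)⁻¹ • (1 : Matrix (Fin m) (Fin m) H) := by
      rw [← Finset.smul_sum, ← tn_one (R := k)]
      simp only [← TF_tr_apply]
      rw [← map_sum, Matrix.sum_single_eq_diagonal]
      congr 2
    simp only [e1]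
    rw [Finset.sum_const, Finset.card_univ, Fintype.card_fin, ← Nat.cast_smul_eq_nsmul k,
      smul_smul, mul_inv_cancel₀ T.card, one_smul]
  · intro z
    have e1 := Equiv.sum_comp q.symm (fun x : Fin m × Fin m × Fin S.n => ∑ u : Z,
      (z * ((m : k)⁻¹ • tn (Matrix.single x.1 x.2.1 (1 : k)) (S.a x.2.2)) *
        twr T.r S.ρ (.inl u)) ⊗ₜ[k] (twr T.r S.ρ (.inl u⁻¹) *
          tn (Matrix.single x.2.1 x.1 (1 : k)) (S.b x.2.2)))
    have e2 := Equiv.sum_comp q.symm (fun x : Fin m × Fin m × Fin S.n => ∑ u : Z,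
      (((m : k)⁻¹ • tn (Matrix.single x.1 x.2.1 (1 : k)) (S.a x.2.2)) *
        twr T.r S.ρ (.inl u)) ⊗ₜ[k] (twr T.r S.ρ (.inl u⁻¹) *
          tn (Matrix.single x.2.1 x.1 (1 : k)) (S.b x.2.2) * z))
    refine e1.trans (Eq.trans ?_ e2.symm)
    rw [Fintype.sum_prod_type, Fintype.sum_prod_type]
    simp only [Fintype.sum_prod_type]
    have h1 := congrArg (fun x => (m : k)⁻¹ • x) (TF_cas S T.r z)
    simp only [Finset.smul_sum] at h1
    refine Eq.trans (Finset.sum_congr rfl fun s _ => ?_) (h1.trans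
      (Finset.sum_congr rfl fun s _ => ?_))
    · rw [Finset.sum_comm]
      refine Finset.sum_congr rfl fun i _ => ?_
      rw [Finset.sum_comm]
      refine Finset.sum_congr rfl fun u _ => Finset.sum_congr rfl fun c _ => ?_
      rw [mul_smul_comm, smul_mul_assoc, TensorProduct.smul_tmul']
    · rw [Finset.sum_comm (s := (Finset.univ : Finset (Fin m)))]
      refine Finset.sum_congr rfl fun i _ => ?_
      rw [Finset.sum_comm (s := (Finset.univ : Finset (Fin m)))]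
      refine Finset.sum_congr rfl fun u _ => Finset.sum_congr rfl fun c _ => ?_
      rw [smul_mul_assoc, TensorProduct.smul_tmul']

/-- The form of the matrix algebra. -/
def smat {R A : Type} [CommRing R] [Ring A] [Algebra R A] (s : A →ₗ[R] R) (m : ℕ) :
    Matrix (Fin m) (Fin m) A →ₗ[R] R := s ∘ₗ Matrix.traceLinearMap (Fin m) R A

theorem smat_apply {R A : Type} [CommRing R] [Ring A] [Algebra R A] (s : A →ₗ[R] R) (m : ℕ)
    (M : Matrix (Fin m) (Fin m) A) : smat s m M = s M.trace := rfl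

/-- MODULE TG. PROOF. `s(tr(M N)) = ∑_(i,j) s(M_ij N_ji)`. -/
theorem smat_sym {R A : Type} [CommRing R] [Ring A] [Algebra R A] {s : A →ₗ[R] R}
    (hs : ∀ a b, s (a * b) = s (b * a)) (M N : Matrix (Fin m) (Fin m) A) :
    smat s m (M * N) = smat s m (N * M) := by
  simp only [smat_apply, Matrix.trace, Matrix.diag_apply, Matrix.mul_apply, map_sum]
  rw [Finset.sum_comm]
  refine Finset.sum_congr rfl fun i _ => Finset.sum_congr rfl fun j _ => ?_
  exact hs _ _

/-- MODULE TG. PROOF. Test with `N = E_ji ⊗ b`. -/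
theorem smat_nd {s : H →ₗ[k] k} (hs : ∀ a, (∀ b, s (a * b) = 0) → a = 0)
    (M : Matrix (Fin m) (Fin m) H) (h : ∀ N, smat s m (M * N) = 0) : M = 0 := by
  ext i j
  refine hs _ fun b => ?_
  have h1 := h (Matrix.single j i b)
  rw [smat_apply, Matrix.trace, Finset.sum_eq_single i] at h1
  · rwa [Matrix.diag_apply, Matrix.mul_single_apply_same] at h1
  · intro c _ hc
    rw [Matrix.diag_apply, Matrix.mul_single_apply_of_ne _ _ _ _ _ hc]
  · intro h2
    exact absurd (Finset.mem_univ _) h2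

/-- MODULE TG. PROOF. `s(tr(∑_z r(z) ⊗ ρ(z))) = ∑_z tr(r(z)) s(ρ(z)) = m s(∑ ρ(z))` (`T.tr`, `T.card`). -/
theorem smat_sN (K : KD k θ H) (T : TwK k θ m) :
    smat K.s m (∑ z : Z, twr T.r K.ρ (.inl z)) ≠ 0 := by
  have h1 : (∑ z : Z, twr T.r K.ρ (.inl z)).trace = (m : k) • ∑ z : Z, K.ρ (.inl z) := by
    rw [Matrix.trace_sum, Finset.smul_sum]
    refine Finset.sum_congr rfl fun z _ => ?_
    rw [twr_apply, tn_trace, T.tr]
  rw [smat_apply, h1, map_smul, smul_eq_mul]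
  exact mul_ne_zero T.card K.sN

/-- MODULE TG. THE CENTRE. PROOF. A central matrix is scalar, with a central entry `x` (`m ≥ 1` as `m ≠ 0` in `k`; commute with
the `E_ij ⊗ 1` and `1 ⊗ a`); `K.loc x`. -/
theorem smat_loc (K : KD k θ H) (hm : (m : k) ≠ 0) (M : Matrix (Fin m) (Fin m) H)
    (hM : ∀ N, M * N = N * M) : IsNilpotent M ∨ ∃ N, M * N = 1 := by
  have hm0 : 0 < m := by
    rcases Nat.eq_zero_or_pos m with h | h
    · exact absurd (by rw [h, Nat.cast_zero]) hm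
    · exact h
  obtain ⟨x, rfl⟩ := Matrix.mem_range_scalar_of_commute_single (M := M)
    (fun i j _ => (hM _).symm)
  have hx : ∀ a, x * a = a * x := by
    intro a
    have h1 := hM (Matrix.scalar (Fin m) a)
    rw [← map_mul, ← map_mul] at h1
    have h2 := congrFun (congrFun h1 ⟨0, hm0⟩) ⟨0, hm0⟩
    simpa only [Matrix.scalar_apply, Matrix.diagonal_apply_eq] using h2
  rcases K.loc x hx with h | ⟨w, hw⟩
  · exact Or.inl (h.map (Matrix.scalar (Fin m)))
  · exact Or.inr ⟨Matrix.scalar (Fin m) w, by rw [← map_mul, hw, map_one]⟩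

/-- MODULE TH. THE TWISTED DATA. PROOF. Assembly: `pi'`, `hh'` (`h1_proj`, `h2_proj`, `io'_pi'`), `exists_cas'`, `smat`. -/
theorem exists_twK (K : KD k θ H) (T : TwK k θ m) :
    ∃ K' : KD k θ (Matrix (Fin m) (Fin m) H), K'.ρ = twr T.r K.ρ ∧ K'.s = smat K.s m := by
  obtain ⟨n, a, b, h1, h2⟩ := exists_cas' K.toStEq T
  refine ⟨{ ρ := twr T.r K.ρ, π := pi' K.toStEq T, retr := pi'_retr K.toStEq T,
            left := pi'_left K.toStEq T, right := pi'_right K.toStEq T, h := hh' K.toStEq T,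
            proj := ?_, n := n, a := a, b := b, cas1 := h1, cas2 := h2, p := K.p, hp := K.hp,
            ch := K.ch, r := K.r, card := K.card, free := K.free, s := smat K.s m,
            sym := smat_sym K.sym, nd := smat_nd K.nd, sN := smat_sN K T,
            loc := smat_loc K T.card }, rfl, rfl⟩
  intro M
  have h3 : ∀ u w : Z, twr T.r K.ρ (.inl u) *
      hh' K.toStEq T (twr T.r K.ρ (.inl u⁻¹) * M * twr T.r K.ρ (.inl w)) *
        twr T.r K.ρ (.inl w⁻¹) =
      twr T.r K.ρ (.inl u) *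
        (twr T.r K.ρ (.inl u⁻¹) * M * twr T.r K.ρ (.inl w)).map K.h * twr T.r K.ρ (.inl w⁻¹) +
      twr T.r K.ρ (.inl u) *
      (∑ y : E, tn (T.γ (Nc K.toStEq (.inr y)
        (twr T.r K.ρ (.inl u⁻¹) * M * twr T.r K.ρ (.inl w)) *
        T.r (.inr y⁻¹)) * T.r (.inr y)) (K.ρ (.inr y))) * twr T.r K.ρ (.inl w⁻¹) := by
    intro u w
    rw [← add_mul, ← mul_add]
    rfl
  simp only [h3, Finset.sum_add_distrib]
  rw [h1_proj, h2_proj, io'_pi', sub_add, ← Finset.sum_sub_distrib]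
  congr 1
  refine Finset.sum_congr rfl fun g _ => ?_
  ext i j
  rw [Matrix.sub_apply, tn_apply, tn_apply, tn_apply, ← sub_smul, Matrix.sub_apply,
    sub_sub_cancel]

end St

section Pk

variable {k : Type} [Field k] {Z E : Type} [CommGroup Z] [Fintype Z] [CommGroup E] [Fintype E]
  {θ : E →* MulAut Z} {R A H : Type} [CommRing R] [Ring A] [Algebra R A] [Ring H] [Algebra k H]
  {m : ℕ}

/-- Idempotent matrices lift. -/
def MLft (rd : A →+* H) : Prop :=
  ∀ (n : ℕ) (F : Matrix (Fin n) (Fin n) H), F * F = F →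
    ∃ F' : Matrix (Fin n) (Fin n) A, F' * F' = F' ∧ F'.map rd = F

/-- MODULE TI. PROOF. `M_n(M_m(H)) = M_(n × m)(H)` (`Matrix.compRingEquiv` or similar, reindexed by `finProdFinEquiv`), the same for
`A`, compatible with the reduction. -/
theorem mlft_mat {rd : A →+* H} (h : MLft rd) (m : ℕ) :
    MLft (rd.mapMatrix : Matrix (Fin m) (Fin m) A →+* Matrix (Fin m) (Fin m) H) := by
  intro n F hF
  obtain ⟨F', h1, h2⟩ := h (n * m) ((Matrix.compRingEquiv (Fin n) (Fin m) H F).submatrix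
    finProdFinEquiv.symm finProdFinEquiv.symm) (by
      rw [Matrix.submatrix_mul_equiv, ← map_mul, hF])
  refine ⟨(Matrix.compRingEquiv (Fin n) (Fin m) A).symm
    (F'.submatrix finProdFinEquiv finProdFinEquiv), ?_, ?_⟩
  · rw [← map_mul, Matrix.submatrix_mul_equiv, h1]
  · ext i j a b
    have h3 := congrFun (congrFun h2 (finProdFinEquiv (i, a))) (finProdFinEquiv (j, b))
    rw [Matrix.submatrix_apply, Equiv.symm_apply_apply, Equiv.symm_apply_apply] at h3
    exact h3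

/-- MODULE TJ. PROOF. `M = ∑ E_ij ⊗ M_ij` and `M_ij ∈ ker(res) • ⊤`; the map `x ↦ E_ij ⊗ x` is `R`-linear
(`Submodule.smul_induction_on` or `Submodule.map`). -/
theorem rdk_mat {res : R →+* k} {rd : A →+* H}
    (hk : ∀ a, rd a = 0 → a ∈ (RingHom.ker res) • (⊤ : Submodule R A))
    (M : Matrix (Fin m) (Fin m) A) (hM : M.map rd = 0) :
    M ∈ (RingHom.ker res) • (⊤ : Submodule R (Matrix (Fin m) (Fin m) A)) := by
  rw [tn_sum (R := R) M]
  refine Submodule.sum_mem _ fun i _ => Submodule.sum_mem _ fun j _ => ?_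
  have h1 : M i j ∈ (RingHom.ker res) • (⊤ : Submodule R A) :=
    hk _ (congrFun (congrFun hM i) j)
  refine Submodule.smul_induction_on h1 (fun r hr x _ => ?_) (fun x y hx hy => ?_)
  · have h2 : tn (Matrix.single i j (1 : R)) (r • x) =
        r • tn (Matrix.single i j (1 : R)) x := by
      ext a b
      rw [Matrix.smul_apply, tn_apply, tn_apply, smul_comm]
    rw [h2]
    exact Submodule.smul_mem_smul hr trivial
  · have h2 : tn (Matrix.single i j (1 : R)) (x + y) =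
        tn (Matrix.single i j (1 : R)) x + tn (Matrix.single i j (1 : R)) y := by
      ext a b
      rw [Matrix.add_apply, tn_apply, tn_apply, tn_apply, smul_add]
    rw [h2]
    exact Submodule.add_mem _ hx hy

/-- MODULE TK. THE TWISTED PACKAGE. PROOF. `K'` from `exists_twK`; `res`, `ω` are the old ones; `rd` entrywise; finite and free:
instances for matrices; `rds`, `rdl` entrywise; `rdk`: `rdk_mat`; `ρ = twr r Q.ρ`, `rdρ` from `hr`; `κ` entrywise:
`(r(g) ⊗ ρ(g)) κ((r(g⁻¹) ⊗ ρ(g⁻¹)) M) = ` entrywise `ρ(g) κ(ρ(g⁻¹) M_ij)` (`κ` is `R`-linear); `s = smat Q.s m`, `ss`: `Q.ss`, `Q.rdl`,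
additivity; `lift`: `h` for `n = m` gives the idempotents of `M_m(H)`. -/
theorem exists_twP (Q : Pkg k θ R A H) (h : MLft Q.rd) (T : TwK k θ m)
    (r : (Z ⋊[θ] E) →* Matrix (Fin m) (Fin m) R) (hr : ∀ g, (r g).map Q.res = T.r g) :
    ∃ Q' : Pkg k θ R (Matrix (Fin m) (Fin m) A) (Matrix (Fin m) (Fin m) H),
      Q'.K.ρ = twr T.r Q.K.ρ ∧ Q'.rd = Q.rd.mapMatrix ∧ Q'.res = Q.res := by
  obtain ⟨K', hρ, hs⟩ := exists_twK Q.K T
  have := Q.fin
  have := Q.free
  refine ⟨{ K := K', res := Q.res, ress := Q.ress, resu := Q.resu, fin := inferInstance,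
            free := inferInstance, rd := Q.rd.mapMatrix, rds := ?_, rdl := ?_,
            rdk := fun M hM => rdk_mat Q.rdk M hM, ρ := twr r Q.ρ, rdρ := ?_,
            κ := Q.κ.mapMatrix, trk := ?_, s := smat Q.s m, sym := smat_sym Q.sym, ss := ?_,
            lift := fun F hF => h m F hF, ω := Q.ω, winj := Q.winj }, hρ, rfl, rfl⟩
  · intro N
    choose f hf using Q.rds
    refine ⟨Matrix.of fun i j => f (N i j), ?_⟩
    ext i j
    exact hf _
  · intro c M
    ext i j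
    exact Q.rdl c (M i j)
  · intro g
    rw [hρ]
    ext i j
    show Q.rd (r g i j • Q.ρ g) = T.r g i j • Q.K.ρ g
    rw [Q.rdl, Q.rdρ, ← hr g, Matrix.map_apply]
  · intro M
    ext i j
    rw [Matrix.sum_apply]
    have h1 : ∀ g : Z ⋊[θ] E, (twr r Q.ρ g * Q.κ.mapMatrix (twr r Q.ρ g⁻¹ * M)) i j =
        Q.ρ g * Q.κ (Q.ρ g⁻¹ * M i j) := by
      intro g
      have h2 : ∀ a, twr r Q.ρ g i a * (Q.κ.mapMatrix (twr r Q.ρ g⁻¹ * M)) a j =
          ∑ b, (r g i a * r g⁻¹ a b) • (Q.ρ g * Q.κ (Q.ρ g⁻¹ * M b j)) := by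
        intro a
        rw [LinearMap.mapMatrix_apply, Matrix.map_apply, Matrix.mul_apply, map_sum,
          Finset.mul_sum]
        refine Finset.sum_congr rfl fun b _ => ?_
        rw [twr_apply, twr_apply, tn_apply, tn_apply, smul_mul_assoc (r g⁻¹ a b), map_smul,
          smul_mul_smul_comm]
      rw [Matrix.mul_apply]
      simp only [h2]
      rw [Finset.sum_comm]
      simp only [← Finset.sum_smul, ← Matrix.mul_apply]
      rw [← map_mul, mul_inv_cancel, map_one, Finset.sum_eq_single i]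
      · rw [Matrix.one_apply_eq, one_smul]
      · intro b _ hb
        rw [Matrix.one_apply_ne hb.symm, zero_smul]
      · intro h3
        exact absurd (Finset.mem_univ _) h3
    simp only [h1]
    exact Q.trk (M i j)
  · intro M
    rw [hs, smat_apply, smat_apply, Q.ss]
    congr 1
    rw [Matrix.trace, Matrix.trace, map_sum]
    rfl

end Pk

end Pool.Agent.DDV
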